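import Mathlib
import Pool.Agent.T6.H81.BG.Defs
import Pool.Agent.H548.BL.Cnt

/-!
Smooth complete intersections of divisors of type `(1, 1)` in products of two projective spaces:
definitions, and the statements of the modules.
-/

set_option autoImplicit false

namespace Pool.Agent.T6.H81.BJ

open Finset Module Matrix
open Pool.Agent.H548.WM (ht bx mem_bx Rep)
open Pool.Agent.H548.BL (lat)
open Pool.Agent.H548.TL (evz)
open Pool.Agent.T6.H5.TW (fl MultiDeg)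
open Pool.Agent.T6.H81.BG (Pt Bx Zr cf)

/-! ### Definitions -/

section

variable {k N1 N2 : ℕ}

/-- The vectors `M e * y`. -/
def cvv {R : Type*} [CommRing R] (M : Fin k → Matrix (Fin N1) (Fin N2) ℤ) (y : Fin N2 → R)
    (e : Fin k) : Fin N1 → R := (M e).map (Int.cast : ℤ → R) *ᵥ y

/-- The vectors `x * M e`. -/
def rvv {R : Type*} [CommRing R] (M : Fin k → Matrix (Fin N1) (Fin N2) ℤ) (x : Fin N1 → R)
    (e : Fin k) : Fin N2 → R := x ᵥ* (M e).map (Int.cast : ℤ → R)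

/-- The equations. -/
def IncB {R : Type*} [CommRing R] (M : Fin k → Matrix (Fin N1) (Fin N2) ℤ) (x : Fin N1 → R)
    (y : Fin N2 → R) : Prop := ∀ e, x ⬝ᵥ cvv M y e = 0

/-- The variety is a smooth complete intersection, for the points over `K`. -/
def SmB (K : Type) [Field K] (M : Fin k → Matrix (Fin N1) (Fin N2) ℤ) : Prop :=
  ∀ (s : Fin k → K) (x : Fin N1 → K) (y : Fin N2 → K), s ≠ 0 → x ≠ 0 → y ≠ 0 → IncB M x y →
    ∑ e, s e • cvv M y e = 0 → ∑ e, s e • rvv M x e = 0 → False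

/-- The transposed system. -/
def trB (M : Fin k → Matrix (Fin N1) (Fin N2) ℤ) : Fin k → Matrix (Fin N2) (Fin N1) ℤ :=
  fun e => (M e)ᵀ

/-- The rank of the vectors `M e * y`. -/
noncomputable def rky (M : Fin k → Matrix (Fin N1) (Fin N2) ℤ) (y : Fin N2 → ℤ) : ℕ :=
  (Matrix.of fun (e : Fin k) (i : Fin N1) => ((cvv M y e i : ℤ) : ℚ)).rank

open Classical in
/-- The bound for the number of the pairs with a bad `y`. -/
def BDok (M : Fin k → Matrix (Fin N1) (Fin N2) ℤ) : Prop := ∃ C : ℝ, 0 ≤ C ∧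
  ∀ X ρ : ℕ, 1 ≤ X → 1 ≤ ρ →
    ((((bx N1 X ×ˢ bx N2 ρ).filter fun t => ¬ LinearIndependent ℤ (cvv M t.2) ∧
      IncB M t.1 t.2).card : ℕ) : ℝ) ≤
      C * ((X : ℝ) ^ N1 + ∑ j ∈ range k, (X : ℝ) ^ (N1 - j) * ((ρ : ℝ) ^ (j + N2) / (ρ : ℝ) ^ N1))

end

/-! ### Modules -/

/-- Module GP: all primes with finitely many exceptions are good. -/
def StmtGP : Prop := ∀ (σ ι : Type) [Fintype σ] [Fintype ι] (f : ι → MvPolynomial σ ℤ)
  (g : MvPolynomial σ ℤ), (∀ z : σ → ℂ, (∀ i, evz (f i) z = 0) → evz g z = 0) →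
  ∃ D : ℕ, 1 ≤ D ∧ ∀ p : ℕ, p.Prime → ¬ p ∣ D → ∀ z : σ → ZMod p,
    (∀ i, evz (f i) z = 0) → evz g z = 0

/-- Module HC: the number of the solutions modulo the powers of a good prime. -/
def StmtHC : Prop := ∀ (k N1 N2 : ℕ) (M : Fin k → Matrix (Fin N1) (Fin N2) ℤ) (p : ℕ)
  [Fact p.Prime], SmB (ZMod p) M → ∃ C : ℕ, ∀ t : ℕ, 1 ≤ t →
    Nat.card {q : (Fin k → ZMod (p ^ t)) × (Fin N2 → ZMod (p ^ t)) //
      (∃ i, IsUnit (q.1 i)) ∧ (∃ j, IsUnit (q.2 j)) ∧ ∑ e, q.1 e • cvv M q.2 e = 0} *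
      p ^ (t * N1) ≤ C * p ^ (t * (k + N2))

open Classical in
/-- Module WJ: the number of the `y` for which the vectors `M e * y` have a small rank. -/
def StmtWJ : Prop := ∀ (k N1 N2 : ℕ) (M : Fin k → Matrix (Fin N1) (Fin N2) ℤ), SmB ℂ M →
  ∀ j : ℕ, j < k → ∃ C : ℝ, 0 ≤ C ∧ ∀ ρ : ℕ, 1 ≤ ρ →
    ((((bx N2 ρ).filter fun y => y ≠ 0 ∧ rky M y ≤ j).card : ℕ) : ℝ) * (ρ : ℝ) ^ N1 ≤
      C * (ρ : ℝ) ^ (j + N2)

/-- Module BD: the pairs with a bad `y`. -/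
def StmtBD : Prop := ∀ (k N1 N2 : ℕ) (M : Fin k → Matrix (Fin N1) (Fin N2) ℤ), k ≤ N1 → SmB ℂ M →
  BDok M

open Classical in
/-- Module BX: the number of the points in boxes. -/
def StmtBX : Prop := ∀ (k N1 N2 : ℕ) (M : Fin k → Matrix (Fin N1) (Fin N2) ℤ), 1 ≤ k →
  2 * k + 1 ≤ N1 → 2 * k + 1 ≤ N2 → BDok M → BDok (trB M) → ∀ ε : ℝ, 0 < ε →
  ∃ C : ℝ, 0 ≤ C ∧ ∀ X Y : ℕ, 1 ≤ X → 1 ≤ Y →
    ((((bx N1 X ×ˢ bx N2 Y).filter fun t => LinearIndependent ℤ (rvv M t.1) ∧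
      LinearIndependent ℤ (cvv M t.2) ∧ IncB M t.1 t.2).card : ℕ) : ℝ) ≤
      C * ((X : ℝ) ^ (N1 - k) * (Y : ℝ) ^ (N2 - k)) * ((X : ℝ) * Y) ^ ε

/-- Module MR: polynomials of type `(1, 1)` as matrices. -/
def StmtMR : Prop := ∀ (k : ℕ) (n : Fin 2 → ℕ) (F : Fin k → MvPolynomial (Σ i, Fin (n i)) ℤ),
  (∀ e, MultiDeg (F e) (fun _ => 1)) → ∃ M : Fin k → Matrix (Fin (n 0)) (Fin (n 1)) ℤ,
    ∀ (R : Type) [CommRing R] (x : ∀ i, Fin (n i) → R) (e : Fin k),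
      evz (F e) (fl x) = x 0 ⬝ᵥ cvv M (x 1) e ∧ cf F e 0 x = cvv M (x 1) e ∧
      cf F e 1 x = rvv M (x 0) e

/-- Module NE: the open set is not empty. -/
def StmtNE : Prop := ∀ (k N1 N2 : ℕ) (M : Fin k → Matrix (Fin N1) (Fin N2) ℤ), 1 ≤ k →
  2 * k + 1 ≤ N1 → 2 * k + 1 ≤ N2 → SmB ℂ M → ∃ (x : Fin N1 → ℂ) (y : Fin N2 → ℂ),
    IncB M x y ∧ LinearIndependent ℂ (rvv M x) ∧ LinearIndependent ℂ (cvv M y)

end Pool.Agent.T6.H81.BJ
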