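import Mathlib
import Pool.Agent.T6.H81.BJ.Defs
import Pool.Agent.T6.H81.BG.C3

/-!
Smooth complete intersections of divisors of type `(1, 1)` as fibred sets.
-/

set_option autoImplicit false

namespace Pool.Agent.T6.H81.BJ

open Finset Module Matrix
open Pool.Agent.H548.WM (ht bx mem_bx Rep)
open Pool.Agent.H548.BL (lat mem_lat)
open Pool.Agent.H548.TL (evz)
open Pool.Agent.T6.H5.TW (fl MultiDeg)
open Pool.Agent.T6.H81.BG (Pt Bx Zr cf FS)

/-! ### The transposed system -/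

section

variable {k N1 N2 : ℕ}

theorem cvv_tr {R : Type*} [CommRing R] (M : Fin k → Matrix (Fin N1) (Fin N2) ℤ)
    (x : Fin N1 → R) : cvv (trB M) x = rvv M x := by
  funext e
  unfold cvv rvv trB
  rw [transpose_map, mulVec_transpose]

theorem rvv_tr {R : Type*} [CommRing R] (M : Fin k → Matrix (Fin N1) (Fin N2) ℤ)
    (y : Fin N2 → R) : rvv (trB M) y = cvv M y := by
  funext e
  unfold cvv rvv trB
  rw [transpose_map, vecMul_transpose]

theorem inc_iff {R : Type*} [CommRing R] (M : Fin k → Matrix (Fin N1) (Fin N2) ℤ)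
    (x : Fin N1 → R) (y : Fin N2 → R) : IncB M x y ↔ ∀ e, rvv M x e ⬝ᵥ y = 0 := by
  unfold IncB rvv cvv
  simp only [dotProduct_mulVec]

theorem inc_tr {R : Type*} [CommRing R] (M : Fin k → Matrix (Fin N1) (Fin N2) ℤ)
    (x : Fin N1 → R) (y : Fin N2 → R) : IncB (trB M) y x ↔ IncB M x y := by
  rw [inc_iff, rvv_tr]
  unfold IncB
  simp only [dotProduct_comm]

theorem smB_tr {K : Type} [Field K] {M : Fin k → Matrix (Fin N1) (Fin N2) ℤ} (h : SmB K M) :
    SmB K (trB M) := by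
  intro s y x hs hy hx hi h1 h2
  rw [cvv_tr] at h1
  rw [rvv_tr] at h2
  exact h s x y hs hx hy ((inc_tr M x y).1 hi) h2 h1

end

namespace Fsb

variable {k : ℕ} {n : Fin 2 → ℕ}

/-- The matrices of the polynomials. -/
def MRep (F : Fin k → MvPolynomial (Σ i, Fin (n i)) ℤ)
    (M : Fin k → Matrix (Fin (n 0)) (Fin (n 1)) ℤ) : Prop :=
  ∀ (R : Type) [CommRing R] (x : ∀ i, Fin (n i) → R) (e : Fin k),
      evz (F e) (fl x) = x 0 ⬝ᵥ cvv M (x 1) e ∧ cf F e 0 x = cvv M (x 1) e ∧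
      cf F e 1 x = rvv M (x 0) e

/-- The points of the open set. -/
def PB (F : Fin k → MvPolynomial (Σ i, Fin (n i)) ℤ) (x : Pt n) : Prop :=
  Zr F x ∧ ∀ v, LinearIndependent ℤ (fun e => cf F e v x)

/-- The points over which there is a fibre. -/
def QB (F : Fin k → MvPolynomial (Σ i, Fin (n i)) ℤ) (v : Fin 2) (x : Pt n) : Prop :=
  LinearIndependent ℤ (fun e => cf F e v x)

theorem forall2 {p : Fin 2 → Prop} : (∀ v, p v) ↔ p 0 ∧ p 1 := by
  constructor
  · intro h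
    exact ⟨h 0, h 1⟩
  · rintro ⟨h0, h1⟩ v
    match v with
    | 0 => exact h0
    | 1 => exact h1

theorem ext2 {R : Type} {x y : ∀ i, Fin (n i) → R} (h0 : x 0 = y 0) (h1 : x 1 = y 1) : x = y := by
  funext v
  match v with
  | 0 => exact h0
  | 1 => exact h1

theorem cf_upd (F : Fin k → MvPolynomial (Σ i, Fin (n i)) ℤ) (e : Fin k) (v : Fin 2) (x : Pt n)
    (z : Fin (n v) → ℤ) : cf F e v (Function.update x v z) = cf F e v x := by
  unfold cf
  simp only [Function.update_idem]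

variable {F : Fin k → MvPolynomial (Σ i, Fin (n i)) ℤ}
    {M : Fin k → Matrix (Fin (n 0)) (Fin (n 1)) ℤ}

theorem zr_inc (h : MRep F M) {R : Type} [CommRing R] (x : ∀ i, Fin (n i) → R) :
    Zr F x ↔ IncB M (x 0) (x 1) := by
  unfold BG.Zr IncB
  refine forall_congr' fun e => ?_
  rw [(h R x e).1]

theorem cf0 (h : MRep F M) {R : Type} [CommRing R] (x : ∀ i, Fin (n i) → R) :
    (fun e => cf F e 0 x) = cvv M (x 1) := by
  funext e
  exact (h R x e).2.1

theorem cf1 (h : MRep F M) {R : Type} [CommRing R] (x : ∀ i, Fin (n i) → R) :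
    (fun e => cf F e 1 x) = rvv M (x 0) := by
  funext e
  exact (h R x e).2.2

theorem lat_iff (h : MRep F M) (v : Fin 2) (x : Pt n) :
    x v ∈ lat (fun e => cf F e v x) ↔ Zr F x := by
  rw [zr_inc h]
  match v with
  | 0 =>
    rw [cf0 h, mem_lat]
    unfold IncB
    simp only [dotProduct_comm]
  | 1 =>
    rw [cf1 h, mem_lat, inc_iff]

/-! ### Boxes as products -/

theorem card_Bx (X : Fin 2 → ℕ) (P : Pt n → Prop)
    (p : (Fin (n 0) → ℤ) × (Fin (n 1) → ℤ) → Prop) [DecidablePred p]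
    (h : ∀ x, P x → p (x 0, x 1)) : (Bx n X P).card ≤
      ((bx (n 0) (X 0) ×ˢ bx (n 1) (X 1)).filter p).card := by
  apply Finset.card_le_card_of_injOn (fun x => (x 0, x 1))
  · intro x hx
    rw [Finset.mem_coe, BG.C3.mem_Bx] at hx
    rw [Finset.mem_coe, mem_filter, mem_product, mem_bx, mem_bx]
    exact ⟨⟨hx.1 0, hx.1 1⟩, h x hx.2⟩
  · intro x _ y _ hxy
    simp only [Prod.mk.injEq] at hxy
    exact ext2 hxy.1 hxy.2

theorem card_Bx' (X : Fin 2 → ℕ) (P : Pt n → Prop)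
    (p : (Fin (n 1) → ℤ) × (Fin (n 0) → ℤ) → Prop) [DecidablePred p]
    (h : ∀ x, P x → p (x 1, x 0)) : (Bx n X P).card ≤
      ((bx (n 1) (X 1) ×ˢ bx (n 0) (X 0)).filter p).card := by
  apply Finset.card_le_card_of_injOn (fun x => (x 1, x 0))
  · intro x hx
    rw [Finset.mem_coe, BG.C3.mem_Bx] at hx
    rw [Finset.mem_coe, mem_filter, mem_product, mem_bx, mem_bx]
    exact ⟨⟨hx.1 1, hx.1 0⟩, h x hx.2⟩
  · intro x _ y _ hxy
    simp only [Prod.mk.injEq] at hxy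
    exact ext2 hxy.2 hxy.1

/-! ### The real inequality -/

theorem real_bad {N1 N2 : ℕ} (h1 : 2 * k + 1 ≤ N1) (h2 : 2 * k + 1 ≤ N2) {C X Y ρ ε : ℝ}
    (hC : 0 ≤ C) (hX : 1 ≤ X) (hρ : 1 ≤ ρ) (hρY : ρ ≤ Y) (hXY : X ≤ 2 * Y) (hε : 0 < ε) :
    C * (X ^ N1 + ∑ j ∈ range k, X ^ (N1 - j) * (ρ ^ (j + N2) / ρ ^ N1)) ≤
      C * (2 ^ k * (1 + k)) * X ^ (N1 - k) * Y ^ ((k : ℝ) + ε) * ρ ^ (N2 - k - k - 1) := by
  have hY : 1 ≤ Y := hρ.trans hρY
  have hY0 : 0 < Y := by linarith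
  have hX0 : 0 < X := by linarith
  have hρ0 : 0 < ρ := by linarith
  have e1 : Y ^ k ≤ Y ^ ((k : ℝ) + ε) := by
    rw [← Real.rpow_natCast Y k]
    exact Real.rpow_le_rpow_of_exponent_le hY (by linarith)
  obtain ⟨W, hW⟩ : ∃ W : ℝ, W = X ^ (N1 - k) * (2 ^ k * Y ^ k) * ρ ^ (N2 - k - k - 1) := ⟨_, rfl⟩
  have hρ1 : 1 ≤ ρ ^ (N2 - k - k - 1) := one_le_pow₀ hρ
  have t1 : X ^ N1 ≤ W := by
    have e2 : X ^ N1 = X ^ (N1 - k) * X ^ k := by
      rw [← pow_add]
      congr 1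
      omega
    rw [e2, hW]
    calc X ^ (N1 - k) * X ^ k ≤ X ^ (N1 - k) * (2 * Y) ^ k := by gcongr
      _ = X ^ (N1 - k) * (2 ^ k * Y ^ k) * 1 := by
        rw [mul_pow]
        ring
      _ ≤ _ := by gcongr
  have t2 : ∀ j ∈ range k, X ^ (N1 - j) * (ρ ^ (j + N2) / ρ ^ N1) ≤ W := by
    intro j hj
    rw [mem_range] at hj
    have e2 : X ^ (N1 - j) = X ^ (N1 - k) * X ^ (k - j) := by
      rw [← pow_add]
      congr 1
      omega
    have e3 : ρ ^ (j + N2) / ρ ^ N1 ≤ Y ^ j * ρ ^ (N2 - k - k - 1) := by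
      rw [div_le_iff₀ (by positivity)]
      calc ρ ^ (j + N2) = ρ ^ j * (ρ ^ (N2 - k - k - 1) * ρ ^ (2 * k + 1)) := by
            rw [← pow_add, ← pow_add]
            congr 1
            omega
        _ ≤ Y ^ j * (ρ ^ (N2 - k - k - 1) * ρ ^ N1) := by
            gcongr
        _ = _ := by ring
    have e4 : X ^ (k - j) ≤ 2 ^ k * Y ^ (k - j) := by
      calc X ^ (k - j) ≤ (2 * Y) ^ (k - j) := by gcongr
        _ = 2 ^ (k - j) * Y ^ (k - j) := mul_pow _ _ _
        _ ≤ 2 ^ k * Y ^ (k - j) := by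
            gcongr
            · norm_num
            · omega
    have e5 : Y ^ (k - j) * Y ^ j = Y ^ k := by
      rw [← pow_add]
      congr 1
      omega
    rw [e2, hW]
    calc X ^ (N1 - k) * X ^ (k - j) * (ρ ^ (j + N2) / ρ ^ N1) ≤
        X ^ (N1 - k) * (2 ^ k * Y ^ (k - j)) * (Y ^ j * ρ ^ (N2 - k - k - 1)) := by gcongr
      _ = X ^ (N1 - k) * (2 ^ k * (Y ^ (k - j) * Y ^ j)) * ρ ^ (N2 - k - k - 1) := by ring
      _ = _ := by rw [e5]
  have t3 : X ^ N1 + ∑ j ∈ range k, X ^ (N1 - j) * (ρ ^ (j + N2) / ρ ^ N1) ≤ (1 + k) * W := by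
    have := Finset.sum_le_card_nsmul (range k) _ W t2
    rw [card_range, nsmul_eq_mul] at this
    linarith
  have hW1 : W ≤ X ^ (N1 - k) * (2 ^ k * Y ^ ((k : ℝ) + ε)) * ρ ^ (N2 - k - k - 1) := by
    rw [hW]
    gcongr
  calc _ ≤ C * ((1 + k) * W) := by gcongr
    _ ≤ C * ((1 + k) * (X ^ (N1 - k) * (2 ^ k * Y ^ ((k : ℝ) + ε)) * ρ ^ (N2 - k - k - 1))) := by
        gcongr
    _ = _ := by ring

/-- **Smooth complete intersections of type `(1, 1)` are fibred.** -/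
theorem fsb (hBX : StmtBX) (hk : 1 ≤ k) (hn : ∀ v, 2 * k + 1 ≤ n v) (hM : MRep F M)
    (hb1 : BDok M) (hb2 : BDok (trB M)) :
    FS n (fun v => n v - k) (fun _ => k) (PB F) (QB F) (fun _ => Fin k)
      (fun v x e => cf F e v x) where
  card := fun v => by
    have := hn v
    show Fintype.card (Fin k) + (n v - k) = n v
    rw [Fintype.card_fin]
    omega
  r2 := fun v => by have := hn v; omega
  hD := fun v => by have := hn v; omega
  upd_Q := fun v x z => by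
    unfold QB
    simp only [cf_upd]
  upd_w := fun v x z => by
    funext e
    exact cf_upd F e v x z
  li := fun v x hx => hx
  fib := fun v x hx => ⟨hx.2 v, (lat_iff hM v x).2 hx.1⟩
  box := fun ε hε => by
    classical
    obtain ⟨C, hC, h⟩ := hBX k (n 0) (n 1) M hk (hn 0) (hn 1) hb1 hb2 ε hε
    refine ⟨C, hC, fun X hX => ?_⟩
    have h1 := h (X 0) (X 1) (hX 0) (hX 1)
    have h2 := card_Bx X (PB F) (fun t => LinearIndependent ℤ (rvv M t.1) ∧
      LinearIndependent ℤ (cvv M t.2) ∧ IncB M t.1 t.2) (by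
      rintro x ⟨a1, a2⟩
      refine ⟨?_, ?_, (zr_inc hM x).1 a1⟩
      · have := a2 1
        rwa [cf1 hM] at this
      · have := a2 0
        rwa [cf0 hM] at this)
    rw [Fin.prod_univ_two, Fin.prod_univ_two]
    refine le_trans ?_ h1
    have h3 : ((Bx n X (PB F)).card : ℝ) ≤ ((((bx (n 0) (X 0) ×ˢ bx (n 1) (X 1)).filter fun t =>
      LinearIndependent ℤ (rvv M t.1) ∧ LinearIndependent ℤ (cvv M t.2) ∧
        IncB M t.1 t.2).card : ℕ) : ℝ) := by exact_mod_cast h2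
    refine h3.trans (le_of_eq ?_)
    congr
  bad := fun v ε hε => by
    classical
    match v with
    | 1 =>
      obtain ⟨C, hC, h⟩ := hb1
      refine ⟨C * (2 ^ k * (1 + k)), by positivity, fun X hX hXv ρ hρ hρX => ?_⟩
      have h1 := h (X 0) ρ (hX 0) hρ
      have h2 := card_Bx (Function.update X 1 ρ) (fun x => QB F 1 x ∧
        x 1 ∈ lat (fun e => cf F e 1 x) ∧ ¬ PB F x) (fun t =>
        ¬ LinearIndependent ℤ (cvv M t.2) ∧ IncB M t.1 t.2) (by
        rintro x ⟨a1, a2, a3⟩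
        rw [lat_iff hM] at a2
        refine ⟨fun h4 => a3 ⟨a2, forall2.2 ⟨?_, a1⟩⟩, (zr_inc hM x).1 a2⟩
        rw [cf0 hM]
        exact h4)
      have e0 : Function.update X 1 ρ 0 = X 0 := Function.update_of_ne (by decide) _ _
      rw [e0, Function.update_self] at h2
      have h5 : ∏ u ∈ univ.erase (1 : Fin 2), (X u : ℝ) ^ (n u - k) = (X 0 : ℝ) ^ (n 0 - k) := by
        rw [show univ.erase (1 : Fin 2) = {0} from by decide, Finset.prod_singleton]
      have h6 := real_bad (k := k) (N1 := n 0) (N2 := n 1) (hn 0) (hn 1) (C := C) (X := X 0)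
        (Y := X 1) (ρ := ρ) (ε := ε) hC (by exact_mod_cast hX 0) (by exact_mod_cast hρ)
        (by exact_mod_cast hρX) (by exact_mod_cast hXv 0) hε
      rw [h5]
      refine le_trans ?_ h6
      refine le_trans ?_ h1
      have h3 : ((Bx n (Function.update X 1 ρ) fun x => QB F 1 x ∧
        x 1 ∈ lat (fun e => cf F e 1 x) ∧ ¬ PB F x).card : ℝ) ≤
        ((((bx (n 0) (X 0) ×ˢ bx (n 1) ρ).filter fun t =>
        ¬ LinearIndependent ℤ (cvv M t.2) ∧ IncB M t.1 t.2).card : ℕ) : ℝ) := by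
        exact_mod_cast h2
      refine h3.trans (le_of_eq ?_)
      congr
    | 0 =>
      obtain ⟨C, hC, h⟩ := hb2
      refine ⟨C * (2 ^ k * (1 + k)), by positivity, fun X hX hXv ρ hρ hρX => ?_⟩
      have h1 := h (X 1) ρ (hX 1) hρ
      have h2 := card_Bx' (Function.update X 0 ρ) (fun x => QB F 0 x ∧
        x 0 ∈ lat (fun e => cf F e 0 x) ∧ ¬ PB F x) (fun t =>
        ¬ LinearIndependent ℤ (cvv (trB M) t.2) ∧ IncB (trB M) t.1 t.2) (by
        rintro x ⟨a1, a2, a3⟩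
        rw [lat_iff hM] at a2
        refine ⟨fun h4 => a3 ⟨a2, forall2.2 ⟨a1, ?_⟩⟩, (inc_tr M _ _).2 ((zr_inc hM x).1 a2)⟩
        rw [cf1 hM, ← cvv_tr]
        exact h4)
      have e0 : Function.update X 0 ρ 1 = X 1 := Function.update_of_ne (by decide) _ _
      rw [e0, Function.update_self] at h2
      have h5 : ∏ u ∈ univ.erase (0 : Fin 2), (X u : ℝ) ^ (n u - k) = (X 1 : ℝ) ^ (n 1 - k) := by
        rw [show univ.erase (0 : Fin 2) = {1} from by decide, Finset.prod_singleton]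
      have h6 := real_bad (k := k) (N1 := n 1) (N2 := n 0) (hn 1) (hn 0) (C := C) (X := X 1)
        (Y := X 0) (ρ := ρ) (ε := ε) hC (by exact_mod_cast hX 1) (by exact_mod_cast hρ)
        (by exact_mod_cast hρX) (by exact_mod_cast hXv 1) hε
      rw [h5]
      refine le_trans ?_ h6
      refine le_trans ?_ h1
      have h3 : ((Bx n (Function.update X 0 ρ) fun x => QB F 0 x ∧
        x 0 ∈ lat (fun e => cf F e 0 x) ∧ ¬ PB F x).card : ℝ) ≤
        ((((bx (n 1) (X 1) ×ˢ bx (n 0) ρ).filter fun t =>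
        ¬ LinearIndependent ℤ (cvv (trB M) t.2) ∧ IncB (trB M) t.1 t.2).card : ℕ) : ℝ) := by
        exact_mod_cast h2
      refine h3.trans (le_of_eq ?_)
      congr

end Fsb

end Pool.Agent.T6.H81.BJ
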