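import Mathlib
import Pool.Agent.T6.H81.BJ.Fsb

/-!
The number of the points in boxes.
-/

set_option autoImplicit false

namespace Pool.Agent.T6.H81.BJ

open Finset Module Matrix
open Pool.Agent.H548.WM (ht bx mem_bx Rep card_bx_le)
open Pool.Agent.H548.BL (lat mem_lat lat_doubling lat_card)

namespace ModBX

theorem trB_trB {k N1 N2 : ℕ} (M : Fin k → Matrix (Fin N1) (Fin N2) ℤ) : trB (trB M) = M := by
  funext e
  unfold trB
  rw [transpose_transpose]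

open Classical in
/-- The number of the points in a box. -/
noncomputable def RX {k N1 N2 : ℕ} (M : Fin k → Matrix (Fin N1) (Fin N2) ℤ) (X Y : ℕ) : ℕ :=
  ((bx N1 X ×ˢ bx N2 Y).filter fun t => LinearIndependent ℤ (rvv M t.1) ∧
    LinearIndependent ℤ (cvv M t.2) ∧ IncB M t.1 t.2).card

theorem RX_tr {k N1 N2 : ℕ} (M : Fin k → Matrix (Fin N1) (Fin N2) ℤ) (X Y : ℕ) :
    RX (trB M) Y X = RX M X Y := by
  classical
  unfold RX
  apply Finset.card_bij (fun t _ => (t.2, t.1))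
  · rintro ⟨a, b⟩ h
    rw [mem_filter, mem_product] at h ⊢
    obtain ⟨⟨h1, h2⟩, h3, h4, h5⟩ := h
    rw [rvv_tr] at h3
    rw [cvv_tr] at h4
    exact ⟨⟨h2, h1⟩, h4, h3, (inc_tr M _ _).1 h5⟩
  · rintro ⟨a, b⟩ _ ⟨a', b'⟩ _ h
    simp only [Prod.mk.injEq] at h
    rw [h.1, h.2]
  · rintro ⟨a, b⟩ h
    refine ⟨(b, a), ?_, rfl⟩
    rw [mem_filter, mem_product] at h ⊢
    obtain ⟨⟨h1, h2⟩, h3, h4, h5⟩ := h
    refine ⟨⟨h2, h1⟩, ?_, ?_, (inc_tr M _ _).2 h5⟩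
    · rw [rvv_tr]
      exact h4
    · rw [cvv_tr]
      exact h3

theorem card_prod {α β : Type*} (s : Finset α) (t : Finset β) (p : α × β → Prop)
    [DecidablePred p] : ((s ×ˢ t).filter p).card = ∑ a ∈ s, (t.filter fun b => p (a, b)).card := by
  rw [Finset.card_filter, Finset.sum_product]
  refine Finset.sum_congr rfl fun a _ => ?_
  rw [Finset.card_filter]

theorem mem_lat_inc {k N1 N2 : ℕ} (M : Fin k → Matrix (Fin N1) (Fin N2) ℤ) (x : Fin N1 → ℤ)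
    (y : Fin N2 → ℤ) : y ∈ lat (rvv M x) ↔ IncB M x y := by
  rw [mem_lat, inc_iff]

open Classical in
/-- Scaling in the second variable. -/
theorem st {k N1 N2 : ℕ} {M : Fin k → Matrix (Fin N1) (Fin N2) ℤ} {C : ℝ}
    (hb : ∀ X ρ : ℕ, 1 ≤ X → 1 ≤ ρ →
    ((((bx N1 X ×ˢ bx N2 ρ).filter fun t => ¬ LinearIndependent ℤ (cvv M t.2) ∧
      IncB M t.1 t.2).card : ℕ) : ℝ) ≤
      C * ((X : ℝ) ^ N1 + ∑ j ∈ range k, (X : ℝ) ^ (N1 - j) *
        ((ρ : ℝ) ^ (j + N2) / (ρ : ℝ) ^ N1)))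
    (X Y ρ : ℕ) (hX : 1 ≤ X) (hρ : 1 ≤ ρ) (hρY : ρ ≤ Y) :
    (RX M X Y : ℝ) ≤ (3 * (Y : ℝ) / ρ) ^ (N2 - k) * (RX M X ρ + C * ((X : ℝ) ^ N1 +
      ∑ j ∈ range k, (X : ℝ) ^ (N1 - j) * ((ρ : ℝ) ^ (j + N2) / (ρ : ℝ) ^ N1))) := by
  obtain ⟨s, hs⟩ : ∃ s : Finset (Fin N1 → ℤ), s = (bx N1 X).filter fun x =>
    LinearIndependent ℤ (rvv M x) := ⟨_, rfl⟩
  have h1 : RX M X Y ≤ ∑ x ∈ s, ((bx N2 Y).filter (· ∈ lat (rvv M x))).card := by
    unfold RX
    rw [card_prod]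
    rw [hs, Finset.sum_filter]
    refine Finset.sum_le_sum fun x _ => ?_
    by_cases hx : LinearIndependent ℤ (rvv M x)
    · rw [if_pos hx]
      apply card_le_card
      intro y hy
      rw [mem_filter] at hy ⊢
      exact ⟨hy.1, (mem_lat_inc M x y).2 hy.2.2.2⟩
    · rw [if_neg hx]
      have : ((bx N2 Y).filter fun b => LinearIndependent ℤ (rvv M (x, b).1) ∧
          LinearIndependent ℤ (cvv M (x, b).2) ∧ IncB M (x, b).1 (x, b).2) = ∅ := by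
        rw [Finset.filter_eq_empty_iff]
        rintro y - ⟨h, -⟩
        exact hx h
      rw [this, card_empty]
  have h2 : ∑ x ∈ s, ((bx N2 ρ).filter (· ∈ lat (rvv M x))).card ≤ RX M X ρ +
      ((bx N1 X ×ˢ bx N2 ρ).filter fun t => ¬ LinearIndependent ℤ (cvv M t.2) ∧
      IncB M t.1 t.2).card := by
    unfold RX
    rw [card_prod, card_prod, ← Finset.sum_add_distrib]
    rw [hs, Finset.sum_filter]
    refine Finset.sum_le_sum fun x _ => ?_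
    by_cases hx : LinearIndependent ℤ (rvv M x)
    · rw [if_pos hx]
      refine le_trans (card_le_card ?_) (card_union_le _ _)
      intro y hy
      rw [mem_filter] at hy
      rw [mem_union, mem_filter, mem_filter]
      have h3 := (mem_lat_inc M x y).1 hy.2
      by_cases hy' : LinearIndependent ℤ (cvv M y)
      · exact Or.inl ⟨hy.1, hx, hy', h3⟩
      · exact Or.inr ⟨hy.1, hy', h3⟩
    · rw [if_neg hx]
      exact Nat.zero_le _
  have h3 : (RX M X Y : ℝ) ≤ ∑ x ∈ s, (((bx N2 Y).filter (· ∈ lat (rvv M x))).card : ℝ) := by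
    exact_mod_cast h1
  refine h3.trans ?_
  have h4 : ∑ x ∈ s, (((bx N2 Y).filter (· ∈ lat (rvv M x))).card : ℝ) ≤
      (3 * (Y : ℝ) / ρ) ^ (N2 - k) * ∑ x ∈ s, (((bx N2 ρ).filter (· ∈ lat (rvv M x))).card : ℝ) := by
    rw [Finset.mul_sum]
    refine Finset.sum_le_sum fun x hx => ?_
    rw [hs, mem_filter] at hx
    have h5 := lat_doubling hx.2 Y ρ hρ hρY
    rw [Fintype.card_fin] at h5
    exact h5
  refine h4.trans ?_
  have hρ0 : (0 : ℝ) < ρ := by exact_mod_cast hρ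
  apply mul_le_mul_of_nonneg_left _ (by positivity)
  have h6 := hb X ρ hX hρ
  have h7 : ∑ x ∈ s, (((bx N2 ρ).filter (· ∈ lat (rvv M x))).card : ℝ) ≤ (RX M X ρ : ℝ) +
      ((((bx N1 X ×ˢ bx N2 ρ).filter fun t => ¬ LinearIndependent ℤ (cvv M t.2) ∧
      IncB M t.1 t.2).card : ℕ) : ℝ) := by exact_mod_cast h2
  linarith

/-- The error is small if the second side is not too small. -/
theorem real_err {k N1 N2 : ℕ} (h1 : 2 * k + 1 ≤ N1) (h2 : 2 * k + 1 ≤ N2) {X ρ : ℝ}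
    (hX : 1 ≤ X) (hρ : 1 ≤ ρ) (hρX : ρ ≤ X) (h : X ^ k ≤ ρ ^ (k + 1)) :
    X ^ N1 + ∑ j ∈ range k, X ^ (N1 - j) * (ρ ^ (j + N2) / ρ ^ N1) ≤
      (1 + k) * (X ^ (N1 - k) * ρ ^ (N2 - k)) := by
  have hX0 : 0 < X := by linarith
  have hρ0 : 0 < ρ := by linarith
  have t1 : X ^ N1 ≤ X ^ (N1 - k) * ρ ^ (N2 - k) := by
    have e2 : X ^ N1 = X ^ (N1 - k) * X ^ k := by
      rw [← pow_add]
      congr 1
      omega
    rw [e2]
    have : ρ ^ (k + 1) ≤ ρ ^ (N2 - k) := pow_le_pow_right₀ hρ (by omega)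
    gcongr
    exact h.trans this
  have t2 : ∀ j ∈ range k, X ^ (N1 - j) * (ρ ^ (j + N2) / ρ ^ N1) ≤
      X ^ (N1 - k) * ρ ^ (N2 - k) := by
    intro j hj
    rw [mem_range] at hj
    have e2 : X ^ (N1 - j) = X ^ (N1 - k) * X ^ (k - j) := by
      rw [← pow_add]
      congr 1
      omega
    have e3 : X ^ (k - j) ≤ ρ ^ (k + 1 - j) := by
      have f1 : X ^ (k - j) * X ^ j = X ^ k := by
        rw [← pow_add]
        congr 1
        omega
      have f2 : ρ ^ (k + 1 - j) * ρ ^ j = ρ ^ (k + 1) := by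
        rw [← pow_add]
        congr 1
        omega
      have f3 : X ^ (k - j) * X ^ j ≤ ρ ^ (k + 1 - j) * X ^ j := by
        rw [f1]
        refine h.trans ?_
        rw [← f2]
        gcongr
      exact le_of_mul_le_mul_right f3 (by positivity)
    rw [e2, mul_assoc]
    apply mul_le_mul_of_nonneg_left _ (by positivity)
    rw [← mul_div_assoc, div_le_iff₀ (by positivity)]
    calc X ^ (k - j) * ρ ^ (j + N2) ≤ ρ ^ (k + 1 - j) * ρ ^ (j + N2) := by gcongr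
      _ = ρ ^ (N2 - k) * ρ ^ (2 * k + 1) := by
        rw [← pow_add, ← pow_add]
        congr 1
        omega
      _ ≤ ρ ^ (N2 - k) * ρ ^ N1 := by gcongr
  have := Finset.sum_le_card_nsmul (range k) _ _ t2
  rw [card_range, nsmul_eq_mul] at this
  linarith

theorem ceil_pow {Z : ℕ} (hZ : 1 ≤ Z) {a : ℝ} (ha : 0 ≤ a) (ha1 : a ≤ 1) :
    1 ≤ ⌈(Z : ℝ) ^ a⌉₊ ∧ (Z : ℝ) ^ a ≤ (⌈(Z : ℝ) ^ a⌉₊ : ℝ) ∧
    (⌈(Z : ℝ) ^ a⌉₊ : ℝ) ≤ 2 * (Z : ℝ) ^ a ∧ ⌈(Z : ℝ) ^ a⌉₊ ≤ Z := by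
  have hZ1 : (1 : ℝ) ≤ Z := by exact_mod_cast hZ
  have h1 : (1 : ℝ) ≤ (Z : ℝ) ^ a := Real.one_le_rpow hZ1 ha
  refine ⟨?_, Nat.le_ceil _, ?_, ?_⟩
  · rw [Nat.one_le_ceil_iff]
    linarith
  · have := Nat.ceil_lt_add_one (by linarith : (0 : ℝ) ≤ (Z : ℝ) ^ a)
    linarith
  · apply Nat.ceil_le.2
    calc (Z : ℝ) ^ a ≤ (Z : ℝ) ^ (1 : ℝ) := Real.rpow_le_rpow_of_exponent_le hZ1 ha1
      _ = Z := Real.rpow_one _

/-- The exponent. -/
noncomputable def be (k : ℕ) : ℝ := (k : ℝ) / (k + 1)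

theorem half : ∀ (J k N1 N2 : ℕ) (M : Fin k → Matrix (Fin N1) (Fin N2) ℤ),
    2 * k + 1 ≤ N1 → 2 * k + 1 ≤ N2 → BDok M → BDok (trB M) → ∃ C : ℝ, 0 ≤ C ∧
    ∀ X Y : ℕ, 1 ≤ X → X ≤ Y → (RX M X Y : ℝ) ≤
      C * ((X : ℝ) ^ (N1 - k) * (Y : ℝ) ^ (N2 - k)) * (X : ℝ) ^ ((k : ℝ) * be k ^ J) := by
  classical
  intro J
  induction J with
  | zero =>
    intro k N1 N2 M h1 h2 _ _
    refine ⟨3 ^ N1 * (3 ^ N2 * 3 ^ (N2 - k)), by positivity, fun X Y hX hXY => ?_⟩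
    have hY : 1 ≤ Y := hX.trans hXY
    have hX1 : (1 : ℝ) ≤ X := by exact_mod_cast hX
    have e1 : RX M X Y ≤ ∑ x ∈ (bx N1 X).filter (fun x => LinearIndependent ℤ (rvv M x)),
        ((bx N2 Y).filter (· ∈ lat (rvv M x))).card := by
      unfold RX
      rw [card_prod, Finset.sum_filter]
      refine Finset.sum_le_sum fun x _ => ?_
      by_cases hx : LinearIndependent ℤ (rvv M x)
      · rw [if_pos hx]
        apply card_le_card
        intro y hy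
        rw [mem_filter] at hy ⊢
        exact ⟨hy.1, (mem_lat_inc M x y).2 hy.2.2.2⟩
      · rw [if_neg hx]
        have : ((bx N2 Y).filter fun b => LinearIndependent ℤ (rvv M (x, b).1) ∧
            LinearIndependent ℤ (cvv M (x, b).2) ∧ IncB M (x, b).1 (x, b).2) = ∅ := by
          rw [Finset.filter_eq_empty_iff]
          rintro y - ⟨h, -⟩
          exact hx h
        rw [this, card_empty]
    have e2 : (RX M X Y : ℝ) ≤ ∑ x ∈ (bx N1 X).filter (fun x => LinearIndependent ℤ (rvv M x)),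
        (((bx N2 Y).filter (· ∈ lat (rvv M x))).card : ℝ) := by exact_mod_cast e1
    have e3 : ∑ x ∈ (bx N1 X).filter (fun x => LinearIndependent ℤ (rvv M x)),
        (((bx N2 Y).filter (· ∈ lat (rvv M x))).card : ℝ) ≤
        ∑ x ∈ (bx N1 X).filter (fun x => LinearIndependent ℤ (rvv M x)),
        (3 ^ N2 * (3 * (Y : ℝ)) ^ (N2 - k)) := by
      refine Finset.sum_le_sum fun x hx => ?_
      rw [mem_filter] at hx
      have := lat_card hx.2 Y hY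
      rwa [Fintype.card_fin] at this
    have e4 : ∑ x ∈ (bx N1 X).filter (fun x => LinearIndependent ℤ (rvv M x)),
        (3 ^ N2 * (3 * (Y : ℝ)) ^ (N2 - k)) ≤
        (3 * (X : ℝ)) ^ N1 * (3 ^ N2 * (3 * (Y : ℝ)) ^ (N2 - k)) := by
      rw [Finset.sum_const, nsmul_eq_mul]
      apply mul_le_mul_of_nonneg_right _ (by positivity)
      have f1 : ((((bx N1 X).filter (fun x => LinearIndependent ℤ (rvv M x))).card : ℕ) : ℝ) ≤
          ((bx N1 X).card : ℝ) := by exact_mod_cast card_filter_le _ _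
      exact f1.trans (card_bx_le _ hX)
    refine (e2.trans (e3.trans e4)).trans (le_of_eq ?_)
    have e5 : (X : ℝ) ^ ((k : ℝ) * be k ^ 0) = (X : ℝ) ^ k := by
      rw [pow_zero, mul_one, Real.rpow_natCast]
    have e6 : (X : ℝ) ^ N1 = (X : ℝ) ^ (N1 - k) * (X : ℝ) ^ k := by
      rw [← pow_add]
      congr 1
      omega
    rw [e5, mul_pow, mul_pow, e6]
    ring
  | succ J ih =>
    intro k N1 N2 M h1 h2 hb1 hb2
    have hbe0 : 0 ≤ be k := by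
      unfold be
      positivity
    have hbe1 : be k ≤ 1 := by
      unfold be
      rw [div_le_one (by positivity)]
      linarith
    obtain ⟨C1, hC1, hih⟩ := ih k N2 N1 (trB M) h2 h1 hb2 (by rw [trB_trB]; exact hb1)
    obtain ⟨C, hC, hb⟩ := hb1
    refine ⟨3 ^ (N2 - k) * (C1 * 2 ^ k + C * (1 + k)), by positivity, fun X Y hX hXY => ?_⟩
    have hX1 : (1 : ℝ) ≤ X := by exact_mod_cast hX
    have hX0 : (0 : ℝ) < X := by linarith
    obtain ⟨c1, c2, c3, c4⟩ := ceil_pow hX hbe0 hbe1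
    obtain ⟨ρ, hρ⟩ : ∃ ρ : ℕ, ρ = ⌈(X : ℝ) ^ be k⌉₊ := ⟨_, rfl⟩
    rw [← hρ] at c1 c2 c3 c4
    have hρ0 : (0 : ℝ) < ρ := by exact_mod_cast c1
    have hρ1 : (1 : ℝ) ≤ ρ := by exact_mod_cast c1
    have hs := st hb X Y ρ hX c1 (c4.trans hXY)
    have hpk : (X : ℝ) ^ k ≤ (ρ : ℝ) ^ (k + 1) := by
      have f1 : ((X : ℝ) ^ be k) ^ (k + 1) = (X : ℝ) ^ k := by
        rw [← Real.rpow_natCast, ← Real.rpow_mul hX0.le, ← Real.rpow_natCast]
        congr 1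
        unfold be
        push_cast
        field_simp
      rw [← f1]
      gcongr
    have he := real_err h1 h2 hX1 hρ1 (by exact_mod_cast c4 : (ρ : ℝ) ≤ X) hpk
    have hR : (RX M X ρ : ℝ) ≤ C1 * ((ρ : ℝ) ^ (N2 - k) * (X : ℝ) ^ (N1 - k)) *
        (2 ^ k * (X : ℝ) ^ ((k : ℝ) * be k ^ (J + 1))) := by
      rw [← RX_tr]
      refine (hih ρ X c1 c4).trans ?_
      have g1 : (0 : ℝ) ≤ (k : ℝ) * be k ^ J := by positivity
      have g2 : (ρ : ℝ) ^ ((k : ℝ) * be k ^ J) ≤ 2 ^ k * (X : ℝ) ^ ((k : ℝ) * be k ^ (J + 1)) := by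
        calc (ρ : ℝ) ^ ((k : ℝ) * be k ^ J) ≤ (2 * (X : ℝ) ^ be k) ^ ((k : ℝ) * be k ^ J) :=
              Real.rpow_le_rpow hρ0.le c3 g1
          _ = 2 ^ ((k : ℝ) * be k ^ J) * ((X : ℝ) ^ be k) ^ ((k : ℝ) * be k ^ J) :=
              Real.mul_rpow (by norm_num) (by positivity)
          _ ≤ 2 ^ (k : ℝ) * (X : ℝ) ^ ((k : ℝ) * be k ^ (J + 1)) := by
              have g3 : (2 : ℝ) ^ ((k : ℝ) * be k ^ J) ≤ 2 ^ (k : ℝ) := by
                apply Real.rpow_le_rpow_of_exponent_le (by norm_num)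
                have : be k ^ J ≤ 1 := pow_le_one₀ hbe0 hbe1
                have hk0 : (0 : ℝ) ≤ k := Nat.cast_nonneg _
                nlinarith
              have g4 : ((X : ℝ) ^ be k) ^ ((k : ℝ) * be k ^ J) =
                  (X : ℝ) ^ ((k : ℝ) * be k ^ (J + 1)) := by
                rw [← Real.rpow_mul hX0.le]
                congr 1
                ring
              rw [g4]
              gcongr
          _ = _ := by rw [Real.rpow_natCast]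
      gcongr
    obtain ⟨Z, hZ⟩ : ∃ Z : ℝ, Z = (X : ℝ) ^ ((k : ℝ) * be k ^ (J + 1)) := ⟨_, rfl⟩
    have hZ1 : 1 ≤ Z := by
      rw [hZ]
      exact Real.one_le_rpow hX1 (by positivity)
    rw [← hZ] at hR ⊢
    have hsum : (RX M X ρ : ℝ) + C * ((X : ℝ) ^ N1 +
        ∑ j ∈ range k, (X : ℝ) ^ (N1 - j) * ((ρ : ℝ) ^ (j + N2) / (ρ : ℝ) ^ N1)) ≤
        (C1 * 2 ^ k + C * (1 + k)) * ((X : ℝ) ^ (N1 - k) * (ρ : ℝ) ^ (N2 - k)) * Z := by
      have g5 : C * ((X : ℝ) ^ N1 +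
        ∑ j ∈ range k, (X : ℝ) ^ (N1 - j) * ((ρ : ℝ) ^ (j + N2) / (ρ : ℝ) ^ N1)) ≤
        C * ((1 + k) * ((X : ℝ) ^ (N1 - k) * (ρ : ℝ) ^ (N2 - k))) * Z := by
        calc _ ≤ C * ((1 + k) * ((X : ℝ) ^ (N1 - k) * (ρ : ℝ) ^ (N2 - k))) := by gcongr
          _ ≤ _ := le_mul_of_one_le_right (by positivity) hZ1
      calc _ ≤ C1 * ((ρ : ℝ) ^ (N2 - k) * (X : ℝ) ^ (N1 - k)) * (2 ^ k * Z) +
          C * ((1 + k) * ((X : ℝ) ^ (N1 - k) * (ρ : ℝ) ^ (N2 - k))) * Z := add_le_add hR g5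
        _ = _ := by ring
    refine hs.trans ?_
    calc (3 * (Y : ℝ) / ρ) ^ (N2 - k) * _ ≤ (3 * (Y : ℝ) / ρ) ^ (N2 - k) *
        ((C1 * 2 ^ k + C * (1 + k)) * ((X : ℝ) ^ (N1 - k) * (ρ : ℝ) ^ (N2 - k)) * Z) := by gcongr
      _ = _ := by
        rw [div_pow, mul_pow]
        field_simp

end ModBX

open ModBX in
theorem bX : StmtBX := by
  classical
  intro k N1 N2 M hk h1 h2 hb1 hb2 ε hε
  have hk0 : (0 : ℝ) < k := by exact_mod_cast hk
  have hbe0 : 0 ≤ be k := by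
    unfold be
    positivity
  have hbe1 : be k < 1 := by
    unfold be
    rw [div_lt_one (by positivity)]
    linarith
  obtain ⟨J, hJ⟩ := exists_pow_lt_of_lt_one (show (0 : ℝ) < ε / k by positivity) hbe1
  have hJ' : (k : ℝ) * be k ^ J ≤ ε := by
    rw [lt_div_iff₀ hk0] at hJ
    linarith
  obtain ⟨C1, hC1, hh1⟩ := half J k N1 N2 M h1 h2 hb1 hb2
  obtain ⟨C2, hC2, hh2⟩ := half J k N2 N1 (trB M) h2 h1 hb2 (by rw [trB_trB]; exact hb1)
  refine ⟨max C1 C2, le_max_of_le_left hC1, fun X Y hX hY => ?_⟩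
  have hX1 : (1 : ℝ) ≤ X := by exact_mod_cast hX
  have hY1 : (1 : ℝ) ≤ Y := by exact_mod_cast hY
  show (RX M X Y : ℝ) ≤ _
  rcases le_total X Y with hXY | hXY
  · refine (hh1 X Y hX hXY).trans ?_
    have e1 : (X : ℝ) ^ ((k : ℝ) * be k ^ J) ≤ ((X : ℝ) * Y) ^ ε := by
      calc (X : ℝ) ^ ((k : ℝ) * be k ^ J) ≤ (X : ℝ) ^ ε :=
            Real.rpow_le_rpow_of_exponent_le hX1 hJ'
        _ ≤ _ := Real.rpow_le_rpow (by positivity) (le_mul_of_one_le_right (by positivity) hY1)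
            hε.le
    gcongr
    exact le_max_left _ _
  · rw [← RX_tr]
    refine (hh2 Y X hY hXY).trans ?_
    have e1 : (Y : ℝ) ^ ((k : ℝ) * be k ^ J) ≤ ((X : ℝ) * Y) ^ ε := by
      calc (Y : ℝ) ^ ((k : ℝ) * be k ^ J) ≤ (Y : ℝ) ^ ε :=
            Real.rpow_le_rpow_of_exponent_le hY1 hJ'
        _ ≤ _ := Real.rpow_le_rpow (by positivity) (le_mul_of_one_le_left (by positivity) hX1)
            hε.le
    rw [mul_comm ((Y : ℝ) ^ (N2 - k))]
    gcongr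
    exact le_max_right _ _

end Pool.Agent.T6.H81.BJ
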