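import Mathlib
import Pool.Agent.T6.H81.BJ.Fsb
import Pool.Agent.T6.H81.BG.Fin3

/-!
Smooth complete intersections of divisors of type `(1, 1)`: the asymptotic formula.
-/

set_option autoImplicit false

namespace Pool.Agent.T6.H81.BJ

open Finset Module Matrix Filter Topology
open Pool.Agent.H548.WM (ht bx mem_bx Rep ht_pos)
open Pool.Agent.H548.BL (lat mem_lat rep_ne)
open Pool.Agent.H548.TL (evz evz_map evz_int)
open Pool.Agent.T6.H5.TW (fl MultiDeg)
open Pool.Agent.T6.H81.BG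

namespace Fin7

open Fsb

variable {k : ℕ} {n : Fin 2 → ℕ}

/-- The point with the given blocks. -/
def mk2 {R : Type} (a : Fin (n 0) → R) (b : Fin (n 1) → R) : ∀ v, Fin (n v) → R := fun v =>
  match v with
  | 0 => a
  | 1 => b

/-- From the Jacobian criterion to the matrices. -/
theorem smooth {F : Fin k → MvPolynomial (Σ i, Fin (n i)) ℤ}
    {M : Fin k → Matrix (Fin (n 0)) (Fin (n 1)) ℤ} (hM : MRep F M)
    (hsm : ∀ z : ∀ v, Fin (n v) → ℂ, (∀ v, z v ≠ 0) → Zr F z →
      LinearIndependent ℂ (fun (e : Fin k) (v : Fin 2) => cf F e v z)) : SmB ℂ M := by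
  intro s x y hs hx hy hi h1 h2
  have h3 := hsm (mk2 x y) (forall2.2 ⟨hx, hy⟩) ((zr_inc hM _).2 hi)
  have h4 := Fintype.linearIndependent_iff.1 h3 s (by
    funext v
    rw [Finset.sum_apply]
    match v with
    | 0 =>
      have : ∀ e, (s e • fun (v : Fin 2) => cf F e v (mk2 x y)) 0 = s e • cvv M y e := by
        intro e
        show s e • cf F e 0 (mk2 x y) = _
        rw [(hM ℂ (mk2 x y) e).2.1]
        rfl
      simp only [this]
      exact h1
    | 1 =>
      have : ∀ e, (s e • fun (v : Fin 2) => cf F e v (mk2 x y)) 1 = s e • rvv M x e := by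
        intro e
        show s e • cf F e 1 (mk2 x y) = _
        rw [(hM ℂ (mk2 x y) e).2.2]
        rfl
      simp only [this]
      exact h2)
  exact hs (funext h4)

/-- The equations which contain the block `v`. -/
def eAll (v : Fin 2) : {e : Fin k // (fun (_ : Fin k) (_ : Fin 2) => 1) e v = 1} ≃ Fin k where
  toFun e := e.1
  invFun e := ⟨e, rfl⟩
  left_inv _ := rfl
  right_inv _ := rfl

/-- **Smooth complete intersections of divisors of type `(1, 1)`.** -/
theorem main (hC : StmtC3) (hP : StmtP3) (hH : StmtH3) (hW : StmtW3)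
    (hZ : StmtZ3) (hS6 : StmtS6) (hS8 : StmtS8) (hBD : StmtBD) (hBX : StmtBX) (hMR : StmtMR)
    (hNE : StmtNE) (hk : 1 ≤ k) (hn : ∀ v, 2 * k + 1 ≤ n v)
    (F : Fin k → MvPolynomial (Σ i, Fin (n i)) ℤ) (hF : ∀ e, MultiDeg (F e) (fun _ => 1))
    (hsm : ∀ z : ∀ v, Fin (n v) → ℂ, (∀ v, z v ≠ 0) → Zr F z →
      LinearIndependent ℂ (fun (e : Fin k) (v : Fin 2) => cf F e v z))
    (ψ : (∀ v, Fin (n v) → ℝ) → ℝ) (S : Finset Nat.Primes)
    (φ : ∀ p : Nat.Primes, (∀ v, Fin (n v) → ℚ_[p]) → ℝ) (hψ : LFs {x | Zr F x} ψ)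
    (hφ : ∀ p ∈ S, LFs {x | Zr F x} (φ p)) :
    ∃ c : ℝ, 0 < c ∧ Tendsto (fun B : ℝ => ({x : Pt n | (∀ v, Rep (x v)) ∧ Zr F x ∧
      (∀ v, LinearIndependent ℤ (fun e => cf F e v x)) ∧
      (∏ v, (ht (x v) : ℝ) ^ (n v - k)) * Phs ψ S φ x ≤ B}.ncard : ℝ) /
        (B * Real.log B)) atTop (𝓝 c) := by
  obtain ⟨M, hM'⟩ := hMR k n F hF
  have hM : MRep F M := hM'
  have hs := smooth hM hsm
  have n0 := hn 0
  have n1 := hn 1
  have hFS := fsb hBX hk hn hM (hBD k _ _ M (by omega) hs) (hBD k _ _ (trB M) (by omega) (smB_tr hs))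
  have hr1 : ∀ v, 1 ≤ (fun v => n v - k) v := fun v => by
    have := hn v
    show 1 ≤ n v - k
    omega
  obtain ⟨hc0', hcp⟩ := hS8 2 k n F (fun _ _ => 1) hF
  have hP0 : ∀ x, PB F x → ic ℝ x ∈ {x : ∀ v, Fin (n v) → ℝ | Zr F x} := fun x hx =>
    zr_cast hx.1
  have hPp : ∀ x, PB F x → ∀ p : Nat.Primes,
      ic ℚ_[p] x ∈ {x : ∀ v, Fin (n v) → ℚ_[p] | Zr F x} := fun x hx p =>
    zr_cast hx.1
  obtain ⟨c, hc⟩ := am_lim (m := 1) hC hP hH hW hZ hFS _
    (fun p => {x : ∀ v, Fin (n v) → ℚ_[p] | Zr F x}) hc0' hcp hP0 hPp ψ S φ hψ hφ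
  -- the lower bound
  obtain ⟨x, y, hxy, hx, hy⟩ := hNE k (n 0) (n 1) M hk n0 n1 hs
  have e0 : ⟨0, hk⟩ = (⟨0, hk⟩ : Fin k) := rfl
  have hx0 : x ≠ 0 := by
    rintro rfl
    apply hx.ne_zero ⟨0, hk⟩
    unfold rvv
    exact zero_vecMul _
  have hy0 : y ≠ 0 := by
    rintro rfl
    apply hy.ne_zero ⟨0, hk⟩
    unfold cvv
    exact mulVec_zero _
  obtain ⟨c0, B₀, hc00, hlow⟩ := hS6 1 k n F (fun _ _ => 1) (fun _ _ => le_rfl) hF
    (fun _ => ⟨0, rfl⟩) (fun v => by
      have := hn v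
      rw [Finset.sum_const, card_univ, Fintype.card_fin, smul_eq_mul, mul_one]
      omega) ⟨mk2 x y, forall2.2 ⟨hx0, hy0⟩, (zr_inc hM _).2 hxy, fun v => by
      match v with
      | 0 =>
        have h1 : LinearIndependent ℂ (fun e => cf F e 0 (mk2 x y)) := by
          rw [cf0 hM]
          exact hy
        exact (linearIndependent_equiv (eAll 0)).2 h1
      | 1 =>
        have h1 : LinearIndependent ℂ (fun e => cf F e 1 (mk2 x y)) := by
          rw [cf1 hM]
          exact hx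
        exact (linearIndependent_equiv (eAll 1)).2 h1⟩
  have hpos : 0 < c := am_pos (m := 1) (n := n) hZ (r := fun v => n v - k) hr1 _
    (fun p => {x : ∀ v, Fin (n v) → ℚ_[p] | Zr F x}) hc0' hcp hP0 hPp ψ S φ hψ hφ hc00
    (B₀ := B₀) (by
      intro B hB
      refine (hlow B hB).trans (le_of_eq ?_)
      congr 2
      ext x
      have hex : ∀ v : Fin 2, n v - ∑ e : Fin k, (fun (_ : Fin k) (_ : Fin 2) => 1) e v =
          n v - k := by
        intro v
        rw [Finset.sum_const, card_univ, Fintype.card_fin, smul_eq_mul, mul_one]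
      simp only [Set.mem_ofPred_eq, hex]
      refine and_congr_right fun _ => ?_
      unfold PB
      rw [and_assoc]
      refine and_congr_right fun _ => and_congr_left fun _ => forall_congr' fun v => ?_
      exact linearIndependent_equiv (eAll v) (f := fun e => cf F e v x)) hc
  refine ⟨c, hpos, hc.congr fun B => ?_⟩
  rw [pow_one]
  congr 3
  ext x
  simp only [Set.mem_ofPred_eq]
  refine and_congr_right fun _ => ?_
  unfold PB
  rw [and_assoc]

end Fin7

end Pool.Agent.T6.H81.BJ
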