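import Mathlib
import Pool.Agent.T6.H81.BJ.Defs

/-!
Smooth complete intersections of divisors of type `(1, 1)`: one more module.
-/

set_option autoImplicit false

namespace Pool.Agent.T6.H81.BJ

/-- Module GX: a class of vectors `x` for which all `y` over `x` are good. -/
def StmtGX : Prop := ∀ (k N1 N2 : ℕ) (M : Fin k → Matrix (Fin N1) (Fin N2) ℤ), 1 ≤ N2 → N2 ≤ N1 →
  SmB ℂ M → ∃ (q : ℕ) (a : Fin N1 → ℤ), 1 ≤ q ∧
    ∀ x : Fin N1 → ℤ, (∀ i, (q : ℤ) ∣ x i - a i) → ∀ y : Fin N2 → ℤ, y ≠ 0 → IncB M x y →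
      LinearIndependent ℤ (cvv M y)

end Pool.Agent.T6.H81.BJ
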