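import Mathlib
import Pool.Agent.T6.H81.BJ.Fsb
import Pool.Agent.T6.H81.BJ.Defs2
import Pool.Agent.T6.H81.BH.Cut
import Pool.Agent.T6.H81.BH.CH1
import Pool.Agent.T6.H81.BG.S6

/-!
Smooth complete intersections of divisors of type `(1, 1)`: the way between two points.
-/

set_option autoImplicit false

namespace Pool.Agent.T6.H81.BJ

open Finset Module Matrix
open Pool.Agent.H548.WM (ht bx mem_bx Rep)
open Pool.Agent.H548.BL (lat mem_lat)
open Pool.Agent.H548.TL (evz evz_map evz_int)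
open Pool.Agent.T6.H5.TW (fl MultiDeg)
open Pool.Agent.T6.H81.BG (Pt Bx Zr cf FS)
open Pool.Agent.T6.H81.BH (Gd PolyW StmtPol StmtS6G rs eval_rs gd_upd)

namespace WayB

open Fsb

variable {k : ℕ} {n : Fin 2 → ℕ}

/-- A value which is not zero, in a congruence class. -/
theorem exists_class {N : ℕ} (p : MvPolynomial (Fin N) ℤ) (hp : p ≠ 0) {q : ℕ} (hq : 1 ≤ q)
    (a : Fin N → ℤ) : ∃ z : Fin N → ℤ, (∀ i, (q : ℤ) ∣ z i - a i) ∧
      MvPolynomial.eval z p ≠ 0 := by
  by_contra hcon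
  push Not at hcon
  apply hp
  refine MvPolynomial.funext_set (fun i => {z : ℤ | (q : ℤ) ∣ z - a i}) (fun i => ?_)
    fun z hz => ?_
  · have h1 : Set.range (fun t : ℤ => a i + q * t) ⊆ {z : ℤ | (q : ℤ) ∣ z - a i} := by
      rintro _ ⟨t, rfl⟩
      exact ⟨t, by ring⟩
    refine (Set.infinite_range_of_injective ?_).mono h1
    intro s t hst
    have hq0 : (q : ℤ) ≠ 0 := by
      have : (1 : ℤ) ≤ q := by exact_mod_cast hq
      omega
    have h2 : (q : ℤ) * s = q * t := by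
      have : a i + q * s = a i + q * t := hst
      linarith
    exact mul_left_cancel₀ hq0 h2
  · rw [map_zero]
    exact hcon z fun i => hz i (Set.mem_univ _)

variable {F : Fin k → MvPolynomial (Σ i, Fin (n i)) ℤ}
    {M : Fin k → Matrix (Fin (n 0)) (Fin (n 1)) ℤ}

/-- An integer point where `G` is not zero, with independent forms in one block. -/
theorem int_pt (hSG : StmtS6G) (hk : 1 ≤ k) (hn : ∀ v, 2 * k + 1 ≤ n v)
    (hF : ∀ e, MultiDeg (F e) (fun _ => 1)) (hM : MRep F M) (G : MvPolynomial (Σ i, Fin (n i)) ℤ)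
    (hG : ∃ z : ∀ i, Fin (n i) → ℂ, Zr F z ∧ (∀ v, LinearIndependent ℂ (fun e => cf F e v z)) ∧
      evz G (fl z) ≠ 0) (v : Fin 2) :
    ∃ x : Pt n, Zr F x ∧ LinearIndependent ℤ (fun e => cf F e v x) ∧ evz G (fl x) ≠ 0 := by
  classical
  obtain ⟨z, hz1, hz2, hz3⟩ := hG
  obtain ⟨J, hJ⟩ := Pool.Agent.H548.BK.exists_minor'
    (B := Matrix.of fun (e : Fin k) s => cf F e v z s) (hz2 v)
  obtain ⟨Δ, hΔ⟩ : ∃ Δ : MvPolynomial (Σ i, Fin (n i)) ℤ,
    Δ = Matrix.det (Matrix.of fun (e : Fin k) (s : Fin k) => BG.S6.Cp F e v (J s)) := ⟨_, rfl⟩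
  have hev : ∀ {R : Type} [CommRing R] (x : ∀ i, Fin (n i) → R), evz Δ (fl x) =
      Matrix.det (Matrix.of fun (e : Fin k) (s : Fin k) => cf F e v x (J s)) := by
    intro R _ x
    rw [BG.S6.evz_hom, hΔ, RingHom.map_det]
    congr 1
    ext l s
    show MvPolynomial.eval₂Hom (Int.castRingHom R) (fl x) (BG.S6.Cp F l v (J s)) = _
    rw [← BG.S6.evz_hom, BG.S6.evz_Cp]
    rfl
  have hmul : ∀ {R : Type} [CommRing R] (x : ∀ i, Fin (n i) → R), evz (Δ * G) (fl x) =
      evz Δ (fl x) * evz G (fl x) := by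
    intro R _ x
    rw [BG.S6.evz_hom, BG.S6.evz_hom, BG.S6.evz_hom, map_mul]
  have hz0 : ∀ v, z v ≠ 0 := by
    refine forall2.2 ⟨?_, ?_⟩
    · intro h
      apply (hz2 1).ne_zero ⟨0, hk⟩
      show cf F ⟨0, hk⟩ 1 z = 0
      rw [(hM ℂ z ⟨0, hk⟩).2.2, h]
      unfold rvv
      exact zero_vecMul _
    · intro h
      apply (hz2 0).ne_zero ⟨0, hk⟩
      show cf F ⟨0, hk⟩ 0 z = 0
      rw [(hM ℂ z ⟨0, hk⟩).2.1, h]
      unfold cvv
      exact mulVec_zero _
  obtain ⟨x, -, hx1, hx2⟩ := hSG 1 k n F (fun _ _ => 1) (fun _ _ => le_rfl) hF (fun _ => ⟨0, rfl⟩)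
    (fun v => by
      have := hn v
      rw [Finset.sum_const, card_univ, Fintype.card_fin, smul_eq_mul, mul_one]
      omega) (Δ * G) ⟨z, hz0, hz1, fun v => by
        have h1 := hz2 v
        exact h1.comp (fun e : {e : Fin k // (fun (_ : Fin k) (_ : Fin 2) => 1) e v = 1} => e.1)
          Subtype.val_injective, by
        rw [hmul, hev]
        exact mul_ne_zero hJ hz3⟩
  rw [hmul] at hx2
  have h3 := left_ne_zero_of_mul hx2
  rw [hev] at h3
  refine ⟨x, hx1, ?_, right_ne_zero_of_mul hx2⟩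
  have h4 := Matrix.linearIndependent_rows_of_det_ne_zero h3
  exact LinearIndependent.of_comp (LinearMap.funLeft ℤ ℤ J) h4

/-- The way. -/
theorem way (hPol : StmtPol) (hn : ∀ v, 2 * k + 1 ≤ n v) (hM : MRep F M) {u v : Fin 2}
    (huv : u ≠ v)
    (hgx : ∃ (q : ℕ) (a : Fin (n u) → ℤ), 1 ≤ q ∧ ∀ x : Pt n, (∀ i, (q : ℤ) ∣ x u i - a i) →
      x v ≠ 0 → Zr F x → LinearIndependent ℤ (fun e => cf F e u x))
    (G : MvPolynomial (Σ i, Fin (n i)) ℤ) (x' : Pt n) (h1 : Zr F x')
    (h2 : LinearIndependent ℤ (fun e => cf F e v x')) (h3 : evz G (fl x') ≠ 0)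
    (x : Pt n) (hx : PB F x) :
    Gd (ι := fun _ => Fin k) (fun v (x : Pt n) e => cf F e v x) G [v, u, v] x := by
  classical
  obtain ⟨w, hw⟩ : ∃ w : ∀ v : Fin 2, Pt n → Fin k → Fin (n v) → ℤ,
    w = fun v x e => cf F e v x := ⟨_, rfl⟩
  have hPW : PolyW (ι := fun _ => Fin k) w := by
    rw [hw]
    exact BH.polyW_cf F (fun _ => Fin k) (fun _ e => e)
  have hwu : ∀ v (x : Pt n) (z : Fin (n v) → ℤ), w v (Function.update x v z) = w v x := by
    intro v x z
    rw [hw]
    funext e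
    exact cf_upd F e v x z
  have hwe : ∀ v x, w v x = fun e => cf F e v x := fun v x => by rw [hw]
  rw [← hw]
  obtain ⟨D, hD⟩ := hPol 2 n (fun _ => Fin k) w hPW G [v]
  have hg : Gd (ι := fun _ => Fin k) w G [v] x' := by
    refine ⟨?_, x' v, ?_, ?_⟩
    · rw [hwe]
      exact h2
    · rw [hwe]
      exact (lat_iff hM v x').2 h1
    · show evz G (fl (Function.update x' v (x' v))) ≠ 0
      rw [Function.update_eq_self]
      exact h3
  obtain ⟨g, -, hg1, hg2⟩ := hD x' hg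
  obtain ⟨q, a, hq, hqa⟩ := hgx
  have hne : rs x' u g ≠ 0 := by
    intro h0
    apply hg1
    have := eval_rs x' u g (x' u)
    rw [h0, map_zero, Function.update_eq_self] at this
    exact this.symm
  obtain ⟨z0, hz0, hz1⟩ := exists_class _ hne hq a
  rw [eval_rs] at hz1
  have hgd := hg2 _ hz1
  -- the vector `y1`
  obtain ⟨y1, hy0, hy⟩ := BH.CH1.exists_sol (ι := Fin k ⊕ Fin k) (N := n v) (by
    rw [Fintype.card_sum, Fintype.card_fin]
    have := hn v
    omega) (Sum.elim (fun e => cf F e v x) (fun e => cf F e v (Function.update x u z0)))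
  obtain ⟨x1, hx1⟩ : ∃ x1 : Pt n, x1 = Function.update (Function.update x v y1) u z0 := ⟨_, rfl⟩
  have hx1' : x1 = Function.update (Function.update x u z0) v y1 := by
    rw [hx1, Function.update_comm huv.symm]
  have e1 : x1 u = z0 := by
    rw [hx1, Function.update_self]
  have e2 : x1 v = y1 := by
    rw [hx1', Function.update_self]
  have hZ : Zr F x1 := by
    rw [← lat_iff hM v, e2]
    have : (fun e => cf F e v x1) = fun e => cf F e v (Function.update x u z0) := by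
      funext e
      rw [hx1', cf_upd]
    rw [this, mem_lat]
    exact fun e => hy (Sum.inr e)
  have hLI : LinearIndependent ℤ (fun e => cf F e u x1) :=
    hqa x1 (by rw [e1]; exact hz0) (by rw [e2]; exact hy0) hZ
  have e3 : (fun e => cf F e u x1) = fun e => cf F e u (Function.update x v y1) := by
    funext e
    rw [hx1, cf_upd]
  refine ⟨?_, y1, ?_, ?_, z0, ?_, ?_⟩
  · rw [hwe]
    exact hx.2 v
  · rw [hwe, mem_lat]
    exact fun e => hy (Sum.inl e)
  · rw [hwe, ← e3]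
    exact hLI
  · rw [hwe, ← e3]
    have := (lat_iff hM u x1).2 hZ
    rwa [e1] at this
  · rw [← hx1, hx1', gd_upd hwu G v [] (Function.update x u z0) y1]
    have e4 : Function.update x u z0 = Function.update (Function.update x' u z0) v (x v) := by
      funext i
      by_cases hiu : i = u
      · subst hiu
        rw [Function.update_self, Function.update_of_ne huv, Function.update_self]
      · have hiv : i = v := by
          omega
        subst hiv
        rw [Function.update_of_ne hiu, Function.update_self]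
    rw [e4, gd_upd hwu G v [] (Function.update x' u z0) (x v)]
    exact hgd

/-- A class of good vectors in one of the blocks. -/
theorem cls (hGX : StmtGX) (hk : 1 ≤ k) (hn : ∀ v, 2 * k + 1 ≤ n v) (hM : MRep F M)
    (hs : SmB ℂ M) : ∃ u v : Fin 2, u ≠ v ∧
      ∃ (q : ℕ) (a : Fin (n u) → ℤ), 1 ≤ q ∧ ∀ x : Pt n, (∀ i, (q : ℤ) ∣ x u i - a i) →
      x v ≠ 0 → Zr F x → LinearIndependent ℤ (fun e => cf F e u x) := by
  have n0 := hn 0
  have n1 := hn 1
  rcases le_total (n 1) (n 0) with h | h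
  · obtain ⟨q, a, hq, hqa⟩ := hGX k (n 0) (n 1) M (by omega) h hs
    refine ⟨0, 1, by decide, q, a, hq, fun x hx hy hz => ?_⟩
    rw [cf0 hM]
    exact hqa (x 0) hx (x 1) hy ((zr_inc hM x).1 hz)
  · obtain ⟨q, a, hq, hqa⟩ := hGX k (n 1) (n 0) (trB M) (by omega) h (smB_tr hs)
    refine ⟨1, 0, by decide, q, a, hq, fun x hx hy hz => ?_⟩
    rw [cf1 hM, ← cvv_tr]
    exact hqa (x 1) hx (x 0) hy ((inc_tr M _ _).2 ((zr_inc hM x).1 hz))

end WayB

end Pool.Agent.T6.H81.BJ
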