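import Mathlib
import Pool.Agent.T6.H81.BJ.Fin7
import Pool.Agent.T6.H81.BJ.WayB

/-!
Smooth complete intersections of divisors of type `(1, 1)`: the asymptotic formula on every dense
open subset.
-/

set_option autoImplicit false

namespace Pool.Agent.T6.H81.BJ

open Finset Module Matrix Filter Topology
open Pool.Agent.H548.WM (ht bx mem_bx Rep ht_pos)
open Pool.Agent.H548.BL (lat mem_lat rep_ne)
open Pool.Agent.H548.TL (evz evz_map evz_int)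
open Pool.Agent.T6.H5.TW (fl MultiDeg)
open Pool.Agent.T6.H81.BG
open Pool.Agent.T6.H81.BH (StmtZ0 StmtPol StmtS6G am_cut polyW_cf neg PolyW)

namespace Fin9

open Fsb Fin7

variable {k : ℕ} {n : Fin 2 → ℕ}

/-- **Smooth complete intersections of divisors of type `(1, 1)`**, every open subset. -/
theorem main (hC : StmtC3) (hP : StmtP3) (hH : StmtH3) (hW : StmtW3) (hR3 : StmtR3)
    (hZ : StmtZ3) (hS6 : StmtS6) (hS8 : StmtS8) (hZ0 : StmtZ0) (hPol : StmtPol) (hSG : StmtS6G)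
    (hBD : StmtBD) (hBX : StmtBX) (hMR : StmtMR) (hNE : StmtNE) (hGX : StmtGX)
    (hk : 1 ≤ k) (hn : ∀ v, 2 * k + 1 ≤ n v)
    (F : Fin k → MvPolynomial (Σ i, Fin (n i)) ℤ) (hF : ∀ e, MultiDeg (F e) (fun _ => 1))
    (hsm : ∀ z : ∀ v, Fin (n v) → ℂ, (∀ v, z v ≠ 0) → Zr F z →
      LinearIndependent ℂ (fun (e : Fin k) (v : Fin 2) => cf F e v z))
    (ψ : (∀ v, Fin (n v) → ℝ) → ℝ) (S : Finset Nat.Primes)
    (φ : ∀ p : Nat.Primes, (∀ v, Fin (n v) → ℚ_[p]) → ℝ) (hψ : LFs {x | Zr F x} ψ)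
    (hφ : ∀ p ∈ S, LFs {x | Zr F x} (φ p)) :
    ∃ c : ℝ, 0 < c ∧ ∀ G : MvPolynomial (Σ i, Fin (n i)) ℤ,
      (∃ z : ∀ i, Fin (n i) → ℂ, Zr F z ∧ (∀ v, LinearIndependent ℂ (fun e => cf F e v z)) ∧
        evz G (fl z) ≠ 0) →
      Tendsto (fun B : ℝ => ({x : Pt n | (∀ v, Rep (x v)) ∧ Zr F x ∧
        (∀ v, LinearIndependent ℤ (fun e => cf F e v x)) ∧ evz G (fl x) ≠ 0 ∧
        (∏ v, (ht (x v) : ℝ) ^ (n v - k)) * Phs ψ S φ x ≤ B}.ncard : ℝ) /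
          (B * Real.log B)) atTop (𝓝 c) := by
  obtain ⟨c, hc0, hc⟩ := Fin7.main hC hP hH hW hZ hS6 hS8 hBD hBX hMR hNE hk hn F hF hsm ψ S φ
    hψ hφ
  refine ⟨c, hc0, fun G hG => ?_⟩
  obtain ⟨M, hM'⟩ := hMR k n F hF
  have hM : MRep F M := hM'
  have hs := smooth hM hsm
  have n0 := hn 0
  have n1 := hn 1
  have hFS := fsb hBX hk hn hM (hBD k _ _ M (by omega) hs) (hBD k _ _ (trB M) (by omega) (smB_tr hs))
  have hr1 : ∀ v, 1 ≤ (fun v => n v - k) v := fun v => by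
    have := hn v
    show 1 ≤ n v - k
    omega
  obtain ⟨hc0', hcp⟩ := hS8 2 k n F (fun _ _ => 1) hF
  have hP0 : ∀ x, PB F x → ic ℝ x ∈ {x : ∀ v, Fin (n v) → ℝ | Zr F x} := fun x hx =>
    zr_cast hx.1
  have hPp : ∀ x, PB F x → ∀ p : Nat.Primes,
      ic ℚ_[p] x ∈ {x : ∀ v, Fin (n v) → ℚ_[p] | Zr F x} := fun x hx p =>
    zr_cast hx.1
  obtain ⟨u, v, huv, hgx⟩ := WayB.cls hGX hk hn hM hs
  obtain ⟨x', hx1, hx2, hx3⟩ := WayB.int_pt hSG hk hn hF hM G hG v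
  have hPW : PolyW (ι := fun _ => Fin k) (fun (v : Fin 2) (x : Pt n) (e : Fin k) =>
      cf F e v x) := polyW_cf F (fun _ => Fin k) (fun _ e => e)
  obtain ⟨C, δ, hδ, hneg⟩ := neg hR3 hP hZ0 hPol hFS hPW G [v, u, v]
    (fun x hx => WayB.way hPol hn hM huv hgx G x' hx1 hx2 hx3 x hx)
  have hset : ∀ (g : Pt n → ℝ) (B : ℝ), {x : Pt n | (∀ v, Rep (x v)) ∧ PB F x ∧ g x ≤ B} =
      {x : Pt n | (∀ v, Rep (x v)) ∧ Zr F x ∧
        (∀ v, LinearIndependent ℤ (fun e => cf F e v x)) ∧ g x ≤ B} := by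
    intro g B
    ext x
    simp only [Set.mem_ofPred_eq]
    unfold PB
    rw [and_assoc (c := g x ≤ B)]
  have hc' : Tendsto (fun B : ℝ => ({x : Pt n | (∀ v, Rep (x v)) ∧ PB F x ∧
      (∏ v, (ht (x v) : ℝ) ^ (n v - k)) * Phs ψ S φ x ≤ B}.ncard : ℝ) /
        (B * Real.log B ^ 1)) atTop (𝓝 c) := by
    refine hc.congr fun B => ?_
    rw [hset (fun x => (∏ v, (ht (x v) : ℝ) ^ (n v - k)) * Phs ψ S φ x) B, pow_one]
  have hcut := am_cut hH hZ (r := fun v => n v - k) hr1 _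
    (fun p => {x : ∀ v, Fin (n v) → ℚ_[p] | Zr F x}) hc0' hcp hP0 hPp ψ S φ hψ hφ hδ
      hneg hc'
  refine hcut.congr fun B => ?_
  rw [pow_one]
  congr 3
  ext x
  simp only [Set.mem_ofPred_eq]
  unfold PB
  constructor
  · rintro ⟨h1, ⟨⟨h2, h3⟩, h4⟩, h5⟩
    exact ⟨h1, h2, h3, h4, h5⟩
  · rintro ⟨h1, h2, h3, h4, h5⟩
    exact ⟨h1, ⟨⟨h2, h3⟩, h4⟩, h5⟩

end Fin9

end Pool.Agent.T6.H81.BJ
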