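import Pool.Agent.T6.H81.BJ.Defs

/-! Module GP: all primes with finitely many exceptions are good (helper24). -/

set_option autoImplicit false

namespace Pool.Agent.T6.H81.BJ

open Pool.Agent.H548.TL (evz)

namespace ModGP

theorem clear {σ : Type} (c : MvPolynomial σ ℚ) : ∃ D : ℕ, 1 ≤ D ∧ ∃ h : MvPolynomial σ ℤ,
    MvPolynomial.C (D : ℚ) * c = MvPolynomial.map (Int.castRingHom ℚ) h := by
  induction c using MvPolynomial.induction_on with
  | C a =>
    refine ⟨a.den, a.den_pos, MvPolynomial.C a.num, ?_⟩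
    rw [MvPolynomial.map_C, ← MvPolynomial.C_mul]
    congr 1
    rw [eq_intCast, mul_comm, Rat.mul_den_eq_num]
  | add p q hp hq =>
    obtain ⟨D1, hD1, h1, e1⟩ := hp
    obtain ⟨D2, hD2, h2, e2⟩ := hq
    refine ⟨D1 * D2, Nat.mul_pos hD1 hD2, MvPolynomial.C (D2 : ℤ) * h1 +
      MvPolynomial.C (D1 : ℤ) * h2, ?_⟩
    rw [map_add, map_mul, map_mul, ← e1, ← e2, MvPolynomial.map_C, MvPolynomial.map_C, Nat.cast_mul,
      MvPolynomial.C_mul]
    simp only [eq_intCast, Int.cast_natCast]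
    ring
  | mul_X p i hp =>
    obtain ⟨D1, hD1, h1, e1⟩ := hp
    refine ⟨D1, hD1, h1 * MvPolynomial.X i, ?_⟩
    rw [map_mul, ← e1, MvPolynomial.map_X, mul_assoc]

theorem evz_aeval {σ : Type} (p : MvPolynomial σ ℤ) (x : σ → ℂ) :
    MvPolynomial.aeval x (MvPolynomial.map (Int.castRingHom ℚ) p) = evz p x := by
  unfold evz
  rw [MvPolynomial.aeval_def, MvPolynomial.eval₂_map]
  congr 1

end ModGP

theorem gP : StmtGP := by
  classical
  intro σ ι _ _ f g hfg
  set F : ι → MvPolynomial σ ℚ := fun i => MvPolynomial.map (Int.castRingHom ℚ) (f i) with hF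
  set g' : MvPolynomial σ ℚ := MvPolynomial.map (Int.castRingHom ℚ) g with hg'
  have hrad : g' ∈ (Ideal.span (Set.range F)).radical := by
    rw [← MvPolynomial.vanishingIdeal_zeroLocus_eq_radical (K := ℂ),
      MvPolynomial.mem_vanishingIdeal_iff]
    intro x hx
    rw [MvPolynomial.zeroLocus_span] at hx
    rw [hg', ModGP.evz_aeval]
    apply hfg
    intro i
    rw [← ModGP.evz_aeval]
    exact hx _ ⟨i, rfl⟩
  obtain ⟨R, hR⟩ := hrad
  obtain ⟨c, hc⟩ := Ideal.mem_span_range_iff_exists_fun.1 hR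
  choose D hD h hh using fun i => ModGP.clear (c i)
  have hcom : ∀ i, ∃ k : MvPolynomial σ ℤ, MvPolynomial.C ((∏ j, D j : ℕ) : ℚ) * c i =
      MvPolynomial.map (Int.castRingHom ℚ) k := by
    intro i
    refine ⟨MvPolynomial.C ((∏ j ∈ Finset.univ.erase i, D j : ℕ) : ℤ) * h i, ?_⟩
    rw [map_mul, ← hh i, MvPolynomial.map_C, ← Finset.mul_prod_erase Finset.univ D (Finset.mem_univ i),
      Nat.cast_mul, MvPolynomial.C_mul]
    simp only [eq_intCast, Int.cast_natCast]
    ring
  choose k hk using hcom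
  have hint : MvPolynomial.C ((∏ j, D j : ℕ) : ℤ) * g ^ R = ∑ i, k i * f i := by
    apply MvPolynomial.map_injective (Int.castRingHom ℚ) (RingHom.injective_int _)
    rw [map_mul, map_pow, MvPolynomial.map_C, map_sum]
    simp only [eq_intCast, Int.cast_natCast, map_mul]
    rw [← hg', ← hc, Finset.mul_sum]
    apply Finset.sum_congr rfl
    intro i _
    rw [← hk i, mul_assoc]
  refine ⟨∏ j, D j, Finset.one_le_prod'' hD, ?_⟩
  intro p hp hpD z hz
  have : Fact p.Prime := ⟨hp⟩
  have he := congrArg (fun q => evz q z) hint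
  simp only [evz, MvPolynomial.eval₂_mul, MvPolynomial.eval₂_pow, MvPolynomial.eval₂_C,
    MvPolynomial.eval₂_sum] at he
  have h0 : ∑ i, MvPolynomial.eval₂ (Int.castRingHom (ZMod p)) z (k i) *
      MvPolynomial.eval₂ (Int.castRingHom (ZMod p)) z (f i) = 0 := by
    apply Finset.sum_eq_zero
    intro i _
    have := hz i
    unfold evz at this
    rw [this, mul_zero]
  rw [h0] at he
  have hDp : (Int.castRingHom (ZMod p)) ((∏ j, D j : ℕ) : ℤ) ≠ 0 := by
    rw [eq_intCast, Int.cast_natCast]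
    intro h
    exact hpD ((ZMod.natCast_eq_zero_iff _ _).1 h)
  have h1 := (mul_eq_zero.1 he).resolve_left hDp
  exact eq_zero_of_pow_eq_zero h1

end Pool.Agent.T6.H81.BJ
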