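import Pool.Agent.T6.H81.BJ.Defs2

/-!
Smooth complete intersections of divisors of type `(1, 1)`: module GX.
-/

set_option autoImplicit false

namespace Pool.Agent.T6.H81.BJ

open Finset Module Matrix
open Pool.Agent.H548.TL (evz)

namespace ModGX

variable {k N1 N2 : ℕ}

theorem map_cvv {A B : Type*} [CommRing A] [CommRing B] (φ : A →+* B)
    (M : Fin k → Matrix (Fin N1) (Fin N2) ℤ) (y : Fin N2 → A) (e : Fin k) (i : Fin N1) :
    φ (cvv M y e i) = cvv M (fun j => φ (y j)) e i := by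
  simp only [cvv, Matrix.mulVec, dotProduct, map_sum, map_mul, Matrix.map_apply, map_intCast]

theorem map_rvv {A B : Type*} [CommRing A] [CommRing B] (φ : A →+* B)
    (M : Fin k → Matrix (Fin N1) (Fin N2) ℤ) (x : Fin N1 → A) (e : Fin k) (i : Fin N2) :
    φ (rvv M x e i) = rvv M (fun j => φ (x j)) e i := by
  simp only [rvv, Matrix.vecMul, dotProduct, map_sum, map_mul, Matrix.map_apply, map_intCast]

theorem cvv_smul {A : Type*} [CommRing A] (M : Fin k → Matrix (Fin N1) (Fin N2) ℤ) (c : A)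
    (y : Fin N2 → A) (e : Fin k) : cvv M (c • y) e = c • cvv M y e := by
  unfold cvv
  rw [Matrix.mulVec_smul]

/-- all but finitely many primes are good -/
theorem good_prime (hGP : StmtGP) (M : Fin k → Matrix (Fin N1) (Fin N2) ℤ) (hM : SmB ℂ M) :
    ∃ p : ℕ, ∃ _ : Fact p.Prime, SmB (ZMod p) M := by
  classical
  let σ := Fin k ⊕ Fin N1 ⊕ Fin N2
  let S : Fin k → MvPolynomial σ ℤ := fun e => MvPolynomial.X (Sum.inl e)
  let Xx : Fin N1 → MvPolynomial σ ℤ := fun i => MvPolynomial.X (Sum.inr (Sum.inl i))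
  let Yy : Fin N2 → MvPolynomial σ ℤ := fun j => MvPolynomial.X (Sum.inr (Sum.inr j))
  let f : (Fin k ⊕ Fin N1 ⊕ Fin N2) → MvPolynomial σ ℤ := fun t => match t with
    | Sum.inl e => ∑ i, Xx i * cvv M Yy e i
    | Sum.inr (Sum.inl i) => ∑ e, S e * cvv M Yy e i
    | Sum.inr (Sum.inr j) => ∑ e, S e * rvv M Xx e j
  let g : Fin k × Fin N1 × Fin N2 → MvPolynomial σ ℤ := fun t => S t.1 * Xx t.2.1 * Yy t.2.2
  have hX : ∀ (R : Type) [CommRing R] (z : σ → R) (v : σ), evz (MvPolynomial.X v) z = z v := by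
    intro R _ z v
    unfold evz
    exact MvPolynomial.eval₂_X _ _ _
  have hsum : ∀ (R : Type) [CommRing R] (z : σ → R) {ι : Type} (s : Finset ι)
      (F : ι → MvPolynomial σ ℤ), evz (∑ i ∈ s, F i) z = ∑ i ∈ s, evz (F i) z := by
    intro R _ z ι s F
    exact map_sum (MvPolynomial.eval₂Hom (Int.castRingHom R) z) F s
  have hmul : ∀ (R : Type) [CommRing R] (z : σ → R) (P Q : MvPolynomial σ ℤ),
      evz (P * Q) z = evz P z * evz Q z := by
    intro R _ z P Q
    exact map_mul (MvPolynomial.eval₂Hom (Int.castRingHom R) z) P Q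
  have hc : ∀ (R : Type) [CommRing R] (z : σ → R) (e : Fin k) (i : Fin N1),
      evz (cvv M Yy e i) z = cvv M (fun j => z (Sum.inr (Sum.inr j))) e i := by
    intro R _ z e i
    have h1 := map_cvv (MvPolynomial.eval₂Hom (Int.castRingHom R) z) M Yy e i
    refine h1.trans ?_
    congr 1
    funext j
    exact hX R z _
  have hr : ∀ (R : Type) [CommRing R] (z : σ → R) (e : Fin k) (j : Fin N2),
      evz (rvv M Xx e j) z = rvv M (fun i => z (Sum.inr (Sum.inl i))) e j := by
    intro R _ z e i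
    have h1 := map_rvv (MvPolynomial.eval₂Hom (Int.castRingHom R) z) M Xx e i
    refine h1.trans ?_
    congr 1
    funext j
    exact hX R z _
  have hf : ∀ (R : Type) [CommRing R] (z : σ → R), (∀ t, evz (f t) z = 0) ↔
      (IncB M (fun i => z (Sum.inr (Sum.inl i))) (fun j => z (Sum.inr (Sum.inr j))) ∧
        ∑ e, z (Sum.inl e) • cvv M (fun j => z (Sum.inr (Sum.inr j))) e = 0 ∧
        ∑ e, z (Sum.inl e) • rvv M (fun i => z (Sum.inr (Sum.inl i))) e = 0) := by
    intro R _ z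
    constructor
    · intro h
      refine ⟨fun e => ?_, ?_, ?_⟩
      · have h1 := h (Sum.inl e)
        simp only [f] at h1
        rw [hsum] at h1
        simp only [hmul, hc, hX, Xx] at h1
        exact h1
      · funext i
        have h1 := h (Sum.inr (Sum.inl i))
        simp only [f] at h1
        rw [hsum] at h1
        simp only [hmul, hc, hX, S] at h1
        rw [Finset.sum_apply]
        exact h1
      · funext j
        have h1 := h (Sum.inr (Sum.inr j))
        simp only [f] at h1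
        rw [hsum] at h1
        simp only [hmul, hr, hX, S] at h1
        rw [Finset.sum_apply]
        exact h1
    · rintro ⟨h1, h2, h3⟩ t
      rcases t with e | i | j
      · simp only [f]
        rw [hsum]
        simp only [hmul, hc, hX, Xx]
        exact h1 e
      · simp only [f]
        rw [hsum]
        simp only [hmul, hc, hX, S]
        have h4 := congrFun h2 i
        rw [Finset.sum_apply] at h4
        exact h4
      · simp only [f]
        rw [hsum]
        simp only [hmul, hr, hX, S]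
        have h4 := congrFun h3 j
        rw [Finset.sum_apply] at h4
        exact h4
  have hg : ∀ (R : Type) [CommRing R] (z : σ → R) (t : Fin k × Fin N1 × Fin N2),
      evz (g t) z = z (Sum.inl t.1) * z (Sum.inr (Sum.inl t.2.1)) *
        z (Sum.inr (Sum.inr t.2.2)) := by
    intro R _ z t
    simp only [g]
    rw [hmul, hmul]
    simp only [S, Xx, Yy, hX]
  have hD : ∀ t : Fin k × Fin N1 × Fin N2, ∃ D : ℕ, 1 ≤ D ∧ ∀ p : ℕ, p.Prime → ¬ p ∣ D →
      ∀ z : σ → ZMod p, (∀ i, evz (f i) z = 0) → evz (g t) z = 0 := by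
    intro t
    refine hGP σ _ f (g t) ?_
    intro z hz
    rw [hf] at hz
    rw [hg]
    by_contra hne
    refine hM (fun e => z (Sum.inl e)) (fun i => z (Sum.inr (Sum.inl i)))
      (fun j => z (Sum.inr (Sum.inr j))) ?_ ?_ ?_ hz.1 hz.2.1 hz.2.2
    · intro h
      apply hne
      have := congrFun h t.1
      simp only [Pi.zero_apply] at this
      rw [this]
      ring
    · intro h
      apply hne
      have := congrFun h t.2.1
      simp only [Pi.zero_apply] at this
      rw [this]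
      ring
    · intro h
      apply hne
      have := congrFun h t.2.2
      simp only [Pi.zero_apply] at this
      rw [this]
      ring
  choose D hD1 hD2 using hD
  obtain ⟨p, hp1, hp⟩ := Nat.exists_infinite_primes (∏ t, D t + 1)
  have hfact : Fact p.Prime := ⟨hp⟩
  refine ⟨p, hfact, ?_⟩
  intro s x y hs hx hy h1 h2 h3
  obtain ⟨a, ha⟩ := Function.ne_iff.mp hs
  obtain ⟨b, hb⟩ := Function.ne_iff.mp hx
  obtain ⟨c, hc'⟩ := Function.ne_iff.mp hy
  have hnd : ¬ p ∣ D (a, b, c) := by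
    intro h
    have h4 : D (a, b, c) ∣ ∏ t, D t := Finset.dvd_prod_of_mem _ (Finset.mem_univ _)
    have h5 : 0 < ∏ t, D t := Finset.prod_pos fun t _ => hD1 t
    have h6 := Nat.le_of_dvd h5 (h.trans h4)
    omega
  let z : σ → ZMod p := fun t => match t with
    | Sum.inl e => s e
    | Sum.inr (Sum.inl i) => x i
    | Sum.inr (Sum.inr j) => y j
  have h4 := hD2 (a, b, c) p hp hnd z ((hf (ZMod p) z).mpr ⟨h1, h2, h3⟩)
  rw [hg] at h4
  have h5 : s a * x b * y c = 0 := h4
  rcases mul_eq_zero.mp h5 with h6 | h6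
  · rcases mul_eq_zero.mp h6 with h7 | h7
    · exact ha h7
    · exact hb h7
  · exact hc' h6

theorem char_sum {q : ℕ} [NeZero q] {ι : Type*} (s : Finset ι) (f : ι → ZMod q) :
    ZMod.stdAddChar (N := q) (∑ i ∈ s, f i) = ∏ i ∈ s, ZMod.stdAddChar (N := q) (f i) := by
  classical
  induction s using Finset.induction_on with
  | empty => simp
  | insert a s ha ih =>
    rw [Finset.sum_insert ha, Finset.prod_insert ha, AddChar.map_add_eq_mul, ih]

/-- orthogonality -/
theorem orth (q : ℕ) [NeZero q] (N : ℕ) (v : Fin N → ZMod q) :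
    ∑ x : Fin N → ZMod q, ZMod.stdAddChar (N := q) (∑ i, x i * v i) =
      if v = 0 then (q : ℂ) ^ N else 0 := by
  classical
  have h1 : ∀ x : Fin N → ZMod q, ZMod.stdAddChar (N := q) (∑ i, x i * v i) =
      ∏ i, ZMod.stdAddChar (N := q) (x i * v i) := fun x => char_sum _ _
  simp only [h1]
  have h2 := Finset.prod_univ_sum (fun _ : Fin N => (Finset.univ : Finset (ZMod q)))
    (fun i a => ZMod.stdAddChar (N := q) (a * v i))
  rw [Fintype.piFinset_univ] at h2
  rw [← h2]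
  have h3 : ∀ i, ∑ a : ZMod q, ZMod.stdAddChar (N := q) (a * v i) =
      if v i = 0 then (q : ℂ) else 0 := by
    intro i
    rw [AddChar.sum_mulShift (v i) (ZMod.isPrimitive_stdAddChar q), ZMod.card]
    split_ifs <;> simp
  simp only [h3]
  split_ifs with h
  · subst h
    simp
  · obtain ⟨i, hi⟩ := Function.ne_iff.mp h
    exact Finset.prod_eq_zero (Finset.mem_univ i) (if_neg hi)

open Classical in
/-- the annihilator of a family and its kernel -/
theorem card_ann (q : ℕ) [NeZero q] (c : Fin k → Fin N1 → ZMod q) :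
    q ^ k * (Finset.univ.filter (fun x : Fin N1 → ZMod q => ∀ e, x ⬝ᵥ c e = 0)).card =
      q ^ N1 * (Finset.univ.filter (fun s : Fin k → ZMod q => ∑ e, s e • c e = 0)).card := by
  have h1 : ∑ x : Fin N1 → ZMod q, ∑ s : Fin k → ZMod q,
      ZMod.stdAddChar (N := q) (∑ e, s e * (x ⬝ᵥ c e)) =
      (q : ℂ) ^ k * (Finset.univ.filter (fun x : Fin N1 → ZMod q => ∀ e, x ⬝ᵥ c e = 0)).card := by
    have h2 : ∀ x : Fin N1 → ZMod q, ∑ s : Fin k → ZMod q,
        ZMod.stdAddChar (N := q) (∑ e, s e * (x ⬝ᵥ c e)) =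
        if (∀ e, x ⬝ᵥ c e = 0) then (q : ℂ) ^ k else 0 := by
      intro x
      rw [orth q k (fun e => x ⬝ᵥ c e)]
      congr 1
      exact propext funext_iff
    simp only [h2]
    rw [← Finset.sum_filter, Finset.sum_const, nsmul_eq_mul, mul_comm]
  have h3 : ∑ x : Fin N1 → ZMod q, ∑ s : Fin k → ZMod q,
      ZMod.stdAddChar (N := q) (∑ e, s e * (x ⬝ᵥ c e)) =
      (q : ℂ) ^ N1 *
        (Finset.univ.filter (fun s : Fin k → ZMod q => ∑ e, s e • c e = 0)).card := by
    rw [Finset.sum_comm]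
    have h2 : ∀ s : Fin k → ZMod q, ∑ x : Fin N1 → ZMod q,
        ZMod.stdAddChar (N := q) (∑ e, s e * (x ⬝ᵥ c e)) =
        if (∑ e, s e • c e = 0) then (q : ℂ) ^ N1 else 0 := by
      intro s
      rw [← orth q N1 (∑ e, s e • c e)]
      refine Finset.sum_congr rfl fun x _ => ?_
      congr 1
      simp only [dotProduct, Finset.sum_apply, Pi.smul_apply, smul_eq_mul, Finset.mul_sum]
      rw [Finset.sum_comm]
      refine Finset.sum_congr rfl fun i _ => Finset.sum_congr rfl fun e _ => ?_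
      ring
    simp only [h2]
    rw [← Finset.sum_filter, Finset.sum_const, nsmul_eq_mul, mul_comm]
  have h4 := h1.symm.trans h3
  exact_mod_cast h4

/-- units modulo a prime power -/
theorem unit_iff {p t : ℕ} (hp : p.Prime) (ht : 1 ≤ t) (n : ℤ) :
    IsUnit ((n : ℤ) : ZMod (p ^ t)) ↔ ¬ (p : ℤ) ∣ n := by
  have : NeZero (p ^ t) := ⟨(pow_pos hp.pos t).ne'⟩
  have h0 : ((n : ℤ) : ZMod (p ^ t)) = (((n.emod ((p ^ t : ℕ) : ℤ)).toNat : ℕ) : ZMod (p ^ t)) := by
    have h1 : 0 ≤ n.emod ((p ^ t : ℕ) : ℤ) :=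
      Int.emod_nonneg _ (by exact_mod_cast (pow_pos hp.pos t).ne')
    have h2 : (((n.emod ((p ^ t : ℕ) : ℤ)).toNat : ℕ) : ZMod (p ^ t)) =
        ((((n.emod ((p ^ t : ℕ) : ℤ)).toNat : ℕ) : ℤ) : ZMod (p ^ t)) := by push_cast; rfl
    rw [h2, Int.toNat_of_nonneg h1]
    rw [ZMod.intCast_eq_intCast_iff]
    exact (Int.mod_modEq _ _).symm
  rw [h0, ZMod.isUnit_iff_coprime]
  have h1 : 0 ≤ n.emod ((p ^ t : ℕ) : ℤ) :=
    Int.emod_nonneg _ (by exact_mod_cast (pow_pos hp.pos t).ne')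
  rw [Nat.coprime_pow_right_iff (by omega), Nat.coprime_comm, hp.coprime_iff_not_dvd]
  apply not_congr
  rw [← Int.natCast_dvd_natCast, Int.toNat_of_nonneg h1]
  have h3 : (p : ℤ) ∣ ((p ^ t : ℕ) : ℤ) := by
    exact_mod_cast dvd_pow_self p (by omega)
  show (p : ℤ) ∣ n % ((p ^ t : ℕ) : ℤ) ↔ (p : ℤ) ∣ n
  rw [Int.emod_def]
  exact dvd_sub_left (h3.mul_right _)

theorem unit_add {p t : ℕ} (hp : p.Prime) (ht : 1 ≤ t) {a b : ZMod (p ^ t)} (ha : IsUnit a)
    (hb : ¬ IsUnit b) : IsUnit (a + b) := by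
  obtain ⟨m, rfl⟩ := ZMod.intCast_surjective a
  obtain ⟨n, rfl⟩ := ZMod.intCast_surjective b
  rw [unit_iff hp ht] at ha hb
  rw [← Int.cast_add, unit_iff hp ht]
  rw [not_not] at hb
  intro h
  exact ha ((dvd_add_left hb).mp h)

open Classical in
/-- at least half of the kernel has a unit coordinate -/
theorem ker_bound {p t : ℕ} (hp : p.Prime) (ht : 1 ≤ t) [NeZero (p ^ t)]
    (c : Fin k → Fin N1 → ZMod (p ^ t)) (s0 : Fin k → ZMod (p ^ t))
    (h0 : ∑ e, s0 e • c e = 0) (i0 : Fin k) (hi0 : IsUnit (s0 i0)) :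
    (Finset.univ.filter (fun s : Fin k → ZMod (p ^ t) => ∑ e, s e • c e = 0)).card ≤
      2 * (Finset.univ.filter (fun s : Fin k → ZMod (p ^ t) =>
        (∃ i, IsUnit (s i)) ∧ ∑ e, s e • c e = 0)).card := by
  have h1 := Finset.card_filter_add_card_filter_not
    (s := Finset.univ.filter (fun s : Fin k → ZMod (p ^ t) => ∑ e, s e • c e = 0))
    (fun s => ∃ i, IsUnit (s i))
  rw [← h1]
  have h2 : ((Finset.univ.filter (fun s : Fin k → ZMod (p ^ t) => ∑ e, s e • c e = 0)).filter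
      (fun s => ∃ i, IsUnit (s i))) = Finset.univ.filter (fun s : Fin k → ZMod (p ^ t) =>
        (∃ i, IsUnit (s i)) ∧ ∑ e, s e • c e = 0) := by
    ext s
    simp only [Finset.mem_filter, Finset.mem_univ, true_and]
    exact and_comm
  have h3 : ((Finset.univ.filter (fun s : Fin k → ZMod (p ^ t) => ∑ e, s e • c e = 0)).filter
      (fun s => ¬ ∃ i, IsUnit (s i))).card ≤ (Finset.univ.filter (fun s : Fin k → ZMod (p ^ t) =>
        (∃ i, IsUnit (s i)) ∧ ∑ e, s e • c e = 0)).card := by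
    apply Finset.card_le_card_of_injOn (fun s => s0 + s)
    · intro s hs
      simp only [Finset.coe_filter, Finset.mem_univ, true_and, Set.mem_ofPred_eq,
        Finset.mem_filter] at hs ⊢
      refine ⟨⟨i0, ?_⟩, ?_⟩
      · exact unit_add hp ht hi0 (fun h => hs.2 ⟨i0, h⟩)
      · simp only [Pi.add_apply, add_smul, Finset.sum_add_distrib]
        rw [h0, hs.1, add_zero]
    · intro s _ s' _ h
      exact add_left_cancel h
  rw [h2]
  omega

theorem totient_ge {p t : ℕ} (hp : p.Prime) (ht : 1 ≤ t) : p ^ t ≤ 2 * Nat.totient (p ^ t) := by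
  obtain ⟨u, rfl⟩ : ∃ u, t = u + 1 := ⟨t - 1, by omega⟩
  rw [Nat.totient_prime_pow_succ hp, pow_succ]
  have h2 := hp.two_le
  obtain ⟨r, rfl⟩ : ∃ r, p = r + 2 := ⟨p - 2, by omega⟩
  have h3 : r + 2 - 1 = r + 1 := by omega
  rw [h3]
  have h4 : 0 ≤ (r + 2) ^ u := Nat.zero_le _
  nlinarith

theorem main_count {p t : ℕ} (hp : p.Prime) (ht : 1 ≤ t) (M : Fin k → Matrix (Fin N1) (Fin N2) ℤ)
    (C : ℕ) (hN : N2 ≤ N1) (hq : 4 * C < p ^ t)
    (hC : Nat.card {q : (Fin k → ZMod (p ^ t)) × (Fin N2 → ZMod (p ^ t)) //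
      (∃ i, IsUnit (q.1 i)) ∧ (∃ j, IsUnit (q.2 j)) ∧ ∑ e, q.1 e • cvv M q.2 e = 0} *
      p ^ (t * N1) ≤ C * p ^ (t * (k + N2))) :
    ∃ a : Fin N1 → ZMod (p ^ t), ∀ y : Fin N2 → ZMod (p ^ t), (∃ j, IsUnit (y j)) →
      ∀ s : Fin k → ZMod (p ^ t), (∃ i, IsUnit (s i)) → ∑ e, s e • cvv M y e = 0 →
        ¬ IncB M a y := by
  classical
  have hne : NeZero (p ^ t) := ⟨(pow_pos hp.pos t).ne'⟩
  set q := p ^ t with hqdef
  have hqpos : 0 < q := pow_pos hp.pos t
  by_contra hcon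
  push Not at hcon
  choose Y hY1 S hS1 hS2 hY3 using hcon
  let bad : Finset (Fin N2 → ZMod q) := Finset.univ.filter (fun y => (∃ j, IsUnit (y j)) ∧
    ∃ s : Fin k → ZMod q, (∃ i, IsUnit (s i)) ∧ ∑ e, s e • cvv M y e = 0)
  let Lf : (Fin N2 → ZMod q) → Finset (Fin N1 → ZMod q) := fun y =>
    Finset.univ.filter (fun x => ∀ e, x ⬝ᵥ cvv M y e = 0)
  let Kf : (Fin N2 → ZMod q) → Finset (Fin k → ZMod q) := fun y =>
    Finset.univ.filter (fun s => ∑ e, s e • cvv M y e = 0)
  let Uf : (Fin N2 → ZMod q) → Finset (Fin k → ZMod q) := fun y =>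
    Finset.univ.filter (fun s => (∃ i, IsUnit (s i)) ∧ ∑ e, s e • cvv M y e = 0)
  have hP1 : q ^ N1 * Nat.totient q ≤ (bad.sigma Lf).card := by
    have h1 : (Finset.univ : Finset ((Fin N1 → ZMod q) × (ZMod q)ˣ)).card =
        q ^ N1 * Nat.totient q := by
      rw [Finset.card_univ, Fintype.card_prod, Fintype.card_fun, ZMod.card, Fintype.card_fin,
        ZMod.card_units_eq_totient]
    rw [← h1]
    apply Finset.card_le_card_of_injOn (fun t => ⟨(t.2 : ZMod q) • Y t.1, t.1⟩)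
    · rintro ⟨x, u⟩ _
      rw [Finset.mem_coe, Finset.mem_sigma]
      refine ⟨?_, ?_⟩
      · simp only [bad, Finset.mem_filter, Finset.mem_univ, true_and]
        refine ⟨?_, S x, hS1 x, ?_⟩
        · obtain ⟨j, hj⟩ := hY1 x
          refine ⟨j, ?_⟩
          rw [Pi.smul_apply, smul_eq_mul]
          exact u.isUnit.mul hj
        · have h2 : ∀ e, S x e • cvv M ((u : ZMod q) • Y x) e =
              (u : ZMod q) • (S x e • cvv M (Y x) e) := by
            intro e
            rw [cvv_smul, smul_comm]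
          rw [Finset.sum_congr rfl fun e _ => h2 e, ← Finset.smul_sum, hS2 x, smul_zero]
      · simp only [Lf, Finset.mem_filter, Finset.mem_univ, true_and]
        intro e
        rw [cvv_smul, dotProduct_smul, hY3 x e, smul_zero]
    · rintro ⟨x, u⟩ _ ⟨x', u'⟩ _ h
      simp only [Sigma.mk.injEq, heq_eq_eq] at h
      obtain ⟨h1, h2⟩ := h
      subst h2
      obtain ⟨j, hj⟩ := hY1 x
      have h3 := congrFun h1 j
      simp only [Pi.smul_apply, smul_eq_mul] at h3
      have h4 := hj.mul_right_cancel h3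
      exact Prod.ext rfl (Units.ext h4)
  have hP2 : q ^ k * (bad.sigma Lf).card ≤ 2 * q ^ N1 * (bad.sigma Uf).card := by
    rw [Finset.card_sigma, Finset.card_sigma, Finset.mul_sum, Finset.mul_sum]
    refine Finset.sum_le_sum fun y hy => ?_
    simp only [bad, Finset.mem_filter, Finset.mem_univ, true_and] at hy
    obtain ⟨_, s, ⟨i, hi⟩, hs⟩ := hy
    have h1 := card_ann q (cvv M y)
    have h2 := ker_bound hp ht (cvv M y) s hs i hi
    calc q ^ k * (Lf y).card = q ^ N1 * (Kf y).card := h1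
      _ ≤ q ^ N1 * (2 * (Uf y).card) := Nat.mul_le_mul_left _ h2
      _ = 2 * q ^ N1 * (Uf y).card := by ring
  have hP3 : (bad.sigma Uf).card ≤ Nat.card {q' : (Fin k → ZMod q) × (Fin N2 → ZMod q) //
      (∃ i, IsUnit (q'.1 i)) ∧ (∃ j, IsUnit (q'.2 j)) ∧ ∑ e, q'.1 e • cvv M q'.2 e = 0} := by
    rw [Nat.card_eq_fintype_card, Fintype.card_subtype]
    apply Finset.card_le_card_of_injOn (fun t => (t.2, t.1))
    · rintro ⟨y, s⟩ h
      rw [Finset.mem_coe, Finset.mem_sigma] at h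
      simp only [bad, Uf, Finset.mem_filter, Finset.mem_univ, true_and] at h
      rw [Finset.mem_coe, Finset.mem_filter]
      exact ⟨Finset.mem_univ _, h.2.1, h.1.1, h.2.2⟩
    · rintro ⟨y, s⟩ _ ⟨y', s'⟩ _ h
      simp only [Prod.mk.injEq] at h
      obtain ⟨h1, h2⟩ := h
      subst h1
      subst h2
      rfl
  have htot : q ≤ 2 * Nat.totient q := totient_ge hp ht
  have hC' : (bad.sigma Uf).card * q ^ N1 ≤ C * q ^ (k + N2) := by
    have h1 : p ^ (t * N1) = q ^ N1 := by rw [hqdef, pow_mul]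
    have h2 : p ^ (t * (k + N2)) = q ^ (k + N2) := by rw [hqdef, pow_mul]
    rw [h1, h2] at hC
    exact (Nat.mul_le_mul_right _ hP3).trans hC
  have h1 : q ^ k * (q ^ N1 * q) ≤ 4 * C * q ^ (k + N2) := by
    calc q ^ k * (q ^ N1 * q) ≤ q ^ k * (q ^ N1 * (2 * Nat.totient q)) :=
          Nat.mul_le_mul_left _ (Nat.mul_le_mul_left _ htot)
      _ = 2 * (q ^ k * (q ^ N1 * Nat.totient q)) := by ring
      _ ≤ 2 * (q ^ k * (bad.sigma Lf).card) :=
          Nat.mul_le_mul_left _ (Nat.mul_le_mul_left _ hP1)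
      _ ≤ 2 * (2 * q ^ N1 * (bad.sigma Uf).card) := Nat.mul_le_mul_left _ hP2
      _ = 4 * ((bad.sigma Uf).card * q ^ N1) := by ring
      _ ≤ 4 * (C * q ^ (k + N2)) := Nat.mul_le_mul_left _ hC'
      _ = 4 * C * q ^ (k + N2) := by ring
  have h2 : 4 * C * q ^ (k + N2) < q * q ^ (k + N2) :=
    Nat.mul_lt_mul_of_pos_right hq (pow_pos hqpos _)
  have h3 : q * q ^ (k + N2) ≤ q ^ k * (q ^ N1 * q) := by
    have h4 : q ^ N2 ≤ q ^ N1 := Nat.pow_le_pow_right hqpos hN
    calc q * q ^ (k + N2) = q ^ k * (q ^ N2 * q) := by rw [pow_add]; ring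
      _ ≤ q ^ k * (q ^ N1 * q) := Nat.mul_le_mul_left _ (Nat.mul_le_mul_right _ h4)
  exact absurd (lt_of_le_of_lt h1 h2) (not_lt.mpr h3)

/-- dividing a vector by the gcd of its coordinates -/
theorem prim {N : ℕ} (p : ℕ) (hp : p.Prime) (y : Fin N → ℤ) (hy : y ≠ 0) :
    ∃ (d : ℤ) (y' : Fin N → ℤ), d ≠ 0 ∧ y = d • y' ∧ ∃ j, ¬ (p : ℤ) ∣ y' j := by
  obtain ⟨j0, hj0⟩ := Function.ne_iff.mp hy
  obtain ⟨g, hg1, hg2⟩ := Finset.extract_gcd (s := (Finset.univ : Finset (Fin N))) y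
    ⟨j0, Finset.mem_univ _⟩
  refine ⟨Finset.univ.gcd y, g, ?_, ?_, ?_⟩
  · intro h
    rw [Finset.gcd_eq_zero_iff] at h
    exact hj0 (h j0 (Finset.mem_univ _))
  · funext j
    rw [Pi.smul_apply, smul_eq_mul]
    exact hg1 j (Finset.mem_univ _)
  · by_contra h
    push Not at h
    have h1 : (p : ℤ) ∣ Finset.univ.gcd g := Finset.dvd_gcd fun j _ => h j
    rw [hg2] at h1
    have h2 : p ∣ 1 := by exact_mod_cast h1
    exact hp.one_lt.ne' (Nat.dvd_one.mp h2)

end ModGX

open ModGX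

theorem gX (hGP : StmtGP) (hHC : StmtHC) : StmtGX := by
  classical
  intro k N1 N2 M hN2 hN hM
  rcases Nat.eq_zero_or_pos k with hk | hk
  · subst hk
    exact ⟨1, 0, le_rfl, fun x _ y _ _ => linearIndependent_empty_type⟩
  obtain ⟨p, hfact, hSm⟩ := good_prime hGP M hM
  have hp := hfact.out
  obtain ⟨C, hC⟩ := hHC k N1 N2 M p hSm
  obtain ⟨t, ht, hqt⟩ : ∃ t, 1 ≤ t ∧ 4 * C < p ^ t := by
    refine ⟨4 * C + 1, by omega, ?_⟩
    exact lt_of_lt_of_le (Nat.lt_succ_self _) (Nat.lt_pow_self hp.one_lt).le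
  obtain ⟨a, ha⟩ := main_count hp ht M C hN hqt (hC t ht)
  have hne : NeZero (p ^ t) := ⟨(pow_pos hp.pos t).ne'⟩
  have ha' : ∀ i, ∃ n : ℤ, (n : ZMod (p ^ t)) = a i := fun i => ZMod.intCast_surjective (a i)
  choose b hb using ha'
  refine ⟨p ^ t, b, pow_pos hp.pos t, ?_⟩
  intro x hx y hy hinc
  by_contra hdep
  rw [Fintype.not_linearIndependent_iff] at hdep
  obtain ⟨s, hs, i1, hi1⟩ := hdep
  have hs0 : s ≠ 0 := by
    intro h
    exact hi1 (congrFun h i1)
  obtain ⟨d, y', hd, hyd, j, hj⟩ := prim p hp y hy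
  obtain ⟨c, s', hc, hsc, i, hi⟩ := prim p hp s hs0
  have hinc' : IncB M x y' := by
    intro e
    have h1 := hinc e
    rw [hyd, cvv_smul, dotProduct_smul, smul_eq_mul] at h1
    exact (mul_eq_zero.mp h1).resolve_left hd
  have hs' : ∑ e, s' e • cvv M y' e = 0 := by
    have h1 : (c * d) • ∑ e, s' e • cvv M y' e = 0 := by
      rw [← hs, Finset.smul_sum]
      refine Finset.sum_congr rfl fun e _ => ?_
      rw [hyd, hsc, cvv_smul, Pi.smul_apply, smul_smul, smul_smul, smul_eq_mul]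
      congr 1
      ring
    exact (smul_eq_zero.mp h1).resolve_left (mul_ne_zero hc hd)
  let r : ℤ →+* ZMod (p ^ t) := Int.castRingHom _
  have hxa : ∀ i, r (x i) = a i := by
    intro i
    rw [← hb i]
    show ((x i : ℤ) : ZMod (p ^ t)) = ((b i : ℤ) : ZMod (p ^ t))
    rw [ZMod.intCast_eq_intCast_iff]
    exact (Int.modEq_iff_dvd.mpr (by
      have := hx i
      rw [← neg_sub]
      exact (dvd_neg.mpr this)))
  refine ha (fun j => r (y' j)) ⟨j, ?_⟩ (fun i => r (s' i)) ⟨i, ?_⟩ ?_ ?_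
  · exact (unit_iff hp ht (y' j)).mpr hj
  · exact (unit_iff hp ht (s' i)).mpr hi
  · funext i
    have h1 := congrArg r (congrFun hs' i)
    rw [Finset.sum_apply, map_sum, Pi.zero_apply, map_zero] at h1
    rw [Finset.sum_apply, Pi.zero_apply, ← h1]
    refine Finset.sum_congr rfl fun e _ => ?_
    rw [Pi.smul_apply, Pi.smul_apply, smul_eq_mul, smul_eq_mul, map_mul, map_cvv]
  · intro e
    have h1 := congrArg r (hinc' e)
    rw [map_zero, dotProduct, map_sum] at h1
    rw [dotProduct, ← h1]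
    refine Finset.sum_congr rfl fun i _ => ?_
    rw [map_mul, map_cvv, hxa]

end Pool.Agent.T6.H81.BJ
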