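import Pool.Agent.T6.H81.BJ.Defs

/-!
Module HC (helper71): the number of the solutions modulo the powers of a good prime.
-/

set_option autoImplicit false

namespace Pool.Agent.T6.H81.BJ

open Finset Module Matrix

namespace ModHC

variable {k N1 N2 : ℕ} (M : Fin k → Matrix (Fin N1) (Fin N2) ℤ)

/-- the bilinear forms -/
def B {R : Type*} [CommRing R] (s : Fin k → R) (y : Fin N2 → R) (i : Fin N1) : R :=
  ∑ e, ∑ j, s e * (((M e i j : ℤ) : R) * y j)

theorem sum_eq {R : Type*} [CommRing R] (s : Fin k → R) (y : Fin N2 → R) (i : Fin N1) :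
    (∑ e, s e • cvv M y e) i = B M s y i := by
  unfold B cvv
  rw [Finset.sum_apply]
  refine Finset.sum_congr rfl fun e _ => ?_
  rw [Pi.smul_apply, smul_eq_mul, Matrix.mulVec, dotProduct, Finset.mul_sum]
  rfl

theorem eq_iff {R : Type*} [CommRing R] (s : Fin k → R) (y : Fin N2 → R) :
    ∑ e, s e • cvv M y e = 0 ↔ ∀ i, B M s y i = 0 := by
  constructor
  · intro h i
    rw [← sum_eq, h]
    rfl
  · intro h
    funext i
    rw [sum_eq]
    exact h i

theorem B_map {R R' : Type*} [CommRing R] [CommRing R'] (f : R →+* R') (s : Fin k → R)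
    (y : Fin N2 → R) (i : Fin N1) : f (B M s y i) = B M (fun e => f (s e)) (fun j => f (y j)) i := by
  unfold B
  rw [map_sum]
  refine Finset.sum_congr rfl fun e _ => ?_
  rw [map_sum]
  refine Finset.sum_congr rfl fun j _ => ?_
  rw [map_mul, map_mul, map_intCast]

theorem B_expand {R : Type*} [CommRing R] (s r : Fin k → R) (y r' : Fin N2 → R) {c : R}
    (hc : c * c = 0) (i : Fin N1) :
    B M (fun e => s e + c * r e) (fun j => y j + c * r' j) i =
      B M s y i + c * (B M r y i + B M s r' i) := by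
  unfold B
  rw [mul_add, Finset.mul_sum, Finset.mul_sum, ← Finset.sum_add_distrib, ← Finset.sum_add_distrib]
  refine Finset.sum_congr rfl fun e _ => ?_
  rw [Finset.mul_sum, Finset.mul_sum, ← Finset.sum_add_distrib, ← Finset.sum_add_distrib]
  refine Finset.sum_congr rfl fun j _ => ?_
  linear_combination (r e * (((M e i j : ℤ) : R) * r' j)) * hc

/-- the derivative -/
def L {F : Type*} [Field F] (s0 : Fin k → F) (y0 : Fin N2 → F) :
    ((Fin k → F) × (Fin N2 → F)) →ₗ[F] (Fin N1 → F) where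
  toFun q i := B M q.1 y0 i + B M s0 q.2 i
  map_add' q q' := by
    funext i
    unfold B
    simp only [Prod.fst_add, Prod.snd_add, Pi.add_apply, add_mul, mul_add, Finset.sum_add_distrib]
    ring
  map_smul' a q := by
    funext i
    unfold B
    simp only [Prod.smul_fst, Prod.smul_snd, Pi.smul_apply, smul_eq_mul, RingHom.id_apply, mul_add,
      Finset.mul_sum]
    congr 1
    · refine Finset.sum_congr rfl fun e _ => Finset.sum_congr rfl fun j _ => ?_
      ring
    · refine Finset.sum_congr rfl fun e _ => Finset.sum_congr rfl fun j _ => ?_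
      ring

theorem L_surj {F : Type} [Field F] (hM : SmB F M) {s0 : Fin k → F} {y0 : Fin N2 → F}
    (hs : s0 ≠ 0) (hy : y0 ≠ 0) (h : ∑ e, s0 e • cvv M y0 e = 0) :
    LinearMap.range (L M s0 y0) = ⊤ := by
  classical
  by_contra hne
  obtain ⟨f, hf0, hf⟩ := Submodule.exists_le_ker_of_lt_top _ (lt_top_iff_ne_top.2 hne)
  set x : Fin N1 → F := fun i => f (Pi.single i 1) with hx
  have hfx : ∀ w : Fin N1 → F, f w = ∑ i, x i * w i := by
    intro w
    have h1 : w = ∑ i, w i • (Pi.single i (1 : F) : Fin N1 → F) := by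
      funext i
      simp [Finset.sum_apply, Pi.single_apply]
    conv_lhs => rw [h1]
    rw [map_sum]
    refine Finset.sum_congr rfl fun i _ => ?_
    rw [map_smul, smul_eq_mul, mul_comm]
  have hx0 : x ≠ 0 := by
    intro h0
    apply hf0
    ext w
    simp [hx] at h0
    have h1 := congrFun h0 w
    simpa using h1
  have hker : ∀ q : (Fin k → F) × (Fin N2 → F),
      ∑ i, x i * (B M q.1 y0 i + B M s0 q.2 i) = 0 := by
    intro q
    have h1 : L M s0 y0 q ∈ LinearMap.range (L M s0 y0) := LinearMap.mem_range_self _ q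
    have h2 := hf h1
    rw [LinearMap.mem_ker, hfx] at h2
    exact h2
  refine hM s0 x y0 hs hx0 hy ?_ h ?_
  · intro e
    have h1 := hker (Pi.single e 1, 0)
    have h2 : ∀ i, B M (Pi.single e (1 : F)) y0 i = cvv M y0 e i := by
      intro i
      unfold B cvv
      rw [Finset.sum_eq_single_of_mem e (Finset.mem_univ _)]
      · simp only [Pi.single_eq_same, one_mul, Matrix.mulVec, dotProduct]
        rfl
      · intro e' _ hne
        simp [Pi.single_eq_of_ne hne]
    have h3 : ∀ i, B M s0 (0 : Fin N2 → F) i = 0 := by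
      intro i
      unfold B
      simp
    simp only [h2, h3, add_zero] at h1
    exact h1
  · funext j
    have h1 := hker (0, Pi.single j 1)
    have h2 : ∀ i, B M (0 : Fin k → F) y0 i = 0 := by
      intro i
      unfold B
      simp
    have h3 : ∀ i, B M s0 (Pi.single j (1 : F)) i = ∑ e, s0 e * ((M e i j : ℤ) : F) := by
      intro i
      unfold B
      refine Finset.sum_congr rfl fun e _ => ?_
      rw [Finset.sum_eq_single_of_mem j (Finset.mem_univ _)]
      · simp
      · intro j' _ hne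
        simp [Pi.single_eq_of_ne hne]
    simp only [h2, h3, zero_add] at h1
    rw [Finset.sum_apply]
    simp only [Pi.smul_apply, smul_eq_mul, Pi.zero_apply]
    unfold rvv
    simp only [Matrix.vecMul, dotProduct, Matrix.map_apply]
    simp only [Finset.mul_sum] at h1 ⊢
    rw [Finset.sum_comm, ← h1]
    refine Finset.sum_congr rfl fun i _ => Finset.sum_congr rfl fun e _ => ?_
    ring

theorem card_ker {F : Type} [Field F] [Fintype F] (hM : SmB F M) {s0 : Fin k → F}
    {y0 : Fin N2 → F} (hs : s0 ≠ 0) (hy : y0 ≠ 0) (h : ∑ e, s0 e • cvv M y0 e = 0) :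
    Nat.card (LinearMap.ker (L M s0 y0)) * Nat.card F ^ N1 = Nat.card F ^ (k + N2) := by
  have h1 := LinearMap.finrank_range_add_finrank_ker (L M s0 y0)
  rw [L_surj M hM hs hy h, finrank_top, Module.finrank_prod, Module.finrank_fin_fun,
    Module.finrank_fin_fun, Module.finrank_fin_fun] at h1
  rw [Module.natCard_eq_pow_finrank (K := F), ← pow_add, add_comm, h1]

section

variable {p : ℕ} [hp : Fact p.Prime] (t : ℕ)

/-- reduction modulo `p` -/
def red : ZMod (p ^ (t + 1)) →+* ZMod p :=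
  ZMod.castHom (dvd_pow_self p (Nat.succ_ne_zero t)) (ZMod p)

/-- reduction modulo `p ^ t` -/
def pr : ZMod (p ^ (t + 1)) →+* ZMod (p ^ t) :=
  ZMod.castHom (pow_dvd_pow p (Nat.le_succ t)) (ZMod (p ^ t))

instance : NeZero (p ^ t) := ⟨pow_ne_zero _ hp.out.ne_zero⟩

theorem mul_zero_iff (r : ZMod (p ^ (t + 1))) :
    ((p ^ t : ℕ) : ZMod (p ^ (t + 1))) * r = 0 ↔ red t r = 0 := by
  obtain ⟨a, rfl⟩ := ZMod.natCast_zmod_surjective r
  rw [map_natCast, ← Nat.cast_mul, ZMod.natCast_eq_zero_iff, ZMod.natCast_eq_zero_iff, pow_succ]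
  exact Nat.mul_dvd_mul_iff_left (pow_pos hp.out.pos t)

theorem exists_mul (d : ZMod (p ^ (t + 1))) (h : pr t d = 0) :
    ∃ r : ZMod (p ^ (t + 1)), d = ((p ^ t : ℕ) : ZMod (p ^ (t + 1))) * r := by
  obtain ⟨a, rfl⟩ := ZMod.natCast_zmod_surjective d
  rw [map_natCast, ZMod.natCast_eq_zero_iff] at h
  obtain ⟨b, rfl⟩ := h
  exact ⟨b, by push_cast; ring⟩

/-- the solutions -/
def Sol {R : Type} [CommRing R] (q : (Fin k → R) × (Fin N2 → R)) : Prop :=
  (∃ i, IsUnit (q.1 i)) ∧ (∃ j, IsUnit (q.2 j)) ∧ ∑ e, q.1 e • cvv M q.2 e = 0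

/-- the reduction of a solution -/
theorem Sol.map {M : Fin k → Matrix (Fin N1) (Fin N2) ℤ} {R R' : Type} [CommRing R] [CommRing R']
    (f : R →+* R') {q : (Fin k → R) × (Fin N2 → R)} (h : Sol M q) :
    Sol M ((fun e => f (q.1 e), fun j => f (q.2 j)) : (Fin k → R') × (Fin N2 → R')) := by
  obtain ⟨⟨i, hi⟩, ⟨j, hj⟩, he⟩ := h
  refine ⟨⟨i, hi.map f⟩, ⟨j, hj.map f⟩, ?_⟩
  rw [eq_iff] at he ⊢
  intro i
  have h1 := B_map M f q.1 q.2 i
  rw [he i, map_zero] at h1
  exact h1.symm

open Classical in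
theorem fibre (ht : 1 ≤ t) (hM : SmB (ZMod p) M)
    (q0 : (Fin k → ZMod (p ^ t)) × (Fin N2 → ZMod (p ^ t))) :
    ((Finset.univ : Finset ((Fin k → ZMod (p ^ (t + 1))) × (Fin N2 → ZMod (p ^ (t + 1))))).filter
      (fun q => Sol M q ∧ ((fun e => pr t (q.1 e), fun j => pr t (q.2 j)) :
        (Fin k → ZMod (p ^ t)) × (Fin N2 → ZMod (p ^ t))) = q0)).card * p ^ N1 ≤ p ^ (k + N2) := by
  set Fb := (Finset.univ : Finset ((Fin k → ZMod (p ^ (t + 1))) × (Fin N2 → ZMod (p ^ (t + 1))))).filter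
      (fun q => Sol M q ∧ ((fun e => pr t (q.1 e), fun j => pr t (q.2 j)) :
        (Fin k → ZMod (p ^ t)) × (Fin N2 → ZMod (p ^ t))) = q0) with hFb
  rcases Fb.eq_empty_or_nonempty with h0 | ⟨q1, hq1⟩
  · rw [h0, Finset.card_empty, zero_mul]
    exact Nat.zero_le _
  rw [hFb, Finset.mem_filter] at hq1
  obtain ⟨-, hs1, hr1⟩ := hq1
  set c : ZMod (p ^ (t + 1)) := ((p ^ t : ℕ) : ZMod (p ^ (t + 1))) with hc
  have hcc : c * c = 0 := by
    rw [hc, ← Nat.cast_mul, ZMod.natCast_eq_zero_iff, ← pow_add]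
    exact pow_dvd_pow p (by omega)
  set s0 : Fin k → ZMod p := fun e => red t (q1.1 e) with hs0
  set y0 : Fin N2 → ZMod p := fun j => red t (q1.2 j) with hy0
  have hs0' : s0 ≠ 0 := by
    obtain ⟨i, hi⟩ := hs1.1
    intro h
    exact (hi.map (red t)).ne_zero (congrFun h i)
  have hy0' : y0 ≠ 0 := by
    obtain ⟨i, hi⟩ := hs1.2.1
    intro h
    exact (hi.map (red t)).ne_zero (congrFun h i)
  have hred := (hs1.map (red t)).2.2
  have hker := card_ker M hM hs0' hy0' hred
  rw [Nat.card_eq_fintype_card (α := ZMod p), ZMod.card] at hker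
  rw [← hker]
  refine Nat.mul_le_mul_right _ ?_
  -- the map to the kernel
  have hex : ∀ q ∈ Fb, ∃ r : (Fin k → ZMod (p ^ (t + 1))) × (Fin N2 → ZMod (p ^ (t + 1))),
      (∀ e, q.1 e = q1.1 e + c * r.1 e) ∧ ∀ j, q.2 j = q1.2 j + c * r.2 j := by
    intro q hq
    rw [hFb, Finset.mem_filter] at hq
    have h1 := hq.2.2.trans hr1.symm
    rw [Prod.mk.injEq] at h1
    have h2 : ∀ e, ∃ r, q.1 e - q1.1 e = c * r := fun e => exists_mul t _ (by
      rw [map_sub, sub_eq_zero]
      exact congrFun h1.1 e)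
    have h3 : ∀ j, ∃ r, q.2 j - q1.2 j = c * r := fun j => exists_mul t _ (by
      rw [map_sub, sub_eq_zero]
      exact congrFun h1.2 j)
    choose r hr using h2
    choose r' hr' using h3
    exact ⟨(r, r'), fun e => by rw [← hr e]; ring, fun j => by rw [← hr' j]; ring⟩
  choose! r hr using hex
  have hmem : ∀ q ∈ Fb, ((fun e => red t ((r q).1 e), fun j => red t ((r q).2 j)) :
      (Fin k → ZMod p) × (Fin N2 → ZMod p)) ∈ LinearMap.ker (L M s0 y0) := by
    intro q hq
    obtain ⟨h1, h2⟩ := hr q hq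
    rw [hFb, Finset.mem_filter] at hq
    have h3 := (eq_iff M _ _).1 hq.2.1.2.2
    have h4 := (eq_iff M _ _).1 hs1.2.2
    rw [LinearMap.mem_ker]
    funext i
    have h5 := h3 i
    have e1 : q.1 = fun e => q1.1 e + c * (r q).1 e := funext h1
    have e2 : q.2 = fun j => q1.2 j + c * (r q).2 j := funext h2
    rw [e1, e2, B_expand M _ _ _ _ hcc, h4 i, zero_add, hc, mul_zero_iff, map_add, B_map, B_map] at h5
    exact h5
  have hfin : Finite (LinearMap.ker (L M s0 y0)) := inferInstance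
  calc Fb.card = Nat.card Fb := by rw [Nat.card_eq_fintype_card, Fintype.card_coe]
    _ ≤ Nat.card (LinearMap.ker (L M s0 y0)) := by
        refine Nat.card_le_card_of_injective (fun q : Fb => ⟨_, hmem q.1 q.2⟩) ?_
        rintro ⟨q, hq⟩ ⟨q', hq'⟩ he
        rw [Subtype.mk.injEq, Prod.mk.injEq] at he
        obtain ⟨h1, h2⟩ := hr q hq
        obtain ⟨h1', h2'⟩ := hr q' hq'
        have key : ∀ a b : ZMod (p ^ (t + 1)), red t a = red t b → c * a = c * b := by
          intro a b hab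
          have h3 : c * (a - b) = 0 := by
            rw [hc, mul_zero_iff, map_sub, hab, sub_self]
          rw [mul_sub] at h3
          exact sub_eq_zero.1 h3
        refine Subtype.ext (Prod.ext (funext fun e => ?_) (funext fun j => ?_))
        · rw [h1 e, h1' e, key _ _ (congrFun he.1 e)]
        · rw [h2 j, h2' j, key _ _ (congrFun he.2 j)]

open Classical in
theorem step (ht : 1 ≤ t) (hM : SmB (ZMod p) M) :
    Nat.card {q : (Fin k → ZMod (p ^ (t + 1))) × (Fin N2 → ZMod (p ^ (t + 1))) // Sol M q} * p ^ N1 ≤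
      p ^ (k + N2) * Nat.card {q : (Fin k → ZMod (p ^ t)) × (Fin N2 → ZMod (p ^ t)) // Sol M q} := by
  rw [Nat.card_eq_fintype_card, Nat.card_eq_fintype_card, Fintype.card_subtype,
    Fintype.card_subtype]
  have h1 := Finset.card_eq_sum_card_fiberwise
    (s := (Finset.univ : Finset ((Fin k → ZMod (p ^ (t + 1))) ×
      (Fin N2 → ZMod (p ^ (t + 1))))).filter (fun q => Sol M q))
    (t := (Finset.univ : Finset ((Fin k → ZMod (p ^ t)) ×
      (Fin N2 → ZMod (p ^ t)))).filter (fun q => Sol M q))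
    (f := fun q => ((fun e => pr t (q.1 e), fun j => pr t (q.2 j)) :
        (Fin k → ZMod (p ^ t)) × (Fin N2 → ZMod (p ^ t)))) (by
      intro q hq
      rw [Finset.mem_coe, Finset.mem_filter] at hq ⊢
      exact ⟨Finset.mem_univ _, hq.2.map (pr t)⟩)
  rw [h1, Finset.sum_mul, mul_comm (p ^ (k + N2)), ← smul_eq_mul]
  refine Finset.sum_le_card_nsmul _ _ _ fun q0 _ => ?_
  rw [Finset.filter_filter]
  exact fibre M t ht hM q0

end

end ModHC

open ModHC in
theorem hC : StmtHC := by
  intro k N1 N2 M p hp hM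
  refine ⟨p ^ N1, fun t ht => ?_⟩
  change Nat.card {q : (Fin k → ZMod (p ^ t)) × (Fin N2 → ZMod (p ^ t)) // Sol M q} *
    p ^ (t * N1) ≤ p ^ N1 * p ^ (t * (k + N2))
  induction t, ht using Nat.le_induction with
  | base =>
    have h1 : Nat.card {q : (Fin k → ZMod (p ^ 1)) × (Fin N2 → ZMod (p ^ 1)) // Sol M q} ≤
        p ^ (k + N2) := by
      have : NeZero (p ^ 1) := ⟨pow_ne_zero _ hp.out.ne_zero⟩
      refine (Finite.card_subtype_le _).trans (le_of_eq ?_)
      rw [Nat.card_prod, Nat.card_fun, Nat.card_fun, Nat.card_zmod, Nat.card_fin, Nat.card_fin,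
        pow_one, pow_add]
    rw [one_mul, one_mul, mul_comm]
    exact Nat.mul_le_mul_left _ h1
  | succ t ht ih =>
    have h1 := step M t ht hM
    calc Nat.card {q : (Fin k → ZMod (p ^ (t + 1))) × (Fin N2 → ZMod (p ^ (t + 1))) // Sol M q} *
          p ^ ((t + 1) * N1)
        = (Nat.card {q : (Fin k → ZMod (p ^ (t + 1))) × (Fin N2 → ZMod (p ^ (t + 1))) // Sol M q} *
          p ^ N1) * p ^ (t * N1) := by
          rw [add_mul, one_mul, pow_add]; ring
      _ ≤ (p ^ (k + N2) *
          Nat.card {q : (Fin k → ZMod (p ^ t)) × (Fin N2 → ZMod (p ^ t)) // Sol M q}) *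
          p ^ (t * N1) := Nat.mul_le_mul_right _ h1
      _ = p ^ (k + N2) * (Nat.card {q : (Fin k → ZMod (p ^ t)) × (Fin N2 → ZMod (p ^ t)) // Sol M q} *
          p ^ (t * N1)) := by ring
      _ ≤ p ^ (k + N2) * (p ^ N1 * p ^ (t * (k + N2))) := Nat.mul_le_mul_left _ ih
      _ = p ^ N1 * p ^ ((t + 1) * (k + N2)) := by
          rw [add_mul, one_mul, pow_add _ (t * (k + N2))]; ring

end Pool.Agent.T6.H81.BJ
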