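import Mathlib
import Pool.Agent.T6.H81.BJ.Fsb
import Pool.Agent.T6.H81.BG.S6

/-! Module MR: polynomials of type `(1, 1)` as matrices. -/

set_option autoImplicit false

namespace Pool.Agent.T6.H81.BJ

open Finset Module Matrix
open Pool.Agent.H548.TL (evz evz_map)
open Pool.Agent.T6.H5.TW (fl MultiDeg)
open Pool.Agent.T6.H81.BG (Pt Zr cf)

namespace MR0

/-- the point with given blocks -/
def pt2 {R : Type*} [CommRing R] {n : Fin 2 → ℕ} (a : Fin (n 0) → R) (b : Fin (n 1) → R) :
    ∀ i, Fin (n i) → R :=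
  Function.update (Function.update (fun _ _ => 0) 0 a) 1 b

theorem pt2_zero {R : Type*} [CommRing R] {n : Fin 2 → ℕ} (a : Fin (n 0) → R)
    (b : Fin (n 1) → R) : pt2 (n := n) a b 0 = a := by
  unfold pt2
  rw [Function.update_of_ne (by decide), Function.update_self]

theorem pt2_one {R : Type*} [CommRing R] {n : Fin 2 → ℕ} (a : Fin (n 0) → R)
    (b : Fin (n 1) → R) : pt2 (n := n) a b 1 = b := by
  unfold pt2
  rw [Function.update_self]

theorem eq_pt2 {R : Type*} [CommRing R] {n : Fin 2 → ℕ} (x : ∀ i, Fin (n i) → R) :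
    x = pt2 (x 0) (x 1) := by
  funext i
  fin_cases i
  · exact (pt2_zero (n := n) _ _).symm
  · exact (pt2_one (n := n) _ _).symm

theorem upd0 {R : Type*} [CommRing R] {n : Fin 2 → ℕ} (a a' : Fin (n 0) → R)
    (b : Fin (n 1) → R) : Function.update (pt2 (n := n) a b) 0 a' = pt2 a' b := by
  rw [eq_pt2 (Function.update (pt2 (n := n) a b) 0 a'), Function.update_self,
    Function.update_of_ne (by decide), pt2_one]

theorem upd1 {R : Type*} [CommRing R] {n : Fin 2 → ℕ} (a : Fin (n 0) → R)
    (b b' : Fin (n 1) → R) : Function.update (pt2 (n := n) a b) 1 b' = pt2 a b' := by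
  rw [eq_pt2 (Function.update (pt2 (n := n) a b) 1 b'), Function.update_self,
    Function.update_of_ne (by decide), pt2_zero]

theorem main {n : Fin 2 → ℕ} (p : MvPolynomial (Σ i, Fin (n i)) ℤ)
    (h : MultiDeg p (fun _ => 1)) (R : Type) [CommRing R] (x : ∀ i, Fin (n i) → R) :
    evz p (fl x) = x 0 ⬝ᵥ ((Matrix.of fun i j => evz p (fl (pt2 (R := ℤ) (Pi.single i 1)
      (Pi.single j 1)))).map (Int.cast : ℤ → R) *ᵥ x 1) := by
  have h0 : ∀ a b, evz p (fl (pt2 (n := n) (R := R) a b)) =
      ∑ s, evz p (fl (pt2 (n := n) (R := R) (Pi.single s 1) b)) * a s := by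
    intro a b
    have := BG.S6.lin h (v := 0) rfl (pt2 (n := n) a b) a
    simp only [upd0] at this
    exact this.symm
  have h1 : ∀ a b, evz p (fl (pt2 (n := n) (R := R) a b)) =
      ∑ s, evz p (fl (pt2 (n := n) (R := R) a (Pi.single s 1))) * b s := by
    intro a b
    have := BG.S6.lin h (v := 1) rfl (pt2 (n := n) a b) b
    simp only [upd1] at this
    exact this.symm
  have hc : ∀ i j, evz p (fl (pt2 (n := n) (R := R) (Pi.single i 1) (Pi.single j 1))) =
      ((evz p (fl (pt2 (n := n) (R := ℤ) (Pi.single i 1) (Pi.single j 1))) : ℤ) : R) := by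
    intro i j
    have := evz_map (Int.castRingHom R) p (fl (pt2 (n := n) (R := ℤ) (Pi.single i 1)
      (Pi.single j 1)))
    rw [eq_intCast] at this
    rw [this]
    congr 1
    have hs : ∀ (N : ℕ) (q q' : Fin N), (Pi.single q (1 : R) : Fin N → R) q' =
        (Int.castRingHom R) ((Pi.single q (1 : ℤ) : Fin N → ℤ) q') := by
      intro N q q'
      by_cases hq : q' = q
      · subst hq
        simp
      · rw [Pi.single_eq_of_ne hq, Pi.single_eq_of_ne hq, map_zero]
    funext q
    obtain ⟨v, t⟩ := q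
    show pt2 (n := n) (R := R) (Pi.single i 1) (Pi.single j 1) v t =
      (Int.castRingHom R) (pt2 (n := n) (R := ℤ) (Pi.single i 1) (Pi.single j 1) v t)
    fin_cases v
    · exact (congrFun (pt2_zero (n := n) _ _) t).trans ((hs _ _ _).trans
        (congrArg (Int.castRingHom R) (congrFun (pt2_zero (n := n) _ _) t).symm))
    · exact (congrFun (pt2_one (n := n) _ _) t).trans ((hs _ _ _).trans
        (congrArg (Int.castRingHom R) (congrFun (pt2_one (n := n) _ _) t).symm))
  conv_lhs => rw [eq_pt2 x]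
  rw [h0]
  unfold dotProduct mulVec dotProduct
  refine Finset.sum_congr rfl fun i _ => ?_
  rw [h1, Finset.sum_mul, Finset.mul_sum]
  refine Finset.sum_congr rfl fun j _ => ?_
  rw [hc]
  show _ = x 0 i * (((evz p (fl (pt2 (n := n) (R := ℤ) (Pi.single i 1) (Pi.single j 1))) : ℤ) : R)
    * x 1 j)
  ring

end MR0

open MR0 in
/-- Module MR. -/
theorem mR0 : StmtMR := by
  intro k n F hF
  refine ⟨fun e => Matrix.of fun i j => evz (F e) (fl (pt2 (R := ℤ) (Pi.single i 1)
      (Pi.single j 1))), fun R _ x e => ⟨main (F e) (hF e) R x, ?_, ?_⟩⟩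
  · funext s
    show evz (F e) (fl (Function.update x 0 (Pi.single s 1))) = _
    rw [main (F e) (hF e) R, Function.update_self, Function.update_of_ne (by decide),
      single_one_dotProduct]
    rfl
  · funext s
    show evz (F e) (fl (Function.update x 1 (Pi.single s 1))) = _
    rw [main (F e) (hF e) R, Function.update_self, Function.update_of_ne (by decide),
      dotProduct_mulVec, dotProduct_single_one]
    rfl

end Pool.Agent.T6.H81.BJ
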