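import Mathlib
import Pool.Agent.T6.H81.BJ.Defs
import Pool.Agent.H548.TL.Fo

/-! Module NE: the open set is not empty. -/

set_option autoImplicit false

namespace Pool.Agent.T6.H81.BJ.ModNE

open Module Matrix Topology
open Pool.Agent.H548.TL (first_order)

theorem exists_max {α : Type*} (S : Set α) (hS : S.Nonempty) (f : α → ℕ) (B : ℕ)
    (hB : ∀ a, f a ≤ B) : ∃ a ∈ S, ∀ b ∈ S, f b ≤ f a := by
  have h1 : (f '' S).Nonempty := hS.image f
  have h2 : BddAbove (f '' S) := ⟨B, by rintro _ ⟨a, -, rfl⟩; exact hB a⟩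
  obtain ⟨a, ha, hfa⟩ := Nat.sSup_mem h1 h2
  refine ⟨a, ha, fun b hb => ?_⟩
  rw [hfa]
  exact le_csSup h2 ⟨b, hb, rfl⟩

variable {k N1 N2 : ℕ}

/-- The matrix with the columns `cvv M y e`. -/
noncomputable def CV (M : Fin k → Matrix (Fin N1) (Fin N2) ℤ) (y : Fin N2 → ℂ) :
    Matrix (Fin N1) (Fin k) ℂ := Matrix.of fun p i => cvv M y i p

theorem CV_mulVec (M : Fin k → Matrix (Fin N1) (Fin N2) ℤ) (y : Fin N2 → ℂ)
    (s : Fin k → ℂ) : CV M y *ᵥ s = ∑ i, s i • cvv M y i := by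
  funext p
  rw [Finset.sum_apply]
  unfold CV mulVec dotProduct
  refine Finset.sum_congr rfl fun i _ => ?_
  simp [mul_comm]

theorem vecMul_CV (M : Fin k → Matrix (Fin N1) (Fin N2) ℤ) (y : Fin N2 → ℂ) (ξ : Fin N1 → ℂ) :
    ξ ᵥ* CV M y = fun i => ξ ⬝ᵥ cvv M y i := rfl

theorem CV_add (M : Fin k → Matrix (Fin N1) (Fin N2) ℤ) (y y' : Fin N2 → ℂ) (t : ℂ) :
    CV M (y + t • y') = CV M y + t • CV M y' := by
  ext p i
  unfold CV cvv
  simp only [Matrix.of_apply, Matrix.add_apply, Matrix.smul_apply, smul_eq_mul]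
  rw [mulVec_add, mulVec_smul]
  rfl

theorem CV_zero (M : Fin k → Matrix (Fin N1) (Fin N2) ℤ) : CV M 0 = 0 := by
  ext p i
  unfold CV cvv
  simp

theorem dot_cv (M : Fin k → Matrix (Fin N1) (Fin N2) ℤ) (x : Fin N1 → ℂ) (y : Fin N2 → ℂ)
    (i : Fin k) : x ⬝ᵥ cvv M y i = rvv M x i ⬝ᵥ y := by
  unfold cvv rvv
  rw [dotProduct_mulVec]

theorem cv_tr (M : Fin k → Matrix (Fin N1) (Fin N2) ℤ) (x : Fin N1 → ℂ) :
    cvv (trB M) x = rvv M x := by
  funext i
  unfold rvv cvv trB
  rw [transpose_map, mulVec_transpose]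

theorem dep_cv {M : Fin k → Matrix (Fin N1) (Fin N2) ℤ} {y : Fin N2 → ℂ}
    (h : ¬ LinearIndependent ℂ (cvv M y)) : ∃ s : Fin k → ℂ, s ≠ 0 ∧ CV M y *ᵥ s = 0 := by
  rw [Fintype.linearIndependent_iff] at h
  push Not at h
  obtain ⟨g, hg, i, hi⟩ := h
  refine ⟨g, fun h0 => hi (congrFun h0 i), ?_⟩
  rw [CV_mulVec]
  exact hg

theorem exists_inc (M : Fin k → Matrix (Fin N1) (Fin N2) ℤ) (hkN : k < N1)
    (y : Fin N2 → ℂ) : ∃ x : Fin N1 → ℂ, x ≠ 0 ∧ IncB M x y := by
  have h := LinearMap.ker_ne_bot_of_finrank_lt (f := (CV M y)ᵀ.mulVecLin) (by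
    rw [finrank_fintype_fun_eq_card, finrank_fintype_fun_eq_card, Fintype.card_fin,
      Fintype.card_fin]
    exact hkN)
  obtain ⟨x, hx, hx0⟩ := Submodule.exists_mem_ne_zero_of_ne_bot h
  refine ⟨x, hx0, fun i => ?_⟩
  rw [LinearMap.mem_ker, Matrix.mulVecLin_apply, mulVec_transpose] at hx
  exact congrFun hx i

/-- There is a nondegenerate `y`. -/
theorem exists_y {M : Fin k → Matrix (Fin N1) (Fin N2) ℤ} (hs : SmB ℂ M)
    (hkN : k < N1) (hN2 : 0 < N2) : ∃ y : Fin N2 → ℂ, y ≠ 0 ∧ LinearIndependent ℂ (cvv M y) := by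
  have hS : ({y : Fin N2 → ℂ | y ≠ 0}).Nonempty := by
    refine ⟨fun _ => 1, ?_⟩
    intro h
    have := congrFun h ⟨0, by omega⟩
    simp at this
  obtain ⟨y, hy, hmax⟩ := exists_max {y : Fin N2 → ℂ | y ≠ 0} hS (fun y => (CV M y).rank) N1
    (fun y => by simpa using (CV M y).rank_le_height)
  have hmax' : ∀ y', (CV M y').rank ≤ (CV M y).rank := by
    intro y'
    by_cases h : y' = 0
    · rw [h, CV_zero, rank_zero]
      omega
    · exact hmax y' h
  refine ⟨y, hy, ?_⟩
  by_contra hdep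
  obtain ⟨s, hs0, hsy⟩ := dep_cv hdep
  obtain ⟨ξ, hξ0, hξ⟩ := exists_inc M hkN y
  have hrel : ∀ y' : Fin N2 → ℂ, (∑ i, s i • rvv M ξ i) ⬝ᵥ y' = 0 := by
    intro y'
    have h1 := first_order (CV M y) (CV M y') (Filter.Eventually.of_forall fun t => by
      rw [← CV_add]
      exact hmax' _) (ξ := ξ) (η := s) (by
        rw [vecMul_CV]
        funext i
        exact hξ i) hsy
    rw [CV_mulVec, dotProduct_sum] at h1
    rw [sum_dotProduct, ← h1]
    refine Finset.sum_congr rfl fun i _ => ?_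
    rw [smul_dotProduct, dotProduct_smul, dot_cv]
  have h2 : ∑ i, s i • rvv M ξ i = 0 := dotProduct_eq_zero _ hrel
  rw [CV_mulVec] at hsy
  exact hs s ξ y hs0 hξ0 hy hξ hsy h2

end Pool.Agent.T6.H81.BJ.ModNE

namespace Pool.Agent.T6.H81.BJ

open Module Matrix Topology ModNE
open Pool.Agent.H548.TL (first_order)

/-- **Module NE.** -/
theorem nE : StmtNE := by
  intro k N1 N2 M hk hN1 hN2 hs
  obtain ⟨y, hy, hyi⟩ := exists_y hs (by omega) (by omega)
  -- maximal rank over the fibre of `y`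
  have hS : ({x : Fin N1 → ℂ | x ≠ 0 ∧ IncB M x y}).Nonempty := exists_inc M (by omega) y
  obtain ⟨x, ⟨hx, hxy⟩, hmax⟩ := exists_max {x : Fin N1 → ℂ | x ≠ 0 ∧ IncB M x y} hS
    (fun x => (CV (trB M) x).rank) N2 (fun x => by simpa using (CV (trB M) x).rank_le_height)
  have hmax' : ∀ x', IncB M x' y → (CV (trB M) x').rank ≤ (CV (trB M) x).rank := by
    intro x' hx'
    by_cases h : x' = 0
    · rw [h, CV_zero, rank_zero]
      omega
    · exact hmax x' ⟨h, hx'⟩
  refine ⟨x, y, hxy, ?_, hyi⟩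
  by_contra hdep
  rw [← cv_tr] at hdep
  obtain ⟨s, hs0, hsx⟩ := dep_cv hdep
  -- the kernel
  set Λ := LinearMap.ker ((CV (trB M) x)ᵀ).mulVecLin with hΛ
  have hmemΛ : ∀ η, η ∈ Λ ↔ ∀ i, rvv M x i ⬝ᵥ η = 0 := by
    intro η
    rw [hΛ, LinearMap.mem_ker, Matrix.mulVecLin_apply, mulVec_transpose, vecMul_CV, cv_tr]
    constructor
    · intro h i
      rw [dotProduct_comm]
      exact congrFun h i
    · intro h
      funext i
      rw [dotProduct_comm]
      exact h i
  have hrank : (CV (trB M) x).rank + 1 ≤ k := by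
    have h1 := LinearMap.finrank_range_add_finrank_ker (CV (trB M) x).mulVecLin
    rw [finrank_fintype_fun_eq_card, Fintype.card_fin] at h1
    have h2 : 0 < finrank ℂ (LinearMap.ker (CV (trB M) x).mulVecLin) := by
      rw [Nat.pos_iff_ne_zero]
      intro h
      rw [Submodule.finrank_eq_zero] at h
      apply hs0
      have h3 : s ∈ LinearMap.ker (CV (trB M) x).mulVecLin := by
        rw [LinearMap.mem_ker, Matrix.mulVecLin_apply]
        exact hsx
      rw [h] at h3
      simpa using h3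
    have h4 : finrank ℂ (LinearMap.range (CV (trB M) x).mulVecLin) = (CV (trB M) x).rank := rfl
    omega
  have hdimΛ : k < finrank ℂ Λ := by
    have h1 := LinearMap.finrank_range_add_finrank_ker ((CV (trB M) x)ᵀ).mulVecLin
    rw [finrank_fintype_fun_eq_card, Fintype.card_fin] at h1
    have h2 : finrank ℂ (LinearMap.range ((CV (trB M) x)ᵀ).mulVecLin) =
        (CV (trB M) x).rank := by
      have h3 : ((CV (trB M) x)ᵀ).rank = (CV (trB M) x).rank := rank_transpose _
      exact h3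
    have h5 : finrank ℂ Λ = finrank ℂ (LinearMap.ker ((CV (trB M) x)ᵀ).mulVecLin) := rfl
    omega
  -- the images are in the span of the columns
  set V0 := Submodule.span ℂ (Set.range (cvv M y)) with hV0
  have himg : ∀ η ∈ Λ, CV M η *ᵥ s ∈ V0 := by
    intro η hη
    by_contra hnot
    obtain ⟨φ, hφ, hφ0⟩ := Submodule.exists_dual_map_eq_bot_of_notMem hnot inferInstance
    set x' : Fin N1 → ℂ := fun p => φ (Pi.single p 1) with hx'
    have hφx : ∀ w : Fin N1 → ℂ, φ w = x' ⬝ᵥ w := by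
      intro w
      have : w = ∑ p, w p • (Pi.single p (1 : ℂ) : Fin N1 → ℂ) := by
        funext q
        rw [Finset.sum_apply]
        simp [Pi.single_apply]
      conv_lhs => rw [this]
      rw [map_sum]
      unfold dotProduct
      refine Finset.sum_congr rfl fun p _ => ?_
      rw [map_smul, smul_eq_mul, mul_comm]
    have hx'y : IncB M x' y := by
      intro i
      rw [← hφx]
      have h1 : φ (cvv M y i) ∈ Submodule.map φ V0 :=
        ⟨cvv M y i, Submodule.subset_span ⟨i, rfl⟩, rfl⟩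
      rw [hφ0] at h1
      simpa using h1
    have h1 := first_order (CV (trB M) x) (CV (trB M) x') (by
      refine Filter.Eventually.of_forall fun t => ?_
      rw [← CV_add]
      apply hmax'
      intro i
      rw [add_dotProduct, smul_dotProduct, hxy i, hx'y i]
      simp) (ξ := η) (η := s) (by
        rw [vecMul_CV, cv_tr]
        funext i
        rw [dotProduct_comm]
        exact (hmemΛ η).1 hη i) hsx
    apply hφ
    rw [hφx, CV_mulVec, dotProduct_sum]
    rw [CV_mulVec, dotProduct_sum] at h1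
    rw [← h1]
    refine Finset.sum_congr rfl fun i _ => ?_
    rw [dotProduct_smul, dotProduct_smul, dot_cv, cv_tr, dotProduct_comm (rvv M x' i) η]
  let T : Λ →ₗ[ℂ] V0 :=
    { toFun := fun η => ⟨CV M η.1 *ᵥ s, himg η.1 η.2⟩
      map_add' := by
        intro a b
        apply Subtype.ext
        show CV M (a.1 + b.1) *ᵥ s = CV M a.1 *ᵥ s + CV M b.1 *ᵥ s
        have := CV_add M a.1 b.1 1
        rw [one_smul, one_smul] at this
        rw [this, add_mulVec]
      map_smul' := by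
        intro c a
        apply Subtype.ext
        show CV M (c • a.1) *ᵥ s = c • (CV M a.1 *ᵥ s)
        have := CV_add M 0 a.1 c
        rw [zero_add, CV_zero, zero_add] at this
        rw [this, smul_mulVec] }
  have hdimV : finrank ℂ V0 ≤ k := by
    have := finrank_range_le_card (R := ℂ) (cvv M y)
    rwa [Fintype.card_fin] at this
  have hker := LinearMap.ker_ne_bot_of_finrank_lt (f := T) (by omega)
  obtain ⟨η, hη, hη0⟩ := Submodule.exists_mem_ne_zero_of_ne_bot hker
  have hη1 : CV M η.1 *ᵥ s = 0 := by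
    rw [LinearMap.mem_ker] at hη
    exact congrArg Subtype.val hη
  have hη2 : η.1 ≠ 0 := fun h => hη0 (Subtype.ext h)
  rw [CV_mulVec] at hη1 hsx
  rw [cv_tr] at hsx
  refine hs s x η.1 hs0 hx hη2 ?_ hη1 hsx
  intro i
  rw [dot_cv]
  exact (hmemΛ η.1).1 η.2 i

end Pool.Agent.T6.H81.BJ
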