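import Mathlib
import Pool.Agent.T6.H81.BJ.Fin7

/-!
Smooth complete intersections of divisors of type `(1, 1)`: a complex point of the open set.
-/

set_option autoImplicit false

namespace Pool.Agent.T6.H81.BJ

open Pool.Agent.H548.TL (evz)
open Pool.Agent.T6.H5.TW (fl MultiDeg)
open Pool.Agent.T6.H81.BG (Zr cf)

open Fsb Fin7 in
/-- The open set is not empty. -/
theorem nonempty_U (hMR : StmtMR) (hNE : StmtNE) {k : ℕ} {n : Fin 2 → ℕ}
    (hk : 1 ≤ k) (hn : ∀ v, 2 * k + 1 ≤ n v)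
    (F : Fin k → MvPolynomial (Σ i, Fin (n i)) ℤ) (hF : ∀ e, MultiDeg (F e) (fun _ => 1))
    (hsm : ∀ z : ∀ v, Fin (n v) → ℂ, (∀ v, z v ≠ 0) → Zr F z →
      LinearIndependent ℂ (fun (e : Fin k) (v : Fin 2) => cf F e v z)) :
    ∃ z : ∀ i, Fin (n i) → ℂ, Zr F z ∧ ∀ v, LinearIndependent ℂ (fun e => cf F e v z) := by
  obtain ⟨M, hM'⟩ := hMR k n F hF
  have hM : MRep F M := hM'
  have hs := smooth hM hsm
  obtain ⟨x, y, hxy, hx, hy⟩ := hNE k (n 0) (n 1) M hk (hn 0) (hn 1) hs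
  refine ⟨mk2 x y, (zr_inc hM _).2 hxy, forall2.2 ⟨?_, ?_⟩⟩
  · rw [cf0 hM]
    exact hy
  · rw [cf1 hM]
    exact hx

end Pool.Agent.T6.H81.BJ
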