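import Pool.Agent.T6.H81.BJ.GX
import Pool.Agent.T6.H81.BJ.HC

/-!
Module WJ (helper71): the number of the `y` for which the vectors `M e * y` have a small rank.
-/

set_option autoImplicit false

namespace Pool.Agent.T6.H81.BJ

open Finset Module Matrix
open Pool.Agent.H548.WM (ht bx mem_bx Rep)
open Pool.Agent.H548.TL (evz)

namespace ModWJ

open ModHC

/-! ### The kernel of an integral matrix of small rank -/

theorem range_le {N k : ℕ} (A : Matrix (Fin N) (Fin k) ℤ) :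
    finrank ℤ (LinearMap.range A.mulVecLin) ≤ (A.map (Int.cast : ℤ → ℚ)).rank := by
  set b := Module.finBasis ℤ (LinearMap.range A.mulVecLin) with hb
  set v : Fin (finrank ℤ (LinearMap.range A.mulVecLin)) → (Fin N → ℚ) :=
    fun i l => (((b i : LinearMap.range A.mulVecLin) : Fin N → ℤ) l : ℚ) with hv
  have hli : LinearIndependent ℤ v := by
    have h1 : LinearIndependent ℤ (fun i => ((b i : LinearMap.range A.mulVecLin) : Fin N → ℤ)) :=
      b.linearIndependent.map' (Submodule.subtype _) (Submodule.ker_subtype _)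
    let φ : (Fin N → ℤ) →ₗ[ℤ] (Fin N → ℚ) := (Int.castAddHom ℚ).toIntLinearMap.compLeft (Fin N)
    have h2 := h1.map' φ (LinearMap.ker_eq_bot.2 (by
      intro a c hac
      funext l
      have := congrFun hac l
      simpa [φ] using this))
    exact h2
  have hliQ : LinearIndependent ℚ v := (LinearIndependent.iff_fractionRing ℤ ℚ).1 hli
  have hmem : ∀ i, v i ∈ LinearMap.range (A.map (Int.cast : ℤ → ℚ)).mulVecLin := by
    intro i
    obtain ⟨c, hc⟩ := (b i).2
    refine ⟨fun e => (c e : ℚ), ?_⟩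
    funext l
    have h3 := congrFun hc l
    rw [hv]
    simp only
    rw [← h3]
    simp [Matrix.mulVec, dotProduct]
  unfold Matrix.rank
  have h4 : LinearIndependent ℚ (fun i => (⟨v i, hmem i⟩ :
      LinearMap.range (A.map (Int.cast : ℤ → ℚ)).mulVecLin)) :=
    LinearIndependent.of_comp (Submodule.subtype _) hliQ
  have h5 := h4.fintype_card_le_finrank
  rwa [Fintype.card_fin] at h5

/-- a part of a basis of the kernel with dual functionals on the whole lattice -/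
theorem ker_basis {N k j : ℕ} (A : Matrix (Fin N) (Fin k) ℤ)
    (hA : (A.map (Int.cast : ℤ → ℚ)).rank ≤ j) :
    ∃ (b : Fin (k - j) → (Fin k → ℤ)) (d : Fin (k - j) → ((Fin k → ℤ) →ₗ[ℤ] ℤ)),
      (∀ i, A *ᵥ b i = 0) ∧ ∀ i i', d i (b i') = if i' = i then 1 else 0 := by
  classical
  set f := A.mulVecLin with hf
  obtain ⟨σ, hσ⟩ := Module.projective_lifting_property (f.rangeRestrict) LinearMap.id
    f.surjective_rangeRestrict
  have hσ' : ∀ v, f (σ (f.rangeRestrict v)) = f v := by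
    intro v
    have h1 := LinearMap.congr_fun hσ (f.rangeRestrict v)
    have h2 := congrArg Subtype.val h1
    simpa using h2
  let P : (Fin k → ℤ) →ₗ[ℤ] LinearMap.ker f :=
    LinearMap.codRestrict (LinearMap.ker f) (LinearMap.id - σ ∘ₗ f.rangeRestrict) (by
      intro v
      rw [LinearMap.mem_ker, LinearMap.sub_apply, map_sub, LinearMap.id_apply,
        LinearMap.comp_apply, hσ', sub_self])
  have hP : ∀ v : LinearMap.ker f, P v = v := by
    intro v
    ext1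
    show (v : Fin k → ℤ) - σ (f.rangeRestrict v) = v
    have : f.rangeRestrict (v : Fin k → ℤ) = 0 := by
      ext1
      exact v.2
    rw [this, map_zero, sub_zero]
  set B := Module.finBasis ℤ (LinearMap.ker f) with hB
  have hr : k - j ≤ finrank ℤ (LinearMap.ker f) := by
    have h1 := Submodule.finrank_quotient_add_finrank (LinearMap.ker f)
    rw [Module.finrank_fin_fun, LinearEquiv.finrank_eq f.quotKerEquivRange] at h1
    have h2 := range_le A
    rw [← hf] at h2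
    omega
  refine ⟨fun i => (B (Fin.castLE hr i) : Fin k → ℤ),
    fun i => (B.coord (Fin.castLE hr i)) ∘ₗ P, fun i => ?_, fun i i' => ?_⟩
  · have := LinearMap.mem_ker.1 (B (Fin.castLE hr i)).2
    exact this
  · rw [LinearMap.comp_apply, hP, Basis.coord_apply, Basis.repr_self, Finsupp.single_apply]
    simp only [Fin.castLE_inj]

/-! ### The kernel modulo a power of `p` -/

theorem sum_nonunit {p t k : ℕ} (hp : p.Prime) (ht : 1 ≤ t) (s c : Fin k → ZMod (p ^ t))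
    (h : ∑ e, s e * c e = 1) : ∃ i, IsUnit (s i) := by
  by_contra hne
  push Not at hne
  have : Fact p.Prime := ⟨hp⟩
  let ψ : ZMod (p ^ t) →+* ZMod p := ZMod.castHom (dvd_pow_self p (by omega)) (ZMod p)
  have h1 : ∀ e, ψ (s e) = 0 := by
    intro e
    obtain ⟨n, hn⟩ := ZMod.intCast_surjective (s e)
    have h2 := hne e
    rw [← hn, ModGX.unit_iff hp ht, not_not] at h2
    rw [← hn, map_intCast]
    exact (ZMod.intCast_zmod_eq_zero_iff_dvd n p).2 h2
  have h3 := congrArg ψ h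
  rw [map_sum, map_one] at h3
  have h4 : ∑ e, ψ (s e * c e) = 0 := Finset.sum_eq_zero fun e _ => by
    rw [map_mul, h1, zero_mul]
  rw [h4] at h3
  exact zero_ne_one h3

open Classical in
theorem ker_ge {k N1 N2 j p t : ℕ} (hp : p.Prime) (ht : 1 ≤ t) [NeZero (p ^ t)] (hj : j < k)
    (M : Fin k → Matrix (Fin N1) (Fin N2) ℤ) (y : Fin N2 → ℤ) (h : rky M y ≤ j) :
    (p ^ t) ^ (k - j) ≤ 2 * (Finset.univ.filter (fun s : Fin k → ZMod (p ^ t) =>
      (∃ i, IsUnit (s i)) ∧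
        ∑ e, s e • cvv M (fun l => ((y l : ℤ) : ZMod (p ^ t))) e = 0)).card := by
  set A : Matrix (Fin N1) (Fin k) ℤ := Matrix.of fun i e => cvv M y e i with hA
  have hr : (A.map (Int.cast : ℤ → ℚ)).rank ≤ j := by
    have h1 : A.map (Int.cast : ℤ → ℚ) =
        (Matrix.of fun (e : Fin k) (i : Fin N1) => ((cvv M y e i : ℤ) : ℚ))ᵀ := by
      ext i e
      rfl
    rw [h1, Matrix.rank_transpose]
    exact h
  obtain ⟨b, d, hb, hd⟩ := ker_basis A hr
  let S : (Fin (k - j) → ZMod (p ^ t)) → (Fin k → ZMod (p ^ t)) :=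
    fun a e => ∑ i, a i * ((b i e : ℤ) : ZMod (p ^ t))
  have hc : ∀ e i, cvv M (fun l => ((y l : ℤ) : ZMod (p ^ t))) e i =
      ((cvv M y e i : ℤ) : ZMod (p ^ t)) := by
    intro e i
    exact (ModGX.map_cvv (Int.castRingHom (ZMod (p ^ t))) M y e i).symm
  have hS : ∀ a, ∑ e, S a e • cvv M (fun l => ((y l : ℤ) : ZMod (p ^ t))) e = 0 := by
    intro a
    funext i
    rw [Finset.sum_apply]
    simp only [Pi.smul_apply, hc, smul_eq_mul, S, Finset.sum_mul, Pi.zero_apply]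
    rw [Finset.sum_comm]
    refine Finset.sum_eq_zero fun l _ => ?_
    have h2 := congrFun (hb l) i
    have h3 : ∑ e, cvv M y e i * b l e = 0 := h2
    have h4 : ∑ e, ((cvv M y e i : ℤ) : ZMod (p ^ t)) * ((b l e : ℤ) : ZMod (p ^ t)) = 0 := by
      have := congrArg (Int.cast : ℤ → ZMod (p ^ t)) h3
      push_cast at this
      exact this
    calc ∑ e, a l * ((b l e : ℤ) : ZMod (p ^ t)) * ((cvv M y e i : ℤ) : ZMod (p ^ t))
        = a l * ∑ e, ((cvv M y e i : ℤ) : ZMod (p ^ t)) * ((b l e : ℤ) : ZMod (p ^ t)) := by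
          rw [Finset.mul_sum]
          exact Finset.sum_congr rfl fun e _ => by ring
      _ = 0 := by rw [h4, mul_zero]
  let D : Fin (k - j) → Fin k → ℤ := fun i e => d i (fun l => if e = l then 1 else 0)
  have hdexp : ∀ i (v : Fin k → ℤ), d i v = ∑ e, v e * D i e := by
    intro i v
    rw [LinearMap.pi_apply_eq_sum_univ (d i) v]
    rfl
  have hD : ∀ i a, ∑ e, S a e * ((D i e : ℤ) : ZMod (p ^ t)) = a i := by
    intro i a
    simp only [S, Finset.sum_mul]
    rw [Finset.sum_comm]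
    have h1 : ∀ l, ∑ e, a l * ((b l e : ℤ) : ZMod (p ^ t)) * ((D i e : ℤ) : ZMod (p ^ t)) =
        if l = i then a l else 0 := by
      intro l
      have h2 : ∑ e, ((b l e : ℤ) : ZMod (p ^ t)) * ((D i e : ℤ) : ZMod (p ^ t)) =
          ((if l = i then 1 else 0 : ℤ) : ZMod (p ^ t)) := by
        rw [← hd i l, hdexp i (b l)]
        push_cast
        rfl
      calc ∑ e, a l * ((b l e : ℤ) : ZMod (p ^ t)) * ((D i e : ℤ) : ZMod (p ^ t))
          = a l * ∑ e, ((b l e : ℤ) : ZMod (p ^ t)) * ((D i e : ℤ) : ZMod (p ^ t)) := by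
            rw [Finset.mul_sum]
            exact Finset.sum_congr rfl fun e _ => by ring
        _ = if l = i then a l else 0 := by
            rw [h2]
            split_ifs <;> simp
    rw [Finset.sum_congr rfl fun l _ => h1 l, Finset.sum_ite_eq' Finset.univ i a]
    simp
  have hinj : Function.Injective S := by
    intro a a' haa
    funext i
    rw [← hD i a, ← hD i a', haa]
  let i0 : Fin (k - j) := ⟨0, by omega⟩
  have h0 := hD i0 (Pi.single i0 1)
  rw [Pi.single_eq_same] at h0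
  obtain ⟨i1, hi1⟩ := sum_nonunit hp ht _ _ h0
  have h5 := ModGX.ker_bound hp ht
    (fun e => cvv M (fun l => ((y l : ℤ) : ZMod (p ^ t))) e) (S (Pi.single i0 1))
    (hS _) i1 hi1
  refine le_trans ?_ h5
  have h6 : (p ^ t) ^ (k - j) = (Finset.univ : Finset (Fin (k - j) → ZMod (p ^ t))).card := by
    rw [Finset.card_univ, Fintype.card_fun, ZMod.card, Fintype.card_fin]
  rw [h6]
  refine Finset.card_le_card_of_injOn S ?_ hinj.injOn
  intro a _
  rw [Finset.mem_coe, Finset.mem_filter]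
  exact ⟨Finset.mem_univ _, hS a⟩

open Classical in
theorem count1 {k N1 N2 p t j : ℕ} (hp : p.Prime) (ht : 1 ≤ t) [NeZero (p ^ t)] (hj : j < k)
    (M : Fin k → Matrix (Fin N1) (Fin N2) ℤ)
    (Y : Finset (Fin N2 → ℤ)) (h1 : ∀ y ∈ Y, rky M y ≤ j) (h2 : ∀ y ∈ Y, ∃ l, ¬ (p : ℤ) ∣ y l)
    (h3 : ∀ y ∈ Y, ∀ y' ∈ Y, (∀ l, ((y l : ℤ) : ZMod (p ^ t)) = ((y' l : ℤ) : ZMod (p ^ t))) →
      y = y') :
    Y.card * (p ^ t) ^ (k - j) ≤ 2 * Nat.card {q : (Fin k → ZMod (p ^ t)) ×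
      (Fin N2 → ZMod (p ^ t)) //
      (∃ i, IsUnit (q.1 i)) ∧ (∃ j, IsUnit (q.2 j)) ∧ ∑ e, q.1 e • cvv M q.2 e = 0} := by
  let F : (Fin N2 → ℤ) → Finset (Fin k → ZMod (p ^ t)) := fun y =>
    Finset.univ.filter (fun s : Fin k → ZMod (p ^ t) =>
      (∃ i, IsUnit (s i)) ∧
        ∑ e, s e • cvv M (fun l => ((y l : ℤ) : ZMod (p ^ t))) e = 0)
  have h4 : Y.card * (p ^ t) ^ (k - j) ≤ ∑ y ∈ Y, 2 * (F y).card := by
    rw [← smul_eq_mul]
    exact Finset.card_nsmul_le_sum _ _ _ fun y hy => ker_ge hp ht hj M y (h1 y hy)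
  refine h4.trans ?_
  rw [← Finset.mul_sum, ← Finset.card_sigma]
  refine Nat.mul_le_mul_left 2 ?_
  rw [Nat.card_eq_fintype_card, Fintype.card_subtype]
  refine Finset.card_le_card_of_injOn
    (fun z : (Σ _ : (Fin N2 → ℤ), (Fin k → ZMod (p ^ t))) =>
      ((z.2, fun l => ((z.1 l : ℤ) : ZMod (p ^ t))) : (Fin k → ZMod (p ^ t)) ×
      (Fin N2 → ZMod (p ^ t)))) ?_ ?_
  · rintro ⟨y, s⟩ hz
    rw [Finset.mem_coe, Finset.mem_sigma] at hz
    obtain ⟨hy, hs⟩ := hz
    have hs' := (Finset.mem_filter.1 hs).2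
    rw [Finset.mem_coe, Finset.mem_filter]
    obtain ⟨l, hl⟩ := h2 y hy
    exact ⟨Finset.mem_univ _, hs'.1, ⟨l, (ModGX.unit_iff hp ht _).2 hl⟩, hs'.2⟩
  · rintro ⟨y, s⟩ hz ⟨y', s'⟩ hz' he
    rw [Finset.mem_coe, Finset.mem_sigma] at hz hz'
    simp only [Prod.mk.injEq] at he
    obtain ⟨e1, e2⟩ := he
    have h5 := h3 y hz.1 y' hz'.1 (fun l => congrFun e2 l)
    subst h5
    subst e1
    rfl

open Classical in
/-- the vectors which are not divisible by `p` -/
noncomputable def Wp {k N1 N2 : ℕ} (M : Fin k → Matrix (Fin N1) (Fin N2) ℤ) (p j ρ : ℕ) :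
    Finset (Fin N2 → ℤ) :=
  (bx N2 ρ).filter fun y => rky M y ≤ j ∧ ∃ l, ¬ (p : ℤ) ∣ y l

theorem mem_bx' {N ρ : ℕ} {y : Fin N → ℤ} : y ∈ bx N ρ ↔ ∀ l, -(ρ : ℤ) ≤ y l ∧ y l ≤ ρ := by
  unfold bx
  rw [Fintype.mem_piFinset]
  simp only [Finset.mem_Icc]

theorem count2 {k N1 N2 p j : ℕ} [hp : Fact p.Prime] (hj : j < k)
    (M : Fin k → Matrix (Fin N1) (Fin N2) ℤ) (C : ℕ) (hC : ∀ t : ℕ, 1 ≤ t →
    Nat.card {q : (Fin k → ZMod (p ^ t)) × (Fin N2 → ZMod (p ^ t)) //
      (∃ i, IsUnit (q.1 i)) ∧ (∃ j, IsUnit (q.2 j)) ∧ ∑ e, q.1 e • cvv M q.2 e = 0} *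
      p ^ (t * N1) ≤ C * p ^ (t * (k + N2))) (ρ : ℕ) (hρ : 1 ≤ ρ) :
    (Wp M p j ρ).card * ρ ^ N1 ≤ 2 * C * (2 * p) ^ (j + N2) * ρ ^ (j + N2) := by
  classical
  have hp2 := hp.out.two_le
  have hex : ∃ t, 2 * ρ < p ^ t :=
    ⟨2 * ρ, lt_of_lt_of_le (Nat.lt_two_pow_self) (Nat.pow_le_pow_left hp2 _)⟩
  let t := Nat.find hex
  have ht1 : 2 * ρ < p ^ t := Nat.find_spec hex
  have ht0 : t ≠ 0 := by
    intro h
    rw [h, pow_zero] at ht1
    omega
  have ht : 1 ≤ t := by omega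
  have ht2 : p ^ (t - 1) ≤ 2 * ρ := by
    have := Nat.find_min hex (m := t - 1) (by omega)
    omega
  have ht3 : p ^ t ≤ 2 * p * ρ := by
    have : p ^ t = p * p ^ (t - 1) := by
      rw [← pow_succ']
      congr 1
      omega
    rw [this]
    calc p * p ^ (t - 1) ≤ p * (2 * ρ) := Nat.mul_le_mul_left _ ht2
      _ = 2 * p * ρ := by ring
  have : NeZero (p ^ t) := ⟨pow_ne_zero _ hp.out.ne_zero⟩
  have h1 := count1 hp.out ht hj M (Wp M p j ρ)
    (fun y hy => (Finset.mem_filter.1 hy).2.1) (fun y hy => (Finset.mem_filter.1 hy).2.2) (by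
      intro y hy y' hy' he
      funext l
      have hb := mem_bx'.1 (Finset.mem_filter.1 hy).1 l
      have hb' := mem_bx'.1 (Finset.mem_filter.1 hy').1 l
      have h2 := (ZMod.intCast_eq_intCast_iff_dvd_sub _ _ _).1 (he l)
      have h3 : (2 * ρ : ℤ) < ((p ^ t : ℕ) : ℤ) := by exact_mod_cast ht1
      have h4 := Int.eq_zero_of_abs_lt_dvd h2 (by
        rw [abs_lt]
        constructor <;> omega)
      omega)
  have h2 := hC t ht
  have h3 : (Wp M p j ρ).card * (p ^ t) ^ N1 * (p ^ t) ^ (k - j) ≤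
      2 * C * (p ^ t) ^ (j + N2) * (p ^ t) ^ (k - j) := by
    calc (Wp M p j ρ).card * (p ^ t) ^ N1 * (p ^ t) ^ (k - j)
        = ((Wp M p j ρ).card * (p ^ t) ^ (k - j)) * (p ^ t) ^ N1 := by ring
      _ ≤ (2 * Nat.card {q : (Fin k → ZMod (p ^ t)) × (Fin N2 → ZMod (p ^ t)) //
          (∃ i, IsUnit (q.1 i)) ∧ (∃ j, IsUnit (q.2 j)) ∧ ∑ e, q.1 e • cvv M q.2 e = 0}) *
          (p ^ t) ^ N1 := Nat.mul_le_mul_right _ h1
      _ = 2 * (Nat.card {q : (Fin k → ZMod (p ^ t)) × (Fin N2 → ZMod (p ^ t)) //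
          (∃ i, IsUnit (q.1 i)) ∧ (∃ j, IsUnit (q.2 j)) ∧ ∑ e, q.1 e • cvv M q.2 e = 0} *
          p ^ (t * N1)) := by rw [pow_mul]; ring
      _ ≤ 2 * (C * p ^ (t * (k + N2))) := Nat.mul_le_mul_left _ h2
      _ = 2 * C * (p ^ t) ^ (j + N2) * (p ^ t) ^ (k - j) := by
          rw [pow_mul, mul_assoc (2 * C), ← pow_add]
          have : k + N2 = j + N2 + (k - j) := by omega
          rw [this]
          ring
  have h4 : (Wp M p j ρ).card * (p ^ t) ^ N1 ≤ 2 * C * (p ^ t) ^ (j + N2) :=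
    Nat.le_of_mul_le_mul_right h3 (pow_pos (pow_pos hp.out.pos _) _)
  calc (Wp M p j ρ).card * ρ ^ N1 ≤ (Wp M p j ρ).card * (p ^ t) ^ N1 :=
        Nat.mul_le_mul_left _ (Nat.pow_le_pow_left (by omega) _)
    _ ≤ 2 * C * (p ^ t) ^ (j + N2) := h4
    _ ≤ 2 * C * (2 * p * ρ) ^ (j + N2) :=
        Nat.mul_le_mul_left _ (Nat.pow_le_pow_left ht3 _)
    _ = 2 * C * (2 * p) ^ (j + N2) * ρ ^ (j + N2) := by rw [mul_pow]; ring

/-! ### Multiples -/

theorem rank_smul' {m n : Type} [Fintype m] [Fintype n] {c : ℚ} (hc : c ≠ 0)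
    (A : Matrix m n ℚ) : (c • A).rank = A.rank := by
  classical
  apply le_antisymm
  · have h := Matrix.rank_mul_le_left A (c • (1 : Matrix n n ℚ))
    rwa [Matrix.mul_smul, Matrix.mul_one] at h
  · have h := Matrix.rank_mul_le_left (c • A) (c⁻¹ • (1 : Matrix n n ℚ))
    rwa [Matrix.mul_smul, Matrix.mul_one, smul_smul, inv_mul_cancel₀ hc, one_smul] at h

theorem rky_smul {k N1 N2 : ℕ} (M : Fin k → Matrix (Fin N1) (Fin N2) ℤ) (y : Fin N2 → ℤ)
    {c : ℤ} (hc : c ≠ 0) : rky M (c • y) = rky M y := by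
  unfold rky
  have h1 : (Matrix.of fun (e : Fin k) (i : Fin N1) => ((cvv M (c • y) e i : ℤ) : ℚ)) =
      (c : ℚ) • (Matrix.of fun (e : Fin k) (i : Fin N1) => ((cvv M y e i : ℤ) : ℚ)) := by
    ext e i
    show ((cvv M (c • y) e i : ℤ) : ℚ) = (c : ℚ) * ((cvv M y e i : ℤ) : ℚ)
    rw [ModGX.cvv_smul, Pi.smul_apply, smul_eq_mul, Int.cast_mul]
  rw [h1]
  have hcq : (c : ℚ) ≠ 0 := by exact_mod_cast hc
  exact rank_smul' hcq _

/-- there are no vectors at all if the expected dimension is not positive -/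
theorem empty {k N1 N2 p j : ℕ} [hp : Fact p.Prime] 
    (M : Fin k → Matrix (Fin N1) (Fin N2) ℤ) (C : ℕ)
    (hC : ∀ ρ : ℕ, 1 ≤ ρ → (Wp M p j ρ).card * ρ ^ N1 ≤ C * ρ ^ (j + N2))
    (hd : j + N2 ≤ N1) (ρ : ℕ) : Wp M p j ρ = ∅ := by
  classical
  rw [Finset.eq_empty_iff_forall_notMem]
  intro y hy
  obtain ⟨hb, hr, l, hl⟩ := Finset.mem_filter.1 hy
  set R : ℕ := (C * p + 1) * (ρ + 1) with hR
  have hR1 : 1 ≤ R := Nat.one_le_iff_ne_zero.2 (by positivity)
  have h1 : C + 1 ≤ (Wp M p j R).card := by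
    have h2 : (Finset.range (C + 1)).card ≤ (Wp M p j R).card := by
      refine Finset.card_le_card_of_injOn (fun i => ((1 + p * i : ℕ) : ℤ) • y) ?_ ?_
      · intro i hi
        rw [Finset.mem_coe, Finset.mem_range] at hi
        have hi' : i ≤ C := by omega
        rw [Finset.mem_coe]
        unfold Wp
        rw [Finset.mem_filter, mem_bx']
        refine ⟨fun l => ?_, ?_, l, ?_⟩
        · have h3 := mem_bx'.1 hb l
          have h4 : |((1 + p * i : ℕ) : ℤ) * y l| ≤ (R : ℤ) := by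
            rw [abs_mul, hR]
            have h5 : |y l| ≤ ((ρ + 1 : ℕ) : ℤ) := by
              rw [abs_le]
              push_cast
              constructor <;> omega
            have h6 : |((1 + p * i : ℕ) : ℤ)| ≤ ((C * p + 1 : ℕ) : ℤ) := by
              rw [abs_of_nonneg (by positivity)]
              have : 1 + p * i ≤ C * p + 1 := by nlinarith
              exact_mod_cast this
            calc |((1 + p * i : ℕ) : ℤ)| * |y l| ≤ ((C * p + 1 : ℕ) : ℤ) * ((ρ + 1 : ℕ) : ℤ) :=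
                  mul_le_mul h6 h5 (abs_nonneg _) (by positivity)
              _ = (((C * p + 1) * (ρ + 1) : ℕ) : ℤ) := by push_cast; ring
          have h7 := abs_le.1 h4
          exact ⟨h7.1, h7.2⟩
        · rw [rky_smul M y (by positivity)]
          exact hr
        · intro hdv
          have h3 : (p : ℤ) ∣ ((1 + p * i : ℕ) : ℤ) * y l := hdv
          rcases (Nat.prime_iff_prime_int.1 hp.out).dvd_or_dvd h3 with h4 | h4
          · push_cast at h4
            have h5 : (p : ℤ) ∣ 1 := (dvd_add_left (dvd_mul_right _ _)).1 h4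
            have h6 : p ∣ 1 := by exact_mod_cast h5
            exact hp.out.one_lt.ne' (Nat.dvd_one.1 h6)
          · exact hl h4
      · intro i _ i' _ he
        have h3 := congrFun he l
        have hy0 : y l ≠ 0 := fun h0 => hl (h0 ▸ dvd_zero _)
        have h4 : ((1 + p * i : ℕ) : ℤ) = ((1 + p * i' : ℕ) : ℤ) := mul_right_cancel₀ hy0 h3
        have h5 : 1 + p * i = 1 + p * i' := by exact_mod_cast h4
        exact Nat.eq_of_mul_eq_mul_left hp.out.pos (by omega)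
    rwa [Finset.card_range] at h2
  have h3 := hC R hR1
  have h4 : C * R ^ (j + N2) ≤ C * R ^ N1 :=
    Nat.mul_le_mul_left _ (Nat.pow_le_pow_right hR1 hd)
  have h5 : (Wp M p j R).card ≤ C :=
    Nat.le_of_mul_le_mul_right (h3.trans h4) (pow_pos hR1 _)
  omega

/-- taking out the power of `p` -/
theorem exists_pow {N p : ℕ} (hp : p.Prime) (y : Fin N → ℤ) (hy : y ≠ 0) :
    ∃ (a : ℕ) (y' : Fin N → ℤ), y = ((p : ℤ) ^ a) • y' ∧ ∃ l, ¬ (p : ℤ) ∣ y' l := by
  obtain ⟨l, hl⟩ := Function.ne_iff.1 hy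
  by_contra hne
  push Not at hne
  have h1 : ∀ a : ℕ, ∃ y' : Fin N → ℤ, y = ((p : ℤ) ^ a) • y' := by
    intro a
    induction a with
    | zero => exact ⟨y, by rw [pow_zero, one_smul]⟩
    | succ a ih =>
      obtain ⟨y', hy'⟩ := ih
      have h2 := hne a y' hy'
      choose z hz using h2
      refine ⟨z, ?_⟩
      rw [hy']
      funext i
      simp only [Pi.smul_apply, smul_eq_mul]
      rw [hz i]
      ring
  obtain ⟨y', hy'⟩ := h1 ((y l).natAbs)
  have h2 := congrFun hy' l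
  simp only [Pi.smul_apply, smul_eq_mul] at h2
  have h3 : (y l).natAbs = p ^ (y l).natAbs * (y' l).natAbs := by
    conv_lhs => rw [h2]
    rw [Int.natAbs_mul, Int.natAbs_pow, Int.natAbs_natCast]
  have h4 : (y l).natAbs < p ^ (y l).natAbs :=
    lt_of_lt_of_le (Nat.lt_two_pow_self) (Nat.pow_le_pow_left hp.two_le _)
  have h5 : (y l).natAbs ≠ 0 := Int.natAbs_ne_zero.2 hl
  have h6 : (y' l).natAbs ≠ 0 := by
    intro h0
    rw [h0, mul_zero] at h3
    exact h5 h3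
  have h7 : p ^ (y l).natAbs * 1 ≤ p ^ (y l).natAbs * (y' l).natAbs :=
    Nat.mul_le_mul_left _ (by omega)
  omega

open Classical in
theorem cover {k N1 N2 p j : ℕ} (hp : p.Prime)
    (M : Fin k → Matrix (Fin N1) (Fin N2) ℤ) (ρ : ℕ) :
    ((bx N2 ρ).filter fun y => y ≠ 0 ∧ rky M y ≤ j) ⊆
      ((Finset.range (ρ + 1)).filter fun a => p ^ a ≤ ρ).biUnion fun a =>
        (Wp M p j (ρ / p ^ a)).image fun y => ((p : ℤ) ^ a) • y := by
  intro y hy
  obtain ⟨hb, hy0, hr⟩ := Finset.mem_filter.1 hy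
  obtain ⟨a, y', rfl, l, hl⟩ := exists_pow hp y hy0
  have hpa : 0 < p ^ a := pow_pos hp.pos a
  have hb' : ∀ i, (p : ℤ) ^ a * |y' i| ≤ ρ := by
    intro i
    have h1 := mem_bx'.1 hb i
    have h2 : |((p : ℤ) ^ a) * y' i| ≤ ρ := abs_le.2 ⟨h1.1, h1.2⟩
    rwa [abs_mul, abs_of_nonneg (by positivity)] at h2
  have hyl : 1 ≤ |y' l| := Int.one_le_abs fun h0 => hl (h0 ▸ dvd_zero _)
  have h3 : p ^ a ≤ ρ := by
    have h4 := hb' l
    have h5 : ((p ^ a : ℕ) : ℤ) * 1 ≤ ((p ^ a : ℕ) : ℤ) * |y' l| :=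
      mul_le_mul_of_nonneg_left hyl (by positivity)
    push_cast at h5
    have h6 : (p : ℤ) ^ a ≤ ρ := by linarith
    exact_mod_cast h6
  rw [Finset.mem_biUnion]
  refine ⟨a, ?_, ?_⟩
  · rw [Finset.mem_filter, Finset.mem_range]
    refine ⟨?_, h3⟩
    have h4 : a < p ^ a := lt_of_lt_of_le (Nat.lt_two_pow_self) (Nat.pow_le_pow_left hp.two_le _)
    omega
  · rw [Finset.mem_image]
    refine ⟨y', ?_, rfl⟩
    unfold Wp
    rw [Finset.mem_filter, mem_bx']
    refine ⟨fun i => ?_, ?_, l, hl⟩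
    · have h4 := hb' i
      have h5 : (y' i).natAbs ≤ ρ / p ^ a := by
        rw [Nat.le_div_iff_mul_le hpa]
        have h6 : (((y' i).natAbs * p ^ a : ℕ) : ℤ) ≤ (ρ : ℤ) := by
          push_cast
          rw [mul_comm]
          exact h4
        exact_mod_cast h6
      have h7 : |y' i| ≤ ((ρ / p ^ a : ℕ) : ℤ) := by
        rw [Int.abs_eq_natAbs]
        exact_mod_cast h5
      have h8 := abs_le.1 h7
      exact ⟨h8.1, h8.2⟩
    · rwa [rky_smul M y' (by exact_mod_cast hpa.ne')] at hr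

end ModWJ

open ModWJ in
/-- Module WJ. -/
theorem wJ (hGP : StmtGP) (hHC : StmtHC) : StmtWJ := by
  classical
  intro k N1 N2 M hM j hj
  obtain ⟨p, hp, hMp⟩ := ModGX.good_prime hGP M hM
  obtain ⟨C0, hC0⟩ := hHC k N1 N2 M p hMp
  set C : ℕ := 2 * C0 * (2 * p) ^ (j + N2) with hC
  have h1 : ∀ ρ : ℕ, 1 ≤ ρ → (Wp M p j ρ).card * ρ ^ N1 ≤ C * ρ ^ (j + N2) :=
    fun ρ hρ => count2 hj M C0 hC0 ρ hρ
  by_cases hd : j + N2 ≤ N1
  · refine ⟨0, le_rfl, fun ρ hρ => ?_⟩
    have h2 : ((bx N2 ρ).filter fun y => y ≠ 0 ∧ rky M y ≤ j) = ∅ := by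
      have h3 := cover (j := j) hp.out M ρ
      rw [Finset.eq_empty_iff_forall_notMem]
      intro y hy
      have h4 := h3 hy
      rw [Finset.mem_biUnion] at h4
      obtain ⟨a, -, ha⟩ := h4
      rw [empty M C h1 hd, Finset.image_empty] at ha
      exact Finset.notMem_empty _ ha
    rw [h2, Finset.card_empty, Nat.cast_zero, zero_mul, zero_mul]
  · obtain ⟨n, hn⟩ : ∃ n, j + N2 = N1 + (n + 1) := ⟨j + N2 - N1 - 1, by omega⟩
    refine ⟨2 * C, by positivity, fun ρ hρ => ?_⟩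
    have h2 : ∀ ρ : ℕ, 1 ≤ ρ → (Wp M p j ρ).card ≤ C * ρ ^ (n + 1) := by
      intro ρ hρ
      have h3 := h1 ρ hρ
      rw [hn, pow_add, mul_comm (ρ ^ N1), ← mul_assoc] at h3
      exact Nat.le_of_mul_le_mul_right h3 (pow_pos hρ _)
    have h3 : (((bx N2 ρ).filter fun y => y ≠ 0 ∧ rky M y ≤ j).card : ℝ) ≤
        2 * C * (ρ : ℝ) ^ (n + 1) := by
      have h4 : ((bx N2 ρ).filter fun y => y ≠ 0 ∧ rky M y ≤ j).card ≤
          ∑ a ∈ (Finset.range (ρ + 1)).filter (fun a => p ^ a ≤ ρ),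
            (Wp M p j (ρ / p ^ a)).card :=
        (Finset.card_le_card (cover (j := j) hp.out M ρ)).trans
          (Finset.card_biUnion_le.trans (Finset.sum_le_sum fun a _ => Finset.card_image_le))
      have h5 : ∀ a ∈ (Finset.range (ρ + 1)).filter (fun a => p ^ a ≤ ρ),
          ((Wp M p j (ρ / p ^ a)).card : ℝ) ≤ C * (ρ : ℝ) ^ (n + 1) * (1 / 2) ^ a := by
        intro a ha
        have hpa : p ^ a ≤ ρ := (Finset.mem_filter.1 ha).2
        have hpa0 : 0 < p ^ a := pow_pos hp.out.pos a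
        have h6 := h2 (ρ / p ^ a) ((Nat.one_le_div_iff hpa0).2 hpa)
        have h7 : ((ρ / p ^ a : ℕ) : ℝ) ≤ (ρ : ℝ) * (1 / 2) ^ a := by
          refine (Nat.cast_div_le).trans ?_
          rw [_root_.one_div_pow, mul_one_div]
          refine div_le_div_of_nonneg_left (by positivity) (by positivity) ?_
          push_cast
          exact pow_le_pow_left₀ (by norm_num) (by exact_mod_cast hp.out.two_le) a
        calc ((Wp M p j (ρ / p ^ a)).card : ℝ) ≤ ((C * (ρ / p ^ a) ^ (n + 1) : ℕ) : ℝ) := by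
              exact_mod_cast h6
          _ = C * ((ρ / p ^ a : ℕ) : ℝ) ^ (n + 1) := by push_cast; rfl
          _ ≤ C * ((ρ : ℝ) * (1 / 2) ^ a) ^ (n + 1) := by
              refine mul_le_mul_of_nonneg_left ?_ (by positivity)
              exact pow_le_pow_left₀ (by positivity) h7 _
          _ = C * (ρ : ℝ) ^ (n + 1) * ((1 / 2) ^ a) ^ (n + 1) := by rw [mul_pow]; ring
          _ ≤ C * (ρ : ℝ) ^ (n + 1) * (1 / 2) ^ a := by
              refine mul_le_mul_of_nonneg_left ?_ (by positivity)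
              have h8 : (0 : ℝ) ≤ (1 / 2) ^ a := by positivity
              have h9 : ((1 : ℝ) / 2) ^ a ≤ 1 := pow_le_one₀ (by norm_num) (by norm_num)
              exact pow_le_of_le_one h8 h9 (Nat.succ_ne_zero n)
      calc (((bx N2 ρ).filter fun y => y ≠ 0 ∧ rky M y ≤ j).card : ℝ) ≤
          ((∑ a ∈ (Finset.range (ρ + 1)).filter (fun a => p ^ a ≤ ρ),
            (Wp M p j (ρ / p ^ a)).card : ℕ) : ℝ) := by exact_mod_cast h4
        _ = ∑ a ∈ (Finset.range (ρ + 1)).filter (fun a => p ^ a ≤ ρ),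
            ((Wp M p j (ρ / p ^ a)).card : ℝ) := by push_cast; rfl
        _ ≤ ∑ a ∈ (Finset.range (ρ + 1)).filter (fun a => p ^ a ≤ ρ),
            C * (ρ : ℝ) ^ (n + 1) * (1 / 2) ^ a := Finset.sum_le_sum h5
        _ ≤ ∑ a ∈ Finset.range (ρ + 1), C * (ρ : ℝ) ^ (n + 1) * (1 / 2) ^ a :=
            Finset.sum_le_sum_of_subset_of_nonneg (Finset.filter_subset _ _)
              fun a _ _ => by positivity
        _ = C * (ρ : ℝ) ^ (n + 1) * ∑ a ∈ Finset.range (ρ + 1), (1 / 2 : ℝ) ^ a := by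
            rw [Finset.mul_sum]
        _ ≤ C * (ρ : ℝ) ^ (n + 1) * 2 :=
            mul_le_mul_of_nonneg_left (sum_geometric_two_le (ρ + 1)) (by positivity)
        _ = 2 * C * (ρ : ℝ) ^ (n + 1) := by ring
    calc (((bx N2 ρ).filter fun y => y ≠ 0 ∧ rky M y ≤ j).card : ℝ) * (ρ : ℝ) ^ N1
        ≤ 2 * C * (ρ : ℝ) ^ (n + 1) * (ρ : ℝ) ^ N1 :=
          mul_le_mul_of_nonneg_right h3 (by positivity)
      _ = 2 * C * (ρ : ℝ) ^ (j + N2) := by rw [hn, pow_add]; ring

end Pool.Agent.T6.H81.BJ
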