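import Mathlib
import Pool.Agent.T6.H81.BJ.Defs

/-! Module BD: the pairs with a bad `y`. -/

set_option autoImplicit false

namespace Pool.Agent.T6.H81.BJ.ModBD

open Finset Module Matrix
open Pool.Agent.H548.WM (ht bx mem_bx card_bx_le)
open Pool.Agent.H548.BL (lat mem_lat lat_card)

theorem pick {K : Type*} [Field K] {m n k : ℕ} (A : Matrix (Fin m) (Fin n) K) (h : k ≤ A.rank) :
    ∃ g : Fin k → Fin m, LinearIndependent K (A.submatrix g id).row := by
  rw [Matrix.rank_eq_finrank_span_row] at h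
  obtain ⟨f, hf, -, hli⟩ := Submodule.exists_fun_fin_finrank_span_eq K (Set.range A.row)
  have hf' : ∀ s : Fin k, ∃ j, A.row j = f (Fin.castLE h s) := fun s => hf _
  choose g hg using hf'
  refine ⟨g, ?_⟩
  have h2 := hli.comp (Fin.castLE h) (Fin.castLE_injective h)
  have h3 : (A.submatrix g id).row = f ∘ (Fin.castLE h) := by
    funext s
    exact hg s
  rw [h3]
  exact h2

variable {k N1 N2 : ℕ}

/-- Independent rows over the integers. -/
theorem rows (M : Fin k → Matrix (Fin N1) (Fin N2) ℤ) (y : Fin N2 → ℤ) {j : ℕ}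
    (hj : j ≤ rky M y) : ∃ g : Fin j → Fin k, LinearIndependent ℤ (fun s => cvv M y (g s)) := by
  obtain ⟨g, hg⟩ := pick _ hj
  refine ⟨g, ?_⟩
  exact (linearIndependent_algebraMap_comp_iff (R := ℤ) (S := ℚ)
    (v := fun s => cvv M y (g s))).1 hg

/-- The rank of dependent vectors. -/
theorem rky_lt {M : Fin k → Matrix (Fin N1) (Fin N2) ℤ} {y : Fin N2 → ℤ}
    (h : ¬ LinearIndependent ℤ (cvv M y)) : rky M y < k := by
  by_contra hge
  push Not at hge
  apply h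
  obtain ⟨g, hg⟩ := rows M y hge
  have hinj : Function.Injective g := by
    have h1 := hg.injective
    intro a b hab
    apply h1
    show cvv M y (g a) = cvv M y (g b)
    rw [hab]
  have hbij : Function.Bijective g := Finite.injective_iff_bijective.1 hinj
  let σ : Fin k ≃ Fin k := Equiv.ofBijective g hbij
  have h2 : (fun s => cvv M y (g s)) = (cvv M y) ∘ σ := rfl
  rw [h2] at hg
  exact (linearIndependent_equiv σ).1 hg

open Classical in
theorem fib (M : Fin k → Matrix (Fin N1) (Fin N2) ℤ) (y : Fin N2 → ℤ) {X : ℕ} (hX : 1 ≤ X) :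
    (((bx N1 X).filter (fun x => IncB M x y)).card : ℝ) ≤
      9 ^ N1 * (X : ℝ) ^ (N1 - rky M y) := by
  obtain ⟨g, hg⟩ := rows M y (le_refl (rky M y))
  have h1 := lat_card hg X hX
  rw [Fintype.card_fin] at h1
  have h2 : ((bx N1 X).filter (fun x => IncB M x y)).card ≤
      ((bx N1 X).filter (· ∈ lat (fun s => cvv M y (g s)))).card := by
    apply card_le_card
    intro x hx
    rw [mem_filter] at hx ⊢
    refine ⟨hx.1, ?_⟩
    rw [mem_lat]
    intro s
    rw [dotProduct_comm]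
    exact hx.2 (g s)
  have h3 : (((bx N1 X).filter (fun x => IncB M x y)).card : ℝ) ≤
      (((bx N1 X).filter (· ∈ lat (fun s => cvv M y (g s)))).card : ℝ) := by exact_mod_cast h2
  refine le_trans h3 (le_trans h1 ?_)
  rw [mul_pow]
  have h4 : (3 : ℝ) ^ (N1 - rky M y) ≤ 3 ^ N1 :=
    pow_le_pow_right₀ (by norm_num) (Nat.sub_le _ _)
  have h5 : (9 : ℝ) ^ N1 = 3 ^ N1 * 3 ^ N1 := by
    rw [← mul_pow]
    norm_num
  rw [h5]
  have h6 : (0 : ℝ) ≤ (X : ℝ) ^ (N1 - rky M y) := by positivity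
  have h7 : (0 : ℝ) ≤ (3 : ℝ) ^ N1 := by positivity
  calc (3 : ℝ) ^ N1 * (3 ^ (N1 - rky M y) * (X : ℝ) ^ (N1 - rky M y)) ≤
      3 ^ N1 * (3 ^ N1 * (X : ℝ) ^ (N1 - rky M y)) := by gcongr
    _ = _ := by ring

end Pool.Agent.T6.H81.BJ.ModBD

namespace Pool.Agent.T6.H81.BJ

open Finset Module Matrix ModBD
open Pool.Agent.H548.WM (ht bx mem_bx card_bx_le)

open Classical in
/-- **Module BD.** -/
theorem bD (hWJ : StmtWJ) : StmtBD := by
  intro k N1 N2 M hk hs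
  have hW : ∀ j : ℕ, ∃ C : ℝ, 0 ≤ C ∧ (j < k → ∀ ρ : ℕ, 1 ≤ ρ →
      ((((bx N2 ρ).filter fun y => y ≠ 0 ∧ rky M y ≤ j).card : ℕ) : ℝ) * (ρ : ℝ) ^ N1 ≤
      C * (ρ : ℝ) ^ (j + N2)) := by
    intro j
    by_cases hj : j < k
    · obtain ⟨C, hC, h⟩ := hWJ k N1 N2 M hs j hj
      exact ⟨C, hC, fun _ => h⟩
    · exact ⟨0, le_rfl, fun h => absurd h hj⟩
  choose C hC0 hC using hW
  have hsum0 : 0 ≤ ∑ j ∈ range k, C j := Finset.sum_nonneg fun j _ => hC0 j
  refine ⟨9 ^ N1 + 9 ^ N1 * ∑ j ∈ range k, C j, by positivity, ?_⟩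
  intro X ρ hX hρ
  have hρ0 : (0 : ℝ) < (ρ : ℝ) ^ N1 := by
    have : (0 : ℝ) < ρ := by exact_mod_cast hρ
    positivity
  -- the fibres over the `y`
  set T := (bx N1 X ×ˢ bx N2 ρ).filter fun t => ¬ LinearIndependent ℤ (cvv M t.2) ∧
      IncB M t.1 t.2 with hT
  have hTc : T.card = ∑ y ∈ bx N2 ρ, (T.filter fun t => t.2 = y).card := by
    apply card_eq_sum_card_fiberwise
    intro t ht
    rw [hT] at ht
    have := (mem_filter.1 (Finset.mem_coe.1 ht)).1
    exact (mem_product.1 this).2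
  have hfib : ∀ y, ((T.filter fun t => t.2 = y).card : ℝ) ≤
      if ¬ LinearIndependent ℤ (cvv M y) then
        (((bx N1 X).filter (fun x => IncB M x y)).card : ℝ) else 0 := by
    intro y
    by_cases h : ¬ LinearIndependent ℤ (cvv M y)
    · rw [if_pos h]
      have h1 : (T.filter fun t => t.2 = y).card ≤
          ((bx N1 X).filter (fun x => IncB M x y)).card := by
        apply card_le_card_of_injOn (fun t => t.1)
        · intro t ht
          have h2 := mem_filter.1 (Finset.mem_coe.1 ht)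
          rw [hT] at h2
          have h3 := mem_filter.1 h2.1
          apply Finset.mem_coe.2
          rw [mem_filter]
          refine ⟨(mem_product.1 h3.1).1, ?_⟩
          have := h3.2.2
          rw [h2.2] at this
          exact this
        · intro t ht t' ht' htt
          have h2 := mem_filter.1 (Finset.mem_coe.1 ht)
          have h3 := mem_filter.1 (Finset.mem_coe.1 ht')
          exact Prod.ext htt (h2.2.trans h3.2.symm)
      exact_mod_cast h1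
    · rw [if_neg h]
      have h1 : (T.filter fun t => t.2 = y) = ∅ := by
        rw [filter_eq_empty_iff]
        intro t ht hty
        rw [hT] at ht
        have h3 := (mem_filter.1 ht).2.1
        rw [hty] at h3
        exact h h3
      rw [h1]
      simp
  -- the bound of a fibre
  have hterm : ∀ y ∈ bx N2 ρ, ((T.filter fun t => t.2 = y).card : ℝ) ≤
      (if y = 0 then 9 ^ N1 * (X : ℝ) ^ N1 else 0) +
      ∑ j ∈ range k, if y ≠ 0 ∧ rky M y ≤ j then 9 ^ N1 * (X : ℝ) ^ (N1 - j) else 0 := by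
    intro y _
    have hnn : (0 : ℝ) ≤ ∑ j ∈ range k,
        if y ≠ 0 ∧ rky M y ≤ j then 9 ^ N1 * (X : ℝ) ^ (N1 - j) else 0 := by
      apply Finset.sum_nonneg
      intro j _
      split_ifs <;> positivity
    refine le_trans (hfib y) ?_
    by_cases h : ¬ LinearIndependent ℤ (cvv M y)
    · rw [if_pos h]
      by_cases h0 : y = 0
      · rw [if_pos h0]
        refine le_trans (fib M y hX) ?_
        have h1 : (X : ℝ) ^ (N1 - rky M y) ≤ (X : ℝ) ^ N1 :=
          pow_le_pow_right₀ (by exact_mod_cast hX) (Nat.sub_le _ _)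
        have h2 : (9 : ℝ) ^ N1 * (X : ℝ) ^ (N1 - rky M y) ≤ 9 ^ N1 * (X : ℝ) ^ N1 := by gcongr
        linarith
      · rw [if_neg h0, zero_add]
        refine le_trans (fib M y hX) ?_
        have h2 := Finset.single_le_sum (f := fun j =>
          if y ≠ 0 ∧ rky M y ≤ j then 9 ^ N1 * (X : ℝ) ^ (N1 - j) else 0) (s := range k)
          (fun j _ => by
            show (0 : ℝ) ≤ if y ≠ 0 ∧ rky M y ≤ j then 9 ^ N1 * (X : ℝ) ^ (N1 - j) else 0
            split_ifs <;> positivity) (mem_range.2 (rky_lt h))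
        refine le_trans ?_ h2
        show _ ≤ if y ≠ 0 ∧ rky M y ≤ rky M y then 9 ^ N1 * (X : ℝ) ^ (N1 - rky M y) else 0
        rw [if_pos ⟨h0, le_rfl⟩]
    · rw [if_neg h]
      have h3 : (0 : ℝ) ≤ if y = 0 then 9 ^ N1 * (X : ℝ) ^ N1 else 0 := by
        split_ifs <;> positivity
      linarith
  have h1 : (T.card : ℝ) ≤ ∑ y ∈ bx N2 ρ, ((if y = 0 then 9 ^ N1 * (X : ℝ) ^ N1 else 0) +
      ∑ j ∈ range k, if y ≠ 0 ∧ rky M y ≤ j then 9 ^ N1 * (X : ℝ) ^ (N1 - j) else 0) := by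
    rw [hTc]
    push_cast
    exact Finset.sum_le_sum hterm
  rw [Finset.sum_add_distrib, Finset.sum_comm] at h1
  have h2 : (∑ y ∈ bx N2 ρ, if y = 0 then 9 ^ N1 * (X : ℝ) ^ N1 else 0) ≤
      9 ^ N1 * (X : ℝ) ^ N1 := by
    rw [Finset.sum_ite_eq']
    split_ifs
    · exact le_rfl
    · positivity
  have h3 : ∀ j ∈ range k, (∑ y ∈ bx N2 ρ,
      if y ≠ 0 ∧ rky M y ≤ j then 9 ^ N1 * (X : ℝ) ^ (N1 - j) else 0) ≤
      9 ^ N1 * (C j * ((X : ℝ) ^ (N1 - j) * ((ρ : ℝ) ^ (j + N2) / (ρ : ℝ) ^ N1))) := by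
    intro j hj
    rw [← Finset.sum_filter, Finset.sum_const, nsmul_eq_mul]
    have h4 := hC j (mem_range.1 hj) ρ hρ
    have h5 : ((((bx N2 ρ).filter fun y => y ≠ 0 ∧ rky M y ≤ j).card : ℕ) : ℝ) ≤
        C j * ((ρ : ℝ) ^ (j + N2) / (ρ : ℝ) ^ N1) := by
      rw [← mul_div_assoc, le_div_iff₀ hρ0]
      exact h4
    have h6 : (0 : ℝ) ≤ 9 ^ N1 * (X : ℝ) ^ (N1 - j) := by positivity
    calc ((((bx N2 ρ).filter fun y => y ≠ 0 ∧ rky M y ≤ j).card : ℕ) : ℝ) *
        (9 ^ N1 * (X : ℝ) ^ (N1 - j)) ≤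
        C j * ((ρ : ℝ) ^ (j + N2) / (ρ : ℝ) ^ N1) * (9 ^ N1 * (X : ℝ) ^ (N1 - j)) := by gcongr
      _ = _ := by ring
  have h4 : (∑ j ∈ range k, ∑ y ∈ bx N2 ρ,
      if y ≠ 0 ∧ rky M y ≤ j then 9 ^ N1 * (X : ℝ) ^ (N1 - j) else 0) ≤
      9 ^ N1 * ((∑ j ∈ range k, C j) *
        ∑ j ∈ range k, (X : ℝ) ^ (N1 - j) * ((ρ : ℝ) ^ (j + N2) / (ρ : ℝ) ^ N1)) := by
    refine le_trans (Finset.sum_le_sum h3) ?_
    rw [← Finset.mul_sum]
    refine mul_le_mul_of_nonneg_left ?_ (by positivity)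
    rw [Finset.sum_mul]
    refine Finset.sum_le_sum fun j hj => ?_
    refine mul_le_mul_of_nonneg_left ?_ (hC0 j)
    exact Finset.single_le_sum (f := fun j =>
      (X : ℝ) ^ (N1 - j) * ((ρ : ℝ) ^ (j + N2) / (ρ : ℝ) ^ N1)) (fun j _ => by positivity) hj
  set S := ∑ j ∈ range k, (X : ℝ) ^ (N1 - j) * ((ρ : ℝ) ^ (j + N2) / (ρ : ℝ) ^ N1) with hS
  have hS0 : 0 ≤ S := Finset.sum_nonneg fun j _ => by positivity
  have hXN : (0 : ℝ) ≤ (X : ℝ) ^ N1 := by positivity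
  have h9 : (0 : ℝ) ≤ (9 : ℝ) ^ N1 := by positivity
  calc (T.card : ℝ) ≤ 9 ^ N1 * (X : ℝ) ^ N1 + 9 ^ N1 * ((∑ j ∈ range k, C j) * S) := by linarith
    _ ≤ (9 ^ N1 + 9 ^ N1 * ∑ j ∈ range k, C j) * ((X : ℝ) ^ N1 + S) := by
      have e1 : (9 ^ N1 + 9 ^ N1 * ∑ j ∈ range k, C j) * ((X : ℝ) ^ N1 + S) =
          (9 ^ N1 * (X : ℝ) ^ N1 + 9 ^ N1 * ((∑ j ∈ range k, C j) * S)) +
          (9 ^ N1 * S + 9 ^ N1 * (∑ j ∈ range k, C j) * (X : ℝ) ^ N1) := by ring
      rw [e1]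
      have e2 : (0 : ℝ) ≤ 9 ^ N1 * S + 9 ^ N1 * (∑ j ∈ range k, C j) * (X : ℝ) ^ N1 := by
        positivity
      linarith

end Pool.Agent.T6.H81.BJ
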